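import Pool.Agent.Lib.Pd6U.Def
import Pool.Agent.Lib.Pd6ff58.CL
import Pool.Agent.Lib.Pd6J.Cmb

/-!
# Module Ch: the closure of a Springer cell in the chart around a point of the Schubert cell

STATEMENT. Let `g = b w` with `b ∈ B`. If `chart g x = g u(x) B` is in the closure of `C_w ∩ S_X`
then `x` lies in the linear subspace `x_ij = 0` for `i > j`, `w i > w j` (which is `C_w` in this chart)
and `chart g x ∈ S_X`.

PROOF. `h = b * permGL w * lowerGL x` is in `zcl {h | pt h ∈ C_w ∩ S_X}` (`mem_zariskiClosure`). Springer: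
`zcl_map` with `j = i` and `pt_mem_springerFiber_iff_flag`. For the first part: by `finrank_cell`, `zcl_rank`:
`finrank (flagOf h j ⊓ stdFlag n i) ≥ finrank (flagOf (permGL w) j ⊓ stdFlag n i) ≥ #{t | t < j, w t < i}`
(the vectors `e_(w t)` are in it). As `b ∈ borel` (`flagOf_mul`, `mem_borel_iff`, `Submodule.map_inf`), the
same holds for `h' = permGL w * lowerGL x`. `flagOf h' j = {M ξ | ξ ∈ stdFlag n j}` with
`M (w p) q = lowerMat x p q`. Now let `p : Low n`, `w p.1.2 < w p.1.1`, put `q = p.1.2`, `j = q + 1`,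
`i = w q + 1`, `S = {t | t ≤ q, w t ≤ w q} ∋ q`. The space `V` of the `ξ ∈ stdFlag n (q + 1)` with
`(lowerMat x ξ) t = 0` for all `t` with `w q < w t` has dimension `≥ |S|` (`M` is injective). The
restriction `V → (S → ℂ)` is injective: if `ξ ∈ V` vanishes on `S` and `ξ ≠ 0` let `t` be the SMALLEST
index with `ξ t ≠ 0`; then `t ≤ q`, `t ∉ S`, so `w q < w t`, and `(lowerMat x ξ) t = ξ t ≠ 0`,
contradiction. So it is bijective and there is `ξ ∈ V` with `ξ = e_q` on `S`. Then `ξ = e_q`: otherwise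
let `t` be the smallest index with `ξ t ≠ 0`, `t ≠ q`; then `t < q` (`ξ ∈ stdFlag (q+1)`), `t ∉ S`, so
`w q < w t`, and `(lowerMat x ξ) t = ξ t ≠ 0` (the entries `lowerMat x t t'` with `t' > t` are `0`, in
particular `t' = q`): contradiction. So `e_q ∈ V`: `lowerMat x t q = 0` for all `t` with `w q < w t`. In
particular for `t = p.1.1`: `x p = 0`.
-/

open MvPolynomial

noncomputable section

namespace Pd6ff58.U

namespace ChAux

variable {n : ℕ}

theorem perm_mulVec (w : Equiv.Perm (Fin n)) (v : Fin n → ℂ) (t : Fin n) :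
    ((permGL w).val.mulVec v) (w t) = v t := by
  change ∑ j, (if w t = w j then (1 : ℂ) else 0) * v j = v t
  rw [Finset.sum_eq_single t]
  · simp
  · intro j _ hj
    have : w t ≠ w j := fun h => hj (w.injective h).symm
    simp [this]
  · intro h
    exact absurd (Finset.mem_univ _) h

/-- the leading entry -/
theorem lower_mulVec (x : Low n → ℂ) (ξ : Fin n → ℂ) (t : Fin n) (h : ∀ t', t' < t → ξ t' = 0) :
    ((lowerMat x).mulVec ξ) t = ξ t := by
  change ∑ j, lowerMat x t j * ξ j = ξ t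
  rw [Finset.sum_eq_single t]
  · simp [lowerMat]
  · intro j _ hj
    rcases lt_or_gt_of_ne hj with h1 | h1
    · rw [h j h1, mul_zero]
    · have h2 : lowerMat x t j = 0 := by
        simp [lowerMat, not_lt.2 h1.le, h1.ne]
      rw [h2, zero_mul]
  · intro h
    exact absurd (Finset.mem_univ _) h

theorem lower_single (x : Low n → ℂ) (q t : Fin n) :
    ((lowerMat x).mulVec (Pi.single q 1)) t = lowerMat x t q := by
  rw [Matrix.mulVec_single_one]
  rfl

/-- the vectors of `stdFlag n (q + 1)` which are mapped into `stdFlag n (w q + 1)` -/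
def VV (w : Equiv.Perm (Fin n)) (x : Low n → ℂ) (q : Fin n) : Submodule ℂ (Fin n → ℂ) :=
  stdFlag n (q + 1) ⊓ (stdFlag n (w q + 1)).comap (Matrix.mulVecLin (permGL w * lowerGL x).val)

theorem mem_VV {w : Equiv.Perm (Fin n)} {x : Low n → ℂ} {q : Fin n} {ξ : Fin n → ℂ}
    (h : ξ ∈ VV w x q) : (∀ t, q < t → ξ t = 0) ∧
      ∀ t, w q < w t → ((lowerMat x).mulVec ξ) t = 0 := by
  obtain ⟨h1, h2⟩ := h
  refine ⟨fun t ht => h1 t (by have : (q : ℕ) < t := ht; omega), fun t ht => ?_⟩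
  have h3 := h2 (w t) (by have : (w q : ℕ) < w t := ht; omega)
  rw [Matrix.mulVecLin_apply] at h3
  have h4 : (permGL w * lowerGL x).val.mulVec ξ =
      (permGL w).val.mulVec ((lowerMat x).mulVec ξ) := by
    rw [Matrix.mulVec_mulVec]
    rfl
  rw [h4, perm_mulVec] at h3
  exact h3

/-- a vector of `VV` vanishing on `S` is zero -/
theorem zero_of {w : Equiv.Perm (Fin n)} {x : Low n → ℂ} {q : Fin n} {ξ : Fin n → ℂ}
    (h : ξ ∈ VV w x q) (hS : ∀ t : Fin n, t ≤ q → w t ≤ w q → ξ t = 0) : ξ = 0 := by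
  obtain ⟨h1, h2⟩ := mem_VV h
  have key : ∀ t : Fin n, ξ t = 0 := by
    intro t
    induction t using WellFoundedLT.induction with
    | ind t ih =>
      by_cases ht : t ≤ q
      · by_cases hw : w t ≤ w q
        · exact hS t ht hw
        · have h3 := h2 t (not_le.1 hw)
          rwa [lower_mulVec x ξ t ih] at h3
      · exact h1 t (not_le.1 ht)
  exact funext key

theorem single_of {w : Equiv.Perm (Fin n)} {x : Low n → ℂ} {q : Fin n} {ξ : Fin n → ℂ}
    (h : ξ ∈ VV w x q)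
    (hS : ∀ t : Fin n, t ≤ q → w t ≤ w q → ξ t = (Pi.single q 1 : Fin n → ℂ) t) :
    ξ = Pi.single q 1 := by
  obtain ⟨h1, h2⟩ := mem_VV h
  have key : ∀ t : Fin n, t ≠ q → ξ t = 0 := by
    intro t
    induction t using WellFoundedLT.induction with
    | ind t ih =>
      intro hq
      by_cases ht : t ≤ q
      · have hlt : t < q := lt_of_le_of_ne ht hq
        by_cases hw : w t ≤ w q
        · rw [hS t ht hw, Pi.single_eq_of_ne hq]
        · have h3 := h2 t (not_le.1 hw)
          rwa [lower_mulVec x ξ t fun t' ht' => ih t' ht' (ht'.trans hlt).ne] at h3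
      · exact h1 t (not_le.1 ht)
  funext t
  by_cases ht : t = q
  · subst ht
    exact hS t le_rfl le_rfl
  · rw [key t ht, Pi.single_eq_of_ne ht]

theorem finrank_VV (w : Equiv.Perm (Fin n)) (x : Low n → ℂ) (q : Fin n) :
    Module.finrank ℂ (flagOf (permGL w * lowerGL x) (q + 1) ⊓ stdFlag n (w q + 1) :
      Submodule ℂ (Fin n → ℂ)) = Module.finrank ℂ (VV w x q) := by
  have h1 : (flagOf (permGL w * lowerGL x) (q + 1) ⊓ stdFlag n (w q + 1) :
      Submodule ℂ (Fin n → ℂ)) =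
      (VV w x q).map (Matrix.mulVecLin (permGL w * lowerGL x).val) := by
    ext y
    constructor
    · rintro ⟨⟨ξ, hξ, rfl⟩, hy⟩
      exact ⟨ξ, ⟨hξ, hy⟩, rfl⟩
    · rintro ⟨ξ, ⟨hξ, hy⟩, rfl⟩
      exact ⟨⟨ξ, hξ, rfl⟩, hy⟩
  rw [h1]
  exact ((Submodule.equivMapOfInjective _ (CLAux.inj _) (VV w x q)).finrank_eq).symm

theorem finrank_borel {b : GL (Fin n) ℂ} (hb : b ∈ borel n) (g : GL (Fin n) ℂ) (j i : ℕ) :
    Module.finrank ℂ (flagOf (b * g) j ⊓ stdFlag n i : Submodule ℂ (Fin n → ℂ)) =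
      Module.finrank ℂ (flagOf g j ⊓ stdFlag n i : Submodule ℂ (Fin n → ℂ)) := by
  have h1 : (flagOf (b * g) j ⊓ stdFlag n i : Submodule ℂ (Fin n → ℂ)) =
      (flagOf g j ⊓ stdFlag n i : Submodule ℂ (Fin n → ℂ)).map (Matrix.mulVecLin b.val) := by
    rw [Submodule.map_inf _ (CLAux.inj b), ← flagOf_mul]
    congr 1
    exact (mem_borel_iff.1 hb i).symm
  rw [h1]
  exact ((Submodule.equivMapOfInjective _ (CLAux.inj b) _).finrank_eq).symm

theorem single_mem_VV (w : Equiv.Perm (Fin n)) (x : Low n → ℂ) (q : Fin n)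
    (h : Nat.card {a : Fin n // (a : ℕ) < q + 1 ∧ (w a : ℕ) < w q + 1} ≤
      Module.finrank ℂ (VV w x q)) : Pi.single q (1 : ℂ) ∈ VV w x q := by
  let ρ : VV w x q →ₗ[ℂ] ({a : Fin n // (a : ℕ) < q + 1 ∧ (w a : ℕ) < w q + 1} → ℂ) :=
    { toFun := fun ξ a => ξ.1 a.1
      map_add' := fun a b => rfl
      map_smul' := fun c a => rfl }
  have hinj : Function.Injective ρ := by
    rw [← LinearMap.ker_eq_bot, LinearMap.ker_eq_bot']
    intro ξ hξ
    apply Subtype.ext
    refine zero_of ξ.2 fun t h1 h2 => ?_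
    have h1' : (t : ℕ) ≤ q := h1
    have h2' : (w t : ℕ) ≤ w q := h2
    exact congrFun hξ ⟨t, by omega, by omega⟩
  have hle : Module.finrank ℂ (VV w x q) ≤
      Nat.card {a : Fin n // (a : ℕ) < q + 1 ∧ (w a : ℕ) < w q + 1} := by
    have h1 := LinearMap.finrank_le_finrank_of_injective hinj
    rwa [Module.finrank_fintype_fun_eq_card, ← Nat.card_eq_fintype_card] at h1
  have heq : Module.finrank ℂ (VV w x q) = Module.finrank ℂ
      ({a : Fin n // (a : ℕ) < q + 1 ∧ (w a : ℕ) < w q + 1} → ℂ) := by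
    rw [Module.finrank_fintype_fun_eq_card, ← Nat.card_eq_fintype_card]
    exact le_antisymm hle h
  have hsurj : Function.Surjective ρ :=
    (LinearMap.injective_iff_surjective_of_finrank_eq_finrank heq).1 hinj
  obtain ⟨ξ, hξ⟩ := hsurj fun a => (Pi.single q 1 : Fin n → ℂ) a.1
  have h1 : (ξ : Fin n → ℂ) = Pi.single q 1 := by
    refine single_of ξ.2 fun t h1 h2 => ?_
    have h1' : (t : ℕ) ≤ q := h1
    have h2' : (w t : ℕ) ≤ w q := h2
    exact congrFun hξ ⟨t, by omega, by omega⟩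
  rw [← h1]
  exact ξ.2

end ChAux

open ChAux in
theorem chart_closure {n : ℕ} (w : Equiv.Perm (Fin n)) (X : Matrix (Fin n) (Fin n) ℂ)
    {b : GL (Fin n) ℂ} (hb : b ∈ borel n) (x : Low n → ℂ)
    (h : chart (b * permGL w) x ∈ cellClosure X w) :
    (∀ p : Low n, w p.1.2 < w p.1.1 → x p = 0) ∧ chart (b * permGL w) x ∈ springerFiber X := by
  have h0 : b * permGL w * lowerGL x ∈
      zcl {g | pt g ∈ schubertCell w ∩ springerFiber X} := mem_zariskiClosure.1 h
  refine ⟨fun p hp => ?_, ?_⟩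
  · have h1 : Module.finrank ℂ (flagOf (permGL w) (p.1.2 + 1) ⊓ stdFlag n (w p.1.2 + 1) :
        Submodule ℂ (Fin n → ℂ)) ≤ Module.finrank ℂ
        (flagOf (b * permGL w * lowerGL x) (p.1.2 + 1) ⊓ stdFlag n (w p.1.2 + 1) :
        Submodule ℂ (Fin n → ℂ)) := by
      refine zcl_rank (S := {g | pt g ∈ schubertCell w ∩ springerFiber X}) ?_ h0
      intro g hg
      exact (finrank_cell ⟨1, (borel n).one_mem, by rw [one_mul]⟩ hg.1 _ _).le
    rw [mul_assoc, finrank_borel hb, finrank_VV,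
      J.finrank_perm w (by have := p.1.2.2; omega) (by have := (w p.1.2).2; omega)] at h1
    have h2 := (mem_VV (single_mem_VV w x p.1.2 h1)).2 p.1.1 hp
    rw [lower_single] at h2
    have h3 : lowerMat x p.1.1 p.1.2 = x p := by
      change (if h : p.1.2 < p.1.1 then x ⟨(p.1.1, p.1.2), h⟩ else
        if p.1.1 = p.1.2 then 1 else 0) = x p
      rw [dif_pos p.2]
    rw [h3] at h2
    exact h2
  · change pt (b * permGL w * lowerGL x) ∈ springerFiber X
    rw [pt_mem_springerFiber_iff_flag]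
    intro j
    refine zcl_map (S := {g | pt g ∈ schubertCell w ∩ springerFiber X}) ?_ h0
    intro g hg
    exact pt_mem_springerFiber_iff_flag.1 hg.2 j

end Pd6ff58.U
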