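import Pool.Agent.Lib.Pd6U.So
import Pool.Agent.Lib.Pd6U.Ch
import Pool.Agent.Lib.Pd6ff58.BL
import Pool.Agent.Lib.Pd6ff58.LU

/-!
# Module As: part A

The chart around `g = (1 + R s0) w` and the coordinates `(s, 𝒜)` of the point `(1 + R s) 𝒜 w B`.
-/

open MvPolynomial

set_option linter.unusedSectionVars false

noncomputable section

namespace Pd6ff58.U

variable {Z X Y : Type} {P : Par Z X Y} {n : ℕ} {pos tim : Ix P ≃ Fin n}

/-- the coordinates of the unipotent part -/
abbrev Tau (P : Par Z X Y) (pos : Ix P ≃ Fin n) : Type :=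
  {p : Ix P × Ix P // pos p.1 < pos p.2 ∧ kap P p.1 = kap P p.2}

variable [Fintype Z] [Fintype X] [Fintype Y] [DecidableEq Z] [DecidableEq X] [DecidableEq Y]

/-- the matrix of the point `x` of the chart -/
def TT (tim : Ix P ≃ Fin n) (x : Low n → ℂ) : Matrix (Ix P) (Ix P) ℂ :=
  (lowerMat x).submatrix tim tim

open Classical in
/-- the unipotent matrix with given entries -/
def AA (P : Par Z X Y) (pos : Ix P ≃ Fin n) (y : Tau P pos → ℂ) : Matrix (Ix P) (Ix P) ℂ :=
  Matrix.of fun a b => if a = b then 1 else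
    if h : pos a < pos b ∧ kap P a = kap P b then y ⟨(a, b), h⟩ else 0

namespace AsAux

theorem AA_same (y : Tau P pos → ℂ) : Same pos (AA P pos y) := by
  refine ⟨fun a => by simp [AA], fun a b h => ?_⟩
  by_cases hab : a = b
  · exact Or.inl hab
  · right
    by_contra hc
    apply h
    simp [AA, hab, hc]

theorem AA_of {A : Matrix (Ix P) (Ix P) ℂ} (hA : Same pos A) :
    AA P pos (fun p => A p.1.1 p.1.2) = A := by
  ext a b
  by_cases hab : a = b
  · subst hab
    simp [AA, hA.diag]
  · by_cases h : pos a < pos b ∧ kap P a = kap P b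
    · simp [AA, hab, h]
    · have e : A a b = 0 := by
        by_contra hc
        rcases hA.off a b hc with h1 | h1
        · exact hab h1
        · exact h h1
      simp [AA, hab, h, e]

theorem AA_apply (y : Tau P pos → ℂ) (p : Tau P pos) : AA P pos y p.1.1 p.1.2 = y p := by
  have h1 : p.1.1 ≠ p.1.2 := by
    intro h
    have := p.2.1
    rw [h] at this
    exact lt_irrefl _ this
  simp [AA, h1, p.2]

theorem AA_zero : AA P pos 0 = 1 := by
  ext a b
  by_cases hab : a = b
  · subst hab
    simp [AA]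
  · simp [AA, hab, Matrix.one_apply]

/-- the matrix `1 + R` in `GL` -/
def bGL {R : Matrix (Ix P) (Ix P) ℂ} (hR : Nil pos R) : GL (Fin n) ℂ where
  val := (1 + R).submatrix pos.symm pos.symm
  inv := (1 - R).submatrix pos.symm pos.symm
  val_inv := by
    rw [Matrix.submatrix_mul_equiv]
    have : (1 + R) * (1 - R) = 1 := by
      rw [add_mul, one_mul, mul_sub, mul_one, hR.mul_nil hR]
      abel
    rw [this, Matrix.submatrix_one_equiv]
  inv_val := by
    rw [Matrix.submatrix_mul_equiv]
    have : (1 - R) * (1 + R) = 1 := by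
      rw [sub_mul, one_mul, mul_add, mul_one, hR.mul_nil hR]
      abel
    rw [this, Matrix.submatrix_one_equiv]

theorem bGL_borel {R : Matrix (Ix P) (Ix P) ℂ} (hR : Nil pos R) : bGL hR ∈ borel n := by
  intro i j hij
  by_contra h
  have h' : (1 + R) (pos.symm i) (pos.symm j) ≠ 0 := h
  rcases SpAux.add_ne h' with h1 | h1
  · have := pos.symm.injective (SpAux.one_ne h1)
    rw [this] at hij
    exact lt_irrefl _ hij
  · have h2 := (hR _ _ h1).2.2.2
    rw [Equiv.apply_symm_apply, Equiv.apply_symm_apply] at h2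
    exact lt_asymm hij h2

theorem mul_permGL (N : Matrix (Ix P) (Ix P) ℂ) :
    N.submatrix pos.symm pos.symm * (permGL (ww pos tim)).val =
      N.submatrix pos.symm tim.symm := by
  ext i j
  rw [Matrix.mul_apply, Finset.sum_eq_single (ww pos tim j)]
  · simp [permGL, ww]
  · intro k _ hk
    simp [permGL, hk]
  · intro h
    exact absurd (Finset.mem_univ _) h

theorem chart_val {R : Matrix (Ix P) (Ix P) ℂ} (hR : Nil pos R) (x : Low n → ℂ) :
    (bGL hR * permGL (ww pos tim) * lowerGL x).val =
      ((1 + R) * TT tim x).submatrix pos.symm tim.symm := by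
  have e1 : (bGL hR * permGL (ww pos tim)).val = (1 + R).submatrix pos.symm tim.symm :=
    mul_permGL (1 + R)
  have e2 : (lowerGL x).val = (TT tim x).submatrix tim.symm tim.symm := by
    change lowerMat x = _
    ext i j
    simp [TT]
  rw [Units.val_mul, e1, e2, Matrix.submatrix_mul_equiv]

theorem mem_cell {N : Matrix (Ix P) (Ix P) ℂ} (hN : Uw pos tim N) {g : GL (Fin n) ℂ}
    (hgv : g.val = N.submatrix pos.symm tim.symm) : pt g ∈ schubertCell (ww pos tim) := by
  refine pt_mem_schubertCell.2 ⟨g * (permGL (ww pos tim))⁻¹, ?_, 1, one_mem _, ?_⟩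
  · have e : (g * (permGL (ww pos tim))⁻¹).val = N.submatrix pos.symm pos.symm := by
      rw [Units.val_mul, hgv, ← mul_permGL, mul_assoc, Units.mul_inv, mul_one]
    intro i j hij
    by_contra h
    rw [e, Matrix.submatrix_apply] at h
    rcases hN.off _ _ h with h1 | h1
    · rw [pos.symm.injective h1] at hij
      exact lt_irrefl _ hij
    · have h2 := h1.1
      rw [Equiv.apply_symm_apply, Equiv.apply_symm_apply] at h2
      exact lt_asymm hij h2
  · rw [inv_mul_cancel_right, mul_one]

theorem TT_diag (x : Low n → ℂ) (a : Ix P) : TT tim x a a = 1 := by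
  simp [TT, lowerMat]

theorem TT_off (x : Low n → ℂ) {a b : Ix P} (h : TT tim x a b ≠ 0) :
    a = b ∨ ∃ h' : tim b < tim a, TT tim x a b = x ⟨(tim a, tim b), h'⟩ := by
  by_cases hab : a = b
  · exact Or.inl hab
  · right
    by_cases h' : tim b < tim a
    · exact ⟨h', by simp [TT, lowerMat, h']⟩
    · exfalso
      apply h
      have : tim a ≠ tim b := fun hh => hab (tim.injective hh)
      simp [TT, lowerMat, h', this]

theorem TT_uw (x : Low n → ℂ)
    (h : ∀ p : Low n, ww pos tim p.1.2 < ww pos tim p.1.1 → x p = 0) :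
    Uw pos tim (TT tim x) := by
  refine ⟨TT_diag x, fun a b hab => ?_⟩
  rcases TT_off x hab with h1 | ⟨h1, h2⟩
  · exact Or.inl h1
  · right
    refine ⟨?_, h1⟩
    by_contra hc
    have h3 : pos b < pos a := by
      rcases lt_or_eq_of_le (not_lt.1 hc) with h4 | h4
      · exact h4
      · exfalso
        rw [pos.injective h4] at h1
        exact lt_irrefl _ h1
    apply hab
    rw [h2]
    apply h
    simpa [ww] using h3

/-- `TT` of the entries of `T` -/
theorem TT_of {T : Matrix (Ix P) (Ix P) ℂ} (hT : Uw pos tim T) :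
    TT tim (fun p : Low n => T (tim.symm p.1.1) (tim.symm p.1.2)) = T := by
  ext a b
  by_cases h : tim b < tim a
  · simp [TT, lowerMat, h]
  · by_cases hab : a = b
    · subst hab
      rw [TT_diag, hT.diag]
    · have h1 : tim a ≠ tim b := fun hh => hab (tim.injective hh)
      have h2 : T a b = 0 := by
        by_contra hc
        rcases hT.off a b hc with h3 | h3
        · exact hab h3
        · exact h h3.2
      simp [TT, lowerMat, h, h1, h2]

theorem of_TT (x : Low n → ℂ) :
    (fun p : Low n => TT (P := P) tim x (tim.symm p.1.1) (tim.symm p.1.2)) = x := by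
  funext p
  simp only [TT, Matrix.submatrix_apply, Equiv.apply_symm_apply]
  exact BLAux.lowerMat_apply x p

theorem TT_zero : TT (P := P) tim 0 = 1 := by
  rw [TT, BLAux.lowerMat_zero]
  exact Matrix.submatrix_one_equiv tim

/-! ## Regularity -/

section reg

variable {σ : Type}

/-- regular matrix functions -/
def RM (s : σ → ℂ) (F : (σ → ℂ) → Matrix (Ix P) (Ix P) ℂ) : Prop :=
  ∀ a b, RegAt s fun x => F x a b

theorem RM.mul {s : σ → ℂ} {F G : (σ → ℂ) → Matrix (Ix P) (Ix P) ℂ} (hF : RM s F)
    (hG : RM s G) : RM s fun x => F x * G x := by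
  intro a b
  simp only [Matrix.mul_apply]
  exact RegAt.sum _ fun c _ => (hF a c).mul (hG c b)

theorem RM.add {s : σ → ℂ} {F G : (σ → ℂ) → Matrix (Ix P) (Ix P) ℂ} (hF : RM s F)
    (hG : RM s G) : RM s fun x => F x + G x := fun a b => (hF a b).add (hG a b)

theorem RM.sub {s : σ → ℂ} {F G : (σ → ℂ) → Matrix (Ix P) (Ix P) ℂ} (hF : RM s F)
    (hG : RM s G) : RM s fun x => F x - G x := fun a b => (hF a b).sub (hG a b)

theorem RM.const (s : σ → ℂ) (M : Matrix (Ix P) (Ix P) ℂ) : RM s fun _ => M :=
  fun _ _ => RegAt.const s _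

theorem RM.inv {s : σ → ℂ} {F : (σ → ℂ) → Matrix (Ix P) (Ix P) ℂ} (hF : RM s F)
    (hd : (F s).det ≠ 0) (tim : Ix P ≃ Fin n) : RM s fun x => (F x)⁻¹ := by
  intro a b
  have e : (fun x => (F x)⁻¹ a b) =
      fun x => ((F x).submatrix tim.symm tim.symm)⁻¹ (tim a) (tim b) := by
    funext x
    rw [Matrix.inv_submatrix_equiv, Matrix.submatrix_apply, Equiv.symm_apply_apply,
      Equiv.symm_apply_apply]
  rw [e]
  refine LUAux.inv (M := fun x => (F x).submatrix tim.symm tim.symm) (fun i j => hF _ _) ?_ _ _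
  rw [Matrix.det_submatrix_equiv_self]
  exact hd

theorem RM.same {s : σ → ℂ} {F : (σ → ℂ) → Matrix (Ix P) (Ix P) ℂ} (hF : RM s F) :
    RM s fun x => Pd6ff58.U.same P (F x) := by
  intro a b
  by_cases h : kap P a = kap P b
  · simpa [Pd6ff58.U.same, h] using hF a b
  · simpa [Pd6ff58.U.same, h] using RegAt.const s 0

end reg

end AsAux

open AsAux

theorem mem_of (hg : Good P pos tim) {s : (Z × X) ⊕ (X × Y) → ℂ} (hs : s ∈ ABset P.SA P.SB)
    {A : Matrix (Ix P) (Ix P) ℂ} (hA : Same pos A) {g : GL (Fin n) ℂ}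
    (hgv : g.val = ((1 + Rm P s) * A).submatrix pos.symm tim.symm) :
    pt g ∈ schubertCell (ww pos tim) ∩ springerFiber (Xn pos) := by
  obtain ⟨hR, he⟩ := solve' hg hs
  exact ⟨mem_cell (uw_of hg hR hA) hgv, (spr_iff hg hR hA g hgv).2 he⟩

theorem same_one : Same pos (1 : Matrix (Ix P) (Ix P) ℂ) :=
  ⟨fun a => Matrix.one_apply_eq a, fun a b h => Or.inl (SpAux.one_ne h)⟩

theorem base_mem (hg : Good P pos tim) : pt (permGL (ww pos tim)) ∈ springerFiber (Xn pos) := by
  have hs : (0 : (Z × X) ⊕ (X × Y) → ℂ) ∈ ABset P.SA P.SB := by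
    refine ⟨fun _ _ _ => rfl, fun _ _ _ => rfl, fun z y => ?_⟩
    simp
  refine (mem_of hg hs same_one (g := permGL (ww pos tim)) ?_).2
  have e : Rm P (0 : (Z × X) ⊕ (X × Y) → ℂ) = 0 := by
    ext a b
    obtain ⟨c, i⟩ := a
    obtain ⟨c', j⟩ := b
    rcases i with z | x | y <;> rcases j with z' | x' | y' <;> simp [Rm]
  rw [e, add_zero, mul_one, ← mul_permGL, Matrix.submatrix_one_equiv, one_mul]

theorem partA (hg : Good P pos tim) {s0 : (Z × X) ⊕ (X × Y) → ℂ}
    (hs0 : s0 ∈ ABset P.SA P.SB) :
    ∃ g : GL (Fin n) ℂ,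
      pt g ∈ schubertCell (ww pos tim) ∩ springerFiber (Xn pos) ∧
      SameLocalRing (chart g ⁻¹' cellClosure (Xn pos) (ww pos tim)) 0
        (timesAffine (τ := Tau P pos) (ABset P.SA P.SB)) (Sum.elim s0 0) := by
  have hp0 := hg.p0
  have hp1 := hg.p1
  obtain ⟨c0, hc0⟩ : ∃ c : Fin (P.L0 + P.L1), (c : ℕ) < P.L0 := ⟨⟨0, by omega⟩, hp0⟩
  obtain ⟨c1, hc1⟩ : ∃ c : Fin (P.L0 + P.L1), P.L0 ≤ (c : ℕ) := ⟨⟨P.L0, by omega⟩, le_rfl⟩
  obtain ⟨hR0, he0⟩ := solve' hg hs0
  have hR00 : Rm P s0 * Rm P s0 = 0 := hR0.mul_nil hR0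
  -- the value of `sOf` on `Rm`
  have hsOf : ∀ s : (Z × X) ⊕ (X × Y) → ℂ, sOf P c0 c1 (Rm P s) = s := by
    intro s
    funext q
    rcases q with q | q
    · simp [sOf, Rm, hc0]
    · simp [sOf, Rm, not_lt.2 hc1]
  -- membership in the cell
  have hmem : ∀ (s : (Z × X) ⊕ (X × Y) → ℂ) (A : Matrix (Ix P) (Ix P) ℂ) (g : GL (Fin n) ℂ),
      s ∈ ABset P.SA P.SB → Same pos A →
      g.val = ((1 + Rm P s) * A).submatrix pos.symm tim.symm →
      pt g ∈ schubertCell (ww pos tim) ∩ springerFiber (Xn pos) := by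
    intro s A g hs hA hgv
    obtain ⟨hR, he⟩ := solve' hg hs
    exact ⟨mem_cell (uw_of hg hR hA) hgv, (spr_iff hg hR hA g hgv).2 he⟩
  have hclos : ∀ x : Low n → ℂ, chart (bGL hR0 * permGL (ww pos tim)) x ∈
      schubertCell (ww pos tim) ∩ springerFiber (Xn pos) →
      chart (bGL hR0 * permGL (ww pos tim)) x ∈ cellClosure (Xn pos) (ww pos tim) := by
    intro x hx f hf g hgx
    exact hf g (hgx ▸ hx)
  let φ : (Low n → ℂ) → (((Z × X) ⊕ (X × Y)) ⊕ Tau P pos → ℂ) := fun x =>
    Sum.elim (sOf P c0 c1 (Rm P s0 + nilp P (TT tim x))) (fun p => TT tim x p.1.1 p.1.2)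
  let ψ : (((Z × X) ⊕ (X × Y)) ⊕ Tau P pos → ℂ) → (Low n → ℂ) := fun y p =>
    ((1 - Rm P s0) * ((1 + Rm P (fun q => y (Sum.inl q))) *
      AA P pos (fun q => y (Sum.inr q)))) (tim.symm p.1.1) (tim.symm p.1.2)
  have hone : Same pos (1 : Matrix (Ix P) (Ix P) ℂ) := by
    refine ⟨fun a => Matrix.one_apply_eq a, fun a b h => Or.inl (SpAux.one_ne h)⟩
  have hφ0 : φ 0 = Sum.elim s0 0 := by
    change Sum.elim (sOf P c0 c1 (Rm P s0 + nilp P (TT tim 0)))
      (fun p : Tau P pos => TT tim 0 p.1.1 p.1.2) = _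
    rw [TT_zero]
    have e1 : nilp P (1 : Matrix (Ix P) (Ix P) ℂ) = 0 := by
      have h := nilp_of hg (R := 0) (A := 1) (fun a b h => absurd rfl h) hone
      rwa [add_zero, mul_one] at h
    rw [e1, add_zero, hsOf]
    congr 1
    funext p
    have h1 : p.1.1 ≠ p.1.2 := by
      intro h
      have := p.2.1
      rw [h] at this
      exact lt_irrefl _ this
    exact Matrix.one_apply_ne h1
  have hψ0 : ψ (Sum.elim s0 0) = 0 := by
    funext p
    change ((1 - Rm P s0) * ((1 + Rm P s0) * AA P pos 0)) (tim.symm p.1.1) (tim.symm p.1.2) = 0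
    have e1 : (1 - Rm P s0) * (1 + Rm P s0) = 1 := by
      rw [sub_mul, one_mul, mul_add, mul_one, hR00]
      abel
    rw [AA_zero, mul_one, e1]
    apply Matrix.one_apply_ne
    intro h
    have h1 : p.1.2 < p.1.1 := p.2
    rw [tim.symm.injective h] at h1
    exact lt_irrefl _ h1
  refine ⟨bGL hR0 * permGL (ww pos tim), ?_, ?_⟩
  · refine hmem s0 1 _ hs0 hone ?_
    rw [mul_one]
    exact mul_permGL (1 + Rm P s0)
  · refine localRing_equiv _ _ _ _ φ ψ ?_ ?_ hφ0 hψ0 ?_ ?_
    · -- `φ` regular
      have hT : RM (P := P) (0 : Low n → ℂ) fun x => TT tim x := by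
        intro a b
        exact BLAux.RegM.lower (fun p => RegAt.coord _ p) (tim a) (tim b)
      have hS : RM (P := P) (0 : Low n → ℂ) fun x => nilp P (TT tim x) := by
        refine (hT.sub hT.same).mul (hT.same.inv ?_ tim)
        have h1 : Pd6ff58.U.same P (TT tim (0 : Low n → ℂ)) = 1 := by
          rw [TT_zero]
          have h := same_of hg (R := 0) (A := 1) (fun a b h => absurd rfl h) hone
          rwa [add_zero, mul_one] at h
        rw [h1, Matrix.det_one]
        exact one_ne_zero
      rintro ((q | q) | p)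
      · exact ((RM.const _ (Rm P s0)).add hS) _ _
      · exact ((RM.const _ (Rm P s0)).add hS) _ _
      · exact hT _ _
    · -- `ψ` regular
      have hR : RM (P := P) (Sum.elim s0 (0 : Tau P pos → ℂ)) fun y =>
          Rm P (fun q => y (Sum.inl q)) := by
        rintro ⟨c, i⟩ ⟨c', j⟩
        by_cases hcc : c = c'
        · subst hcc
          by_cases hL : (c : ℕ) < P.L0
          · rcases i with z | x | y <;> rcases j with z' | x' | y' <;> simp only [Rm, hL,
              Matrix.of_apply, if_true] <;>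
              first
                | exact RegAt.const _ _
                | exact RegAt.coord _ _
          · rcases i with z | x | y <;> rcases j with z' | x' | y' <;> simp only [Rm, hL,
              Matrix.of_apply, if_true, if_false] <;>
              first
                | exact RegAt.const _ _
                | exact RegAt.coord _ _
        · simp only [Rm, hcc, Matrix.of_apply, if_false]
          exact RegAt.const _ _
      have hA : RM (P := P) (Sum.elim s0 (0 : Tau P pos → ℂ)) fun y =>
          AA P pos (fun q => y (Sum.inr q)) := by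
        intro a b
        by_cases hab : a = b
        · subst hab
          simp only [AA, Matrix.of_apply, if_true]
          exact RegAt.const _ _
        · by_cases h : pos a < pos b ∧ kap P a = kap P b
          · simp only [AA, Matrix.of_apply, hab, if_false, h, and_self, dite_true]
            exact RegAt.coord _ _
          · simp only [AA, Matrix.of_apply, hab, if_false, h, dite_false]
            exact RegAt.const _ _
      intro p
      exact ((RM.const _ (1 - Rm P s0)).mul (((RM.const _ 1).add hR).mul hA)) _ _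
    · -- `ψ ∘ φ = id`
      refine Filter.Eventually.of_forall fun x hx => ?_
      obtain ⟨h1, h2⟩ := chart_closure (ww pos tim) (Xn pos) (bGL_borel hR0) x hx
      have hU : Uw pos tim (TT tim x) := TT_uw x h1
      have hN : Nil pos (nilp P (TT tim x)) := hU.nilp_nil hg
      have hRN : Nil pos (Rm P s0 + nilp P (TT tim x)) := hR0.add hN
      have e0 : (1 + Rm P s0) * (1 + nilp P (TT tim x)) = 1 + (Rm P s0 + nilp P (TT tim x)) := by
        rw [add_mul, one_mul, mul_add, mul_one, hR0.mul_nil hN]
        abel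
      have e1 : (1 + Rm P s0) * TT tim x =
          (1 + (Rm P s0 + nilp P (TT tim x))) * Pd6ff58.U.same P (TT tim x) := by
        rw [← e0, mul_assoc, ← hU.eq]
      have hE : REqs P (Rm P s0 + nilp P (TT tim x)) := by
        refine (spr_iff hg hRN hU.same (bGL hR0 * permGL (ww pos tim) * lowerGL x) ?_).1 h2
        rw [chart_val, e1]
      obtain ⟨h3, h4⟩ := solve hg hRN hE hc0 hc1
      refine ⟨h3, ?_⟩
      have e2 : AA P pos (fun q => φ x (Sum.inr q)) = Pd6ff58.U.same P (TT tim x) := by
        rw [← AA_of hU.same]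
        congr 1
        funext q
        change TT tim x q.1.1 q.1.2 = Pd6ff58.U.same P (TT tim x) q.1.1 q.1.2
        simp [Pd6ff58.U.same, q.2.2]
      have e3 : Rm P (fun q => φ x (Sum.inl q)) = Rm P s0 + nilp P (TT tim x) := h4.symm
      have e4 : (1 - Rm P s0) * ((1 + Rm P (fun q => φ x (Sum.inl q))) *
          AA P pos (fun q => φ x (Sum.inr q))) = TT tim x := by
        rw [e2, e3, ← e0, mul_assoc, ← hU.eq, ← mul_assoc]
        have e5 : (1 - Rm P s0) * (1 + Rm P s0) = 1 := by
          rw [sub_mul, one_mul, mul_add, mul_one, hR00]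
          abel
        rw [e5, one_mul]
      change (fun p : Low n => ((1 - Rm P s0) * ((1 + Rm P (fun q => φ x (Sum.inl q))) *
        AA P pos (fun q => φ x (Sum.inr q)))) (tim.symm p.1.1) (tim.symm p.1.2)) = x
      rw [e4]
      exact of_TT x
    · -- `φ ∘ ψ = id`
      refine Filter.Eventually.of_forall fun y hy => ?_
      have hs : (fun q => y (Sum.inl q)) ∈ ABset P.SA P.SB := hy
      obtain ⟨hR, he⟩ := solve' hg hs
      have hA : Same pos (AA P pos (fun q => y (Sum.inr q))) := AA_same _
      have hD : Nil pos (Rm P (fun q => y (Sum.inl q)) - Rm P s0) := hR.sub hR0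
      have e1 : (1 - Rm P s0) * ((1 + Rm P (fun q => y (Sum.inl q))) *
          AA P pos (fun q => y (Sum.inr q))) =
          (1 + (Rm P (fun q => y (Sum.inl q)) - Rm P s0)) *
            AA P pos (fun q => y (Sum.inr q)) := by
        rw [← mul_assoc]
        congr 1
        rw [sub_mul, one_mul, mul_add, mul_one, hR0.mul_nil hR]
        abel
      have hTT : TT tim (ψ y) = (1 + (Rm P (fun q => y (Sum.inl q)) - Rm P s0)) *
            AA P pos (fun q => y (Sum.inr q)) := by
        rw [← e1]
        apply TT_of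
        rw [e1]
        exact uw_of hg hD hA
      constructor
      · apply hclos
        refine hmem _ (AA P pos (fun q => y (Sum.inr q))) _ hs hA ?_
        rw [chart_val, hTT, ← mul_assoc]
        congr 2
        rw [add_mul, one_mul, mul_add, mul_one, mul_sub, hR0.mul_nil hR, hR00]
        abel
      · have f1 : nilp P (TT tim (ψ y)) = Rm P (fun q => y (Sum.inl q)) - Rm P s0 := by
          rw [hTT, nilp_of hg hD hA]
        have f2 : Pd6ff58.U.same P (TT tim (ψ y)) = AA P pos (fun q => y (Sum.inr q)) := by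
          rw [hTT, same_of hg hD hA]
        funext q
        rcases q with q | p
        · change sOf P c0 c1 (Rm P s0 + nilp P (TT tim (ψ y))) q = y (Sum.inl q)
          rw [f1, add_sub_cancel, hsOf]
        · change TT tim (ψ y) p.1.1 p.1.2 = y (Sum.inr p)
          have f3 : TT tim (ψ y) p.1.1 p.1.2 = Pd6ff58.U.same P (TT tim (ψ y)) p.1.1 p.1.2 := by
            simp [Pd6ff58.U.same, p.2.2]
          rw [f3, f2]
          exact AA_apply _ p

end Pd6ff58.U
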