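import Pool.Agent.Lib.Pd6U.EncD

/-!
# Module Col: colourings of the vectors and of the coordinates

`κ : Fin m → Fin 3` is a colouring of the variables such that the variables of every constraint have
different colours (`Con.Proper`). Colours of the vectors `XI`: `t c` and `g` have the colour `0`, `u i` has the
colour `1 + κ i`, `p i` has the colour `4 + κ i`, `e a` and `f i` have the colour `7`. Colours of the
coordinates `DI`: `o : 0`, `s : 1`, `v i : 2 + κ i`. No dependency contains two different vectors of the
same colour, no vector has two different coordinates of the same colour in its support (case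
distinction on the dependency `z` resp. the vector; use `hκ c` for the constraint `cs c`).
-/

noncomputable section

namespace Pd6ff58.U

/-- the variables of the constraint have different colours -/
def Con.Proper {m : ℕ} (κ : Fin m → Fin 3) : Con m → Prop
  | .one _ => True
  | .zero _ => True
  | .add i j l => κ i ≠ κ j ∧ κ i ≠ κ l ∧ κ j ≠ κ l
  | .mul i j l => κ i ≠ κ j ∧ κ i ≠ κ l ∧ κ j ≠ κ l

variable {m r : ℕ}

/-- colours of the vectors -/
def colA (κ : Fin m → Fin 3) : XI m r → Fin 8
  | .e _ => 7
  | .u i => ⟨1 + κ i, by have := (κ i).2; omega⟩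
  | .p i => ⟨4 + κ i, by have := (κ i).2; omega⟩
  | .f _ => 7
  | .g => 0
  | .t _ => 0

/-- colours of the coordinates -/
def colB (κ : Fin m → Fin 3) : DI m → Fin 5
  | .o => 0
  | .s => 1
  | .v i => ⟨2 + κ i, by have := (κ i).2; omega⟩

theorem Con.Proper.ok {κ : Fin m → Fin 3} {q : Con m} (h : q.Proper κ) : q.Ok := by
  rcases q with i | i | ⟨i, j, l⟩ | ⟨i, j, l⟩
  · trivial
  · trivial
  · exact ⟨fun e => h.1 (by rw [e]), fun e => h.2.1 (by rw [e]), fun e => h.2.2 (by rw [e])⟩
  · exact ⟨fun e => h.1 (by rw [e]), fun e => h.2.1 (by rw [e]), fun e => h.2.2 (by rw [e])⟩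

namespace ColAux

/-- the colour as a natural number -/
def cA (κ : Fin m → Fin 3) : XI m r → ℕ
  | .e _ => 7
  | .u i => 1 + κ i
  | .p i => 4 + κ i
  | .f _ => 7
  | .g => 0
  | .t _ => 0

theorem cA_eq (κ : Fin m → Fin 3) (y : XI m r) : (colA κ y : ℕ) = cA κ y := by
  rcases y with e | i | i | i | _ | c <;> rfl

/-- the colour as a natural number -/
def cB (κ : Fin m → Fin 3) : DI m → ℕ
  | .o => 0
  | .s => 1
  | .v i => 2 + κ i

theorem cB_eq (κ : Fin m → Fin 3) (y : DI m) : (colB κ y : ℕ) = cB κ y := by
  rcases y with _ | _ | i <;> rfl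

end ColAux

open ColAux in
theorem colA_ok {cs : Fin r → Con m} {κ : Fin m → Fin 3} (hκ : ∀ c, (cs c).Proper κ)
    (y y' : XI m r) (hy : y ≠ y') (hc : colA κ y = colA κ y') (z : ZI m r) :
    ¬ (SA cs z y ∧ SA cs z y') := by
  have hc' : cA κ y = cA κ y' := by rw [← cA_eq, ← cA_eq, hc]
  clear hc
  rintro ⟨h1, h2⟩
  rcases z with i | ⟨c, k⟩
  · have b := (κ i).2
    simp only [SA] at h1 h2
    rcases h1 with rfl | rfl | rfl <;> rcases h2 with rfl | rfl | rfl <;>
      first
      | exact hy rfl
      | (simp only [cA] at hc'; omega)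
  · have hp := hκ c
    simp only [SA] at h1 h2
    rcases h : cs c with i | i | ⟨i, j, l⟩ | ⟨i, j, l⟩
    · rw [h] at h1 h2
      simp only [SAd] at h1 h2
      have b := (κ i).2
      rcases h1 with rfl | rfl | rfl <;> rcases h2 with rfl | rfl | rfl <;>
        first
        | exact hy rfl
        | (simp only [cA] at hc'; omega)
    · rw [h] at h1 h2
      simp only [SAd] at h1 h2
      have b := (κ i).2
      rcases h1 with rfl | rfl <;> rcases h2 with rfl | rfl <;>
        first
        | exact hy rfl
        | (simp only [cA] at hc'; omega)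
    · rw [h] at h1 h2 hp
      have b1 := (κ i).2
      have b2 := (κ j).2
      have b3 := (κ l).2
      have p1 : (κ i : ℕ) ≠ κ j := fun e => hp.1 (Fin.ext e)
      have p2 : (κ i : ℕ) ≠ κ l := fun e => hp.2.1 (Fin.ext e)
      have p3 : (κ j : ℕ) ≠ κ l := fun e => hp.2.2 (Fin.ext e)
      by_cases k0 : k = 0
      · simp only [SAd, k0, if_true] at h1 h2
        rcases h1 with rfl | rfl | rfl <;> rcases h2 with rfl | rfl | rfl <;>
          first
          | exact hy rfl
          | (simp only [cA] at hc'; omega)
      · by_cases k1 : k = 1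
        · have e : ¬ ((1 : Fin 3) = 0) := by decide
          simp only [SAd, k1, e, if_true, if_false] at h1 h2
          rcases h1 with rfl | rfl | rfl <;> rcases h2 with rfl | rfl | rfl <;>
            first
            | exact hy rfl
            | (simp only [cA] at hc'; omega)
        · simp only [SAd, k0, k1, if_false] at h1 h2
          rcases h1 with rfl | rfl | rfl | rfl | rfl <;>
            rcases h2 with rfl | rfl | rfl | rfl | rfl <;>
            first
            | exact hy rfl
            | (simp only [cA] at hc'; omega)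
    · rw [h] at h1 h2 hp
      have b1 := (κ i).2
      have b2 := (κ j).2
      have b3 := (κ l).2
      have p1 : (κ i : ℕ) ≠ κ j := fun e => hp.1 (Fin.ext e)
      have p2 : (κ i : ℕ) ≠ κ l := fun e => hp.2.1 (Fin.ext e)
      have p3 : (κ j : ℕ) ≠ κ l := fun e => hp.2.2 (Fin.ext e)
      by_cases k0 : k = 0
      · simp only [SAd, k0, if_true] at h1 h2
        rcases h1 with rfl | rfl | rfl | rfl | rfl <;>
          rcases h2 with rfl | rfl | rfl | rfl | rfl <;>
          first
          | exact hy rfl
          | (simp only [cA] at hc'; omega)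
      · simp only [SAd, k0, if_false] at h1 h2
        rcases h1 with rfl | rfl | rfl <;> rcases h2 with rfl | rfl | rfl <;>
          first
          | exact hy rfl
          | (simp only [cA] at hc'; omega)

open ColAux in
theorem colB_ok {cs : Fin r → Con m} {κ : Fin m → Fin 3} (hκ : ∀ c, (cs c).Proper κ)
    (d d' : DI m) (hd : d ≠ d') (hc : colB κ d = colB κ d') (y : XI m r) :
    ¬ (SB cs y d ∧ SB cs y d') := by
  have hc' : cB κ d = cB κ d' := by rw [← cB_eq, ← cB_eq, hc]
  clear hc
  rintro ⟨h1, h2⟩
  rcases y with e | i | i | i | _ | c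
  · simp only [SB] at h1 h2
    exact hd (h1.trans h2.symm)
  · simp only [SB] at h1 h2
    rcases h1 with rfl | rfl <;> rcases h2 with rfl | rfl <;>
      first
      | exact hd rfl
      | (simp only [cB] at hc'; omega)
  · simp only [SB] at h1 h2
    rcases h1 with rfl | rfl <;> rcases h2 with rfl | rfl <;>
      first
      | exact hd rfl
      | (simp only [cB] at hc'; omega)
  · simp only [SB] at h1 h2
    rcases h1 with rfl | rfl <;> rcases h2 with rfl | rfl <;>
      first
      | exact hd rfl
      | (simp only [cB] at hc'; omega)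
  · simp only [SB] at h1 h2
    rcases h1 with rfl | rfl <;> rcases h2 with rfl | rfl <;>
      first
      | exact hd rfl
      | (simp only [cB] at hc'; omega)
  · have hp := hκ c
    simp only [SB] at h1 h2
    rcases h : cs c with i | i | ⟨i, j, l⟩ | ⟨i, j, l⟩
    · rw [h] at h1 h2
      simp only [SBt] at h1 h2
      exact hd (h1.trans h2.symm)
    · rw [h] at h1 h2
      simp only [SBt] at h1 h2
      exact hd (h1.trans h2.symm)
    · rw [h] at h1 h2 hp
      simp only [SBt] at h1 h2
      have p1 : (κ i : ℕ) ≠ κ j := fun e => hp.1 (Fin.ext e)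
      rcases h1 with rfl | rfl | rfl <;> rcases h2 with rfl | rfl | rfl <;>
        first
        | exact hd rfl
        | (simp only [cB] at hc'; omega)
    · rw [h] at h1 h2 hp
      simp only [SBt] at h1 h2
      have p2 : (κ i : ℕ) ≠ κ l := fun e => hp.2.1 (Fin.ext e)
      rcases h1 with rfl | rfl <;> rcases h2 with rfl | rfl <;>
        first
        | exact hd rfl
        | (simp only [cB] at hc'; omega)

end Pd6ff58.U
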