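import Pool.Agent.Lib.Pd6ff58.FL
import Pool.Agent.Lib.Pd6ff58.RI
import Pool.Agent.Lib.Pd6ff58.RD

/-!
# Package Pd6U (Murphy's law for Springer cells of matrices in Jordan form): definitions

PART A. `Z, X, Y` finite types, `SA ⊆ Z × X`, `SB ⊆ X × Y` prescribed supports. The variety
`ABset` of the pairs `(A, B)` of matrices with these supports and `A B = 0` is, up to an affine factor,
a Springer cell `C_w ∩ S_X` for a matrix in Jordan form. The ambient space is `Ix P → ℂ`,
`Ix P = Fin (L0 + L1) × (Z ⊕ X ⊕ Y)`: there are `L0 + L1` layers, each a copy of `ℂ^(Z ⊕ X ⊕ Y)`. The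
nilpotent matrix `Xm` maps the layer `c + 1` identically to the layer `c`. The pivots of the layers
`c < L0` are `X ⊕ Y`, those of the layers `c ≥ L0` are `Y`. `kap` is the moment at which a coordinate
enters the flag (`c` for a pivot of the layer `c`, `c + 1` for a nonpivot). `pos` is the order of the
basis, `tim` the order in time, `ww = pos ∘ tim⁻¹` is the permutation. A flag of the cell is
`(1 + R) 𝒜 w B` where `𝒜` is unitriangular and only relates coordinates of the same moment, and `R`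
maps pivots of a layer to nonpivots of the same layer; the Springer condition says that `R` is
`A` on the layers `< L0`, `B` on the layers `≥ L0`, with `A B = 0`.
-/

open MvPolynomial

noncomputable section

namespace Pd6ff58.U

/-- the parameters of part A: numbers of layers and the two supports -/
structure Par (Z X Y : Type) where
  L0 : ℕ
  L1 : ℕ
  SA : Z → X → Prop
  SB : X → Y → Prop

/-- the index set of the coordinates -/
abbrev Ix {Z X Y : Type} (P : Par Z X Y) : Type := Fin (P.L0 + P.L1) × (Z ⊕ X ⊕ Y)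

section defs

variable {Z X Y : Type}

/-- the pivots -/
def piv (P : Par Z X Y) : Ix P → Prop
  | (_, Sum.inl _) => False
  | (c, Sum.inr (Sum.inl _)) => (c : ℕ) < P.L0
  | (_, Sum.inr (Sum.inr _)) => True

open Classical in
/-- the moment of a coordinate -/
def kap (P : Par Z X Y) (x : Ix P) : ℕ := (x.1 : ℕ) + if piv P x then 0 else 1

/-- The pairs `(A, B)` of matrices with supports in `SA`, `SB` and `A B = 0`. -/
def ABset [Fintype X] (SA : Z → X → Prop) (SB : X → Y → Prop) :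
    Set ((Z × X) ⊕ (X × Y) → ℂ) :=
  {s | (∀ z x, ¬ SA z x → s (Sum.inl (z, x)) = 0) ∧ (∀ x y, ¬ SB x y → s (Sum.inr (x, y)) = 0) ∧
    ∀ z y, ∑ x, s (Sum.inl (z, x)) * s (Sum.inr (x, y)) = 0}

/-- the matrix `A` on the layers `< L0`, `B` on the layers `≥ L0` -/
def Rm (P : Par Z X Y) (s : (Z × X) ⊕ (X × Y) → ℂ) : Matrix (Ix P) (Ix P) ℂ :=
  Matrix.of fun a b =>
    if a.1 = b.1 then
      match a.2, b.2 with
      | Sum.inl z, Sum.inr (Sum.inl x) => if (a.1 : ℕ) < P.L0 then s (Sum.inl (z, x)) else 0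
      | Sum.inr (Sum.inl x), Sum.inr (Sum.inr y) =>
        if (a.1 : ℕ) < P.L0 then 0 else s (Sum.inr (x, y))
      | _, _ => 0
    else 0

open Classical in
/-- the nilpotent matrix, in the coordinates `Ix P` -/
def Xm (P : Par Z X Y) : Matrix (Ix P) (Ix P) ℂ := Matrix.of fun a b =>
  if (b.1 : ℕ) = (a.1 : ℕ) + 1 ∧ a.2 = b.2 then 1 else 0

/-- the conditions on the two orders -/
structure Good (P : Par Z X Y) {n : ℕ} (pos tim : Ix P ≃ Fin n) : Prop where
  p0 : 0 < P.L0
  p1 : 0 < P.L1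
  lay : ∀ a b, (a.1 : ℕ) < b.1 → pos a < pos b
  tim_kap : ∀ a b, kap P a < kap P b → tim a < tim b
  tim_pos : ∀ a b, kap P a = kap P b → pos b < pos a → tim a < tim b
  al0 : ∀ (c : Fin (P.L0 + P.L1)) z x, (c : ℕ) < P.L0 → P.SA z x →
    pos (c, Sum.inl z) < pos (c, Sum.inr (Sum.inl x))
  al1 : ∀ (c : Fin (P.L0 + P.L1)) x y, P.L0 ≤ (c : ℕ) → P.SB x y →
    pos (c, Sum.inr (Sum.inl x)) < pos (c, Sum.inr (Sum.inr y))
  fb0 : ∀ z x, ¬ P.SA z x → ∃ c : Fin (P.L0 + P.L1), (c : ℕ) < P.L0 ∧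
    pos (c, Sum.inr (Sum.inl x)) < pos (c, Sum.inl z)
  fb0' : ∀ z y, ∃ c : Fin (P.L0 + P.L1), (c : ℕ) < P.L0 ∧
    pos (c, Sum.inr (Sum.inr y)) < pos (c, Sum.inl z)
  fb1 : ∀ x y, ¬ P.SB x y → ∃ c : Fin (P.L0 + P.L1), P.L0 ≤ (c : ℕ) ∧
    pos (c, Sum.inr (Sum.inr y)) < pos (c, Sum.inr (Sum.inl x))
  fb1' : ∀ z y, ∃ c : Fin (P.L0 + P.L1), P.L0 ≤ (c : ℕ) ∧
    pos (c, Sum.inr (Sum.inr y)) < pos (c, Sum.inl z)

variable {n : ℕ}

/-- the nilpotent matrix -/
def Xn {P : Par Z X Y} (pos : Ix P ≃ Fin n) : Matrix (Fin n) (Fin n) ℂ :=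
  (Xm P).submatrix pos.symm pos.symm

/-- the permutation -/
def ww {P : Par Z X Y} (pos tim : Ix P ≃ Fin n) : Equiv.Perm (Fin n) := tim.symm.trans pos

/-- the matrices of the unipotent group of the cell -/
structure Uw {P : Par Z X Y} (pos tim : Ix P ≃ Fin n) (T : Matrix (Ix P) (Ix P) ℂ) : Prop where
  diag : ∀ a, T a a = 1
  off : ∀ a b, T a b ≠ 0 → a = b ∨ (pos a < pos b ∧ tim b < tim a)

/-- unitriangular matrices which only relate coordinates of the same moment -/
structure Same {P : Par Z X Y} (pos : Ix P ≃ Fin n) (A : Matrix (Ix P) (Ix P) ℂ) : Prop where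
  diag : ∀ a, A a a = 1
  off : ∀ a b, A a b ≠ 0 → a = b ∨ (pos a < pos b ∧ kap P a = kap P b)

/-- matrices which map pivots to nonpivots of the same layer which come before them -/
def Nil {P : Par Z X Y} (pos : Ix P ≃ Fin n) (R : Matrix (Ix P) (Ix P) ℂ) : Prop :=
  ∀ a b, R a b ≠ 0 → a.1 = b.1 ∧ ¬ piv P a ∧ piv P b ∧ pos a < pos b

/-- the equations of the Springer condition -/
def REqs [Fintype Z] [Fintype X] [Fintype Y] (P : Par Z X Y) (R : Matrix (Ix P) (Ix P) ℂ) :
    Prop :=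
  ∀ (a b : Ix P), ¬ piv P a → piv P b → (b.1 : ℕ) = (a.1 : ℕ) + 1 →
    R (b.1, a.2) b = R a (a.1, b.2) + ∑ i, R a (a.1, i) * R (b.1, i) b

open Classical in
/-- the part of `T` which relates coordinates of the same moment -/
def same (P : Par Z X Y) (T : Matrix (Ix P) (Ix P) ℂ) : Matrix (Ix P) (Ix P) ℂ :=
  Matrix.of fun a b => if kap P a = kap P b then T a b else 0

end defs

/-! ## Part B: arithmetic -/

/-- elementary constraints on the variables `x_i`, `i : Fin m` -/
inductive Con (m : ℕ) : Type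
  | one (i : Fin m) : Con m
  | zero (i : Fin m) : Con m
  | add (i j l : Fin m) : Con m
  | mul (i j l : Fin m) : Con m

/-- the indices are distinct -/
def Con.Ok {m : ℕ} : Con m → Prop
  | .one _ => True
  | .zero _ => True
  | .add i j l => i ≠ j ∧ i ≠ l ∧ j ≠ l
  | .mul i j l => i ≠ j ∧ i ≠ l ∧ j ≠ l

/-- `x` satisfies the constraint -/
def Con.Sat {m : ℕ} (x : Fin m → ℂ) : Con m → Prop
  | .one i => x i = 1
  | .zero i => x i = 0
  | .add i j l => x l = x i + x j
  | .mul i j l => x l = x i * x j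

/-- the solutions of a system of constraints -/
def Sol {m r : ℕ} (cs : Fin r → Con m) : Set (Fin m → ℂ) := {x | ∀ c, (cs c).Sat x}

end Pd6ff58.U
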