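import Pool.Agent.Lib.Pd6U.EncD

/-!
# Module EncE: the normal form satisfies the equations
-/

open MvPolynomial

noncomputable section

namespace Pd6ff58.U

variable {m r : ℕ}

theorem W_supp {cs : Fin r → Con m} (x : Fin m → ℂ) (y : XI m r) (d : DI m)
    (h : ¬ SB cs y d) : W cs x y d = 0 := by
  rcases y with e | i | i | i | _ | c
  · simp only [SB] at h
    simp only [W, h, if_false]
  · simp only [SB, not_or] at h
    simp only [W, h.1, h.2, if_false]
  · simp only [SB, not_or] at h
    simp only [W, h.1, h.2, if_false]
  · simp only [SB, not_or] at h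
    simp only [W, h.1, h.2, if_false]
  · simp only [SB, not_or] at h
    simp only [W, h.1, h.2, if_false]
  · simp only [SB] at h
    simp only [W]
    rcases hc : cs c with i | i | ⟨i, j, l⟩ | ⟨i, j, l⟩
    · rw [hc] at h
      simp only [SBt] at h
      simp only [Wt, h, if_false]
    · rw [hc] at h
      simp only [SBt] at h
      simp only [Wt, h, if_false]
    · rw [hc] at h
      simp only [SBt, not_or] at h
      simp only [Wt, h.1, h.2.1, h.2.2, if_false]
    · rw [hc] at h
      simp only [SBt, not_or] at h
      simp only [Wt, h.1, h.2, if_false]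

theorem G_supp {cs : Fin r → Con m} (x : Fin m → ℂ) (z : ZI m r) (y : XI m r)
    (h : ¬ SA cs z y) : G cs x z y = 0 := by
  rcases z with i | ⟨c, k⟩
  · simp only [SA, not_or] at h
    simp only [G, h.1, h.2.1, h.2.2, if_false]
  · simp only [SA] at h
    simp only [G]
    rcases hc : cs c with i | i | ⟨i, j, l⟩ | ⟨i, j, l⟩
    · rw [hc] at h
      simp only [SAd, not_or] at h
      simp only [Gd, h.1, h.2.1, h.2.2, if_false]
    · rw [hc] at h
      simp only [SAd, not_or] at h
      simp only [Gd, h.1, h.2, if_false]
    · rw [hc] at h
      by_cases h0 : k = 0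
      · simp only [SAd, h0, if_true, not_or] at h
        simp only [Gd, h0, if_true, h.1, h.2.1, h.2.2, if_false]
      · by_cases h1 : k = 1
        · have e : ¬ ((1 : Fin 3) = 0) := by decide
          simp only [SAd, h1, e, if_false, if_true, not_or] at h
          simp only [Gd, h1, e, if_true, h.1, h.2.1, h.2.2, if_false]
        · simp only [SAd, h0, h1, if_false, not_or] at h
          simp only [Gd, h0, h1, h.1, h.2.1, h.2.2.1, h.2.2.2.1, h.2.2.2.2, if_false]
    · rw [hc] at h
      by_cases h0 : k = 0
      · simp only [SAd, h0, if_true, not_or] at h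
        simp only [Gd, h0, if_true, h.1, h.2.1, h.2.2.1, h.2.2.2.1, h.2.2.2.2, if_false]
      · simp only [SAd, h0, if_false, not_or] at h
        simp only [Gd, h0, h.1, h.2.1, h.2.2, if_false]

theorem W_lead {cs : Fin r → Con m} (x : Fin m → ℂ) (y : XI m r) :
    W cs x y (leadB cs y) = 1 := by
  rcases y with e | i | i | i | _ | c
  · simp [W, leadB]
  · simp [W, leadB]
  · simp [W, leadB]
  · simp [W, leadB]
  · simp [W, leadB]
  · rcases hc : cs c with i | i | ⟨i, j, l⟩ | ⟨i, j, l⟩ <;> simp [W, leadB, hc, Wt, leadt]

theorem G_lead {cs : Fin r → Con m} (x : Fin m → ℂ) (z : ZI m r) :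
    G cs x z (leadA cs z) = 1 := by
  rcases z with i | ⟨c, k⟩
  · simp [G, leadA]
  · rcases hc : cs c with i | i | ⟨i, j, l⟩ | ⟨i, j, l⟩
    · simp [G, leadA, hc, Gd, leadd]
    · simp [G, leadA, hc, Gd, leadd]
    · simp [G, leadA, hc, Gd, leadd]
    · by_cases h0 : k = 0
      · simp [G, leadA, hc, Gd, leadd, h0]
      · simp [G, leadA, hc, Gd, leadd, h0]

namespace EncEAux

theorem sum_eq {cs : Fin r → Con m} (x : Fin m → ℂ) (z : ZI m r) (S : Finset (XI m r))
    (hS : ∀ y, SA cs z y → y ∈ S) (d : DI m) :
    ∑ y, G cs x z y * W cs x y d = ∑ y ∈ S, G cs x z y * W cs x y d := by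
  symm
  apply Finset.sum_subset (Finset.subset_univ S)
  intro y _ hy
  rw [G_supp x z y (fun h => hy (hS y h)), zero_mul]

end EncEAux

open EncEAux in
theorem G_mul_W {cs : Fin r → Con m} (hok : ∀ c, (cs c).Ok) {x : Fin m → ℂ} (hx : x ∈ Sol cs)
    (z : ZI m r) (d : DI m) : ∑ y, G cs x z y * W cs x y d = 0 := by
  rcases z with i | ⟨c, k⟩
  · rw [sum_eq x (.z i) {.f i, .g, .u i} (by intro y hy; simpa [SA] using hy),
      Finset.sum_insert (by simp), Finset.sum_insert (by simp), Finset.sum_singleton]
    rcases d with _ | _ | j
    · simp [G, W]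
    · simp [G, W]
    · by_cases h : j = i
      · simp [G, W, h]
      · simp [G, W, h]
  · have ok := hok c
    have sat := hx c
    rcases hc : cs c with i | i | ⟨i, j, l⟩ | ⟨i, j, l⟩
    · rw [hc] at sat
      simp only [Con.Sat] at sat
      rw [sum_eq x (.d c k) {.p i, .g, .u i} (by intro y hy; simpa [SA, hc, SAd] using hy),
        Finset.sum_insert (by simp), Finset.sum_insert (by simp), Finset.sum_singleton]
      rcases d with _ | _ | q
      · simp [G, W, hc, Gd]
      · simp [G, W, hc, Gd]
      · by_cases h : q = i
        · simp [G, W, hc, Gd, h, sat]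
        · simp [G, W, hc, Gd, h]
    · rw [hc] at sat
      simp only [Con.Sat] at sat
      rw [sum_eq x (.d c k) {.p i, .e .o} (by intro y hy; simpa [SA, hc, SAd] using hy),
        Finset.sum_insert (by simp), Finset.sum_singleton]
      rcases d with _ | _ | q
      · simp [G, W, hc, Gd]
      · simp [G, W, hc, Gd]
      · by_cases h : q = i
        · simp [G, W, hc, Gd, h, sat]
        · simp [G, W, hc, Gd, h]
    · rw [hc] at sat ok
      simp only [Con.Sat] at sat
      obtain ⟨hij, hil, hjl⟩ := ok
      by_cases h0 : k = 0
      · subst h0
        rw [sum_eq x (.d c 0) {.t c, .p i, .e (.v j)}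
          (by intro y hy; simpa [SA, hc, SAd] using hy),
          Finset.sum_insert (by simp), Finset.sum_insert (by simp), Finset.sum_singleton]
        rcases d with _ | _ | q
        · simp [G, W, hc, Gd, Wt]
        · simp [G, W, hc, Gd, Wt]
        · by_cases h : q = i
          · subst h
            simp [G, W, hc, Gd, Wt, hij]
          · by_cases h' : q = j
            · subst h'
              simp [G, W, hc, Gd, Wt, h]
            · simp [G, W, hc, Gd, Wt, h, h']
      · by_cases h1 : k = 1
        · subst h1
          rw [sum_eq x (.d c 1) {.t c, .p j, .e (.v i)}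
            (by intro y hy; simpa [SA, hc, SAd] using hy),
            Finset.sum_insert (by simp), Finset.sum_insert (by simp), Finset.sum_singleton]
          rcases d with _ | _ | q
          · simp [G, W, hc, Gd, Wt]
          · simp [G, W, hc, Gd, Wt]
          · by_cases h : q = i
            · subst h
              simp [G, W, hc, Gd, Wt, hij]
            · by_cases h' : q = j
              · subst h'
                simp [G, W, hc, Gd, Wt, h]
              · simp [G, W, hc, Gd, Wt, h, h']
        · rw [sum_eq x (.d c k) {.t c, .p l, .u i, .u j, .u l}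
            (by intro y hy; simpa [SA, hc, SAd, h0, h1] using hy),
            Finset.sum_insert (by simp), Finset.sum_insert (by simp),
            Finset.sum_insert (by simp [hij, hil]), Finset.sum_insert (by simp [hjl]),
            Finset.sum_singleton]
          rcases d with _ | _ | q
          · simp [G, W, hc, Gd, Wt, h0, h1]
          · simp [G, W, hc, Gd, Wt, h0, h1, hij.symm, hil.symm, hjl.symm]
            rw [sat]; ring
          · by_cases h : q = i
            · subst h
              simp [G, W, hc, Gd, Wt, h0, h1, hij, hil]
            · by_cases h' : q = j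
              · subst h'
                simp [G, W, hc, Gd, Wt, h0, h1, h, hjl, hij.symm]
              · by_cases h'' : q = l
                · subst h''
                  simp [G, W, hc, Gd, Wt, h0, h1, h, h']
                · simp [G, W, hc, Gd, Wt, h0, h1, h, h', h'']
    · rw [hc] at sat ok
      simp only [Con.Sat] at sat
      obtain ⟨hij, hil, hjl⟩ := ok
      by_cases h0 : k = 0
      · subst h0
        rw [sum_eq x (.d c 0) {.t c, .f i, .p j, .u j, .u l}
          (by intro y hy; simpa [SA, hc, SAd] using hy),
          Finset.sum_insert (by simp), Finset.sum_insert (by simp),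
          Finset.sum_insert (by simp), Finset.sum_insert (by simp [hjl]),
          Finset.sum_singleton]
        rcases d with _ | _ | q
        · simp [G, W, hc, Gd, Wt]
        · simp [G, W, hc, Gd, Wt, hjl.symm]
        · by_cases h : q = i
          · subst h
            simp [G, W, hc, Gd, Wt, hij, hil]
          · by_cases h' : q = j
            · subst h'
              simp [G, W, hc, Gd, Wt, h, hjl]
            · by_cases h'' : q = l
              · subst h''
                simp [G, W, hc, Gd, Wt, h, h']
              · simp [G, W, hc, Gd, Wt, h, h', h'']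
      · rw [sum_eq x (.d c k) {.p l, .p i, .t c}
          (by intro y hy; simpa [SA, hc, SAd, h0] using hy),
          Finset.sum_insert (by simp [hil.symm]), Finset.sum_insert (by simp),
          Finset.sum_singleton]
        rcases d with _ | _ | q
        · simp [G, W, hc, Gd, Wt, h0, hil]
        · simp [G, W, hc, Gd, Wt, h0, hil]
        · by_cases h : q = i
          · subst h
            simp [G, W, hc, Gd, Wt, h0, hil]
          · by_cases h'' : q = l
            · subst h''
              simp [G, W, hc, Gd, Wt, h0, h, hil]
              rw [sat]; ring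
            · simp [G, W, hc, Gd, Wt, h0, h, h'']

end Pd6ff58.U
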