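import Pool.Agent.Lib.Pd6U.Def

/-!
# Module LIso: local isomorphisms with explicit regular maps
-/

open MvPolynomial

noncomputable section

namespace Pd6ff58.U

variable {σ τ ρ κ κ' : Type}

/-- near `s` resp. `t`, `S` and `T` are isomorphic by regular maps -/
def LocIso (S : Set (σ → ℂ)) (s : σ → ℂ) (T : Set (τ → ℂ)) (t : τ → ℂ) : Prop :=
  ∃ (φ : (σ → ℂ) → (τ → ℂ)) (ψ : (τ → ℂ) → (σ → ℂ)),
    (∀ j, RegAt s fun x => φ x j) ∧ (∀ i, RegAt t fun y => ψ y i) ∧ φ s = t ∧ ψ t = s ∧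
    (∀ᶠ x in zNhds s, x ∈ S → φ x ∈ T ∧ ψ (φ x) = x) ∧
    (∀ᶠ y in zNhds t, y ∈ T → ψ y ∈ S ∧ φ (ψ y) = y)

theorem LocIso.same {S : Set (σ → ℂ)} {s : σ → ℂ} {T : Set (τ → ℂ)} {t : τ → ℂ}
    (h : LocIso S s T t) : SameLocalRing S s T t := by
  obtain ⟨φ, ψ, h1, h2, h3, h4, h5, h6⟩ := h
  exact localRing_equiv _ _ _ _ φ ψ h1 h2 h3 h4 h5 h6

theorem same_trans {S : Set (σ → ℂ)} {s : σ → ℂ} {T : Set (τ → ℂ)} {t : τ → ℂ}
    {U : Set (ρ → ℂ)} {u : ρ → ℂ} (h : SameLocalRing S s T t) (h' : SameLocalRing T t U u) :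
    SameLocalRing S s U u := by
  obtain ⟨e⟩ := h
  obtain ⟨e'⟩ := h'
  exact ⟨e.trans e'⟩

theorem LocIso.trans {S : Set (σ → ℂ)} {s : σ → ℂ} {T : Set (τ → ℂ)} {t : τ → ℂ}
    {U : Set (ρ → ℂ)} {u : ρ → ℂ} (h : LocIso S s T t) (h' : LocIso T t U u) :
    LocIso S s U u := by
  obtain ⟨φ, ψ, h1, h2, h3, h4, h5, h6⟩ := h
  obtain ⟨φ', ψ', k1, k2, k3, k4, k5, k6⟩ := h'
  refine ⟨fun x => φ' (φ x), fun y => ψ (ψ' y), ?_, ?_,
    (congrArg φ' h3).trans k3, (congrArg ψ k4).trans h4, ?_, ?_⟩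
  · intro j
    exact RegAt.comp h1 (by rw [h3]; exact k1 j)
  · intro i
    exact RegAt.comp k2 (by rw [k4]; exact h2 i)
  · have e1 := tendsto_zNhds h1
    rw [h3] at e1
    filter_upwards [h5, e1.eventually k5] with x a b hx
    obtain ⟨a1, a2⟩ := a hx
    obtain ⟨b1, b2⟩ := b a1
    exact ⟨b1, by rw [b2, a2]⟩
  · have e1 := tendsto_zNhds k2
    rw [k4] at e1
    filter_upwards [k6, e1.eventually h6] with x a b hx
    obtain ⟨a1, a2⟩ := a hx
    obtain ⟨b1, b2⟩ := b a1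
    exact ⟨b1, by rw [b2, a2]⟩

/-- pull back of a regular function along a projection -/
theorem RegAt.inl {s : σ → ℂ} {t : κ → ℂ} {f : (σ → ℂ) → ℂ} (hf : RegAt s f) :
    RegAt (Sum.elim s t) fun y : σ ⊕ κ → ℂ => f (fun i => y (Sum.inl i)) := by
  refine RegAt.comp (φ := fun (y : σ ⊕ κ → ℂ) i => y (Sum.inl i))
    (fun i => RegAt.coord _ (Sum.inl i)) ?_
  exact hf

theorem LocIso.times {S : Set (σ → ℂ)} {s : σ → ℂ} {T : Set (τ → ℂ)} {t : τ → ℂ}
    (h : LocIso S s T t) : LocIso (timesAffine (τ := κ) S) (Sum.elim s 0)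
      (timesAffine (τ := κ) T) (Sum.elim t 0) := by
  obtain ⟨φ, ψ, h1, h2, h3, h4, h5, h6⟩ := h
  have hp : ∀ {σ : Type} (s : σ → ℂ) (p : (σ → ℂ) → Prop), (∀ᶠ x in zNhds s, p x) →
      ∀ᶠ y in zNhds (Sum.elim s (0 : κ → ℂ)), p (fun i => y (Sum.inl i)) := by
    intro σ s p hp
    have e := tendsto_zNhds (s := Sum.elim s (0 : κ → ℂ))
      (φ := fun (y : σ ⊕ κ → ℂ) i => y (Sum.inl i)) (fun i => RegAt.coord _ (Sum.inl i))
    exact e.eventually hp
  refine ⟨fun y => Sum.elim (φ fun i => y (Sum.inl i)) (fun k => y (Sum.inr k)),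
    fun y => Sum.elim (ψ fun i => y (Sum.inl i)) (fun k => y (Sum.inr k)), ?_, ?_, ?_, ?_, ?_, ?_⟩
  · rintro (j | k)
    · exact RegAt.inl (h1 j)
    · exact RegAt.coord _ (Sum.inr k)
  · rintro (j | k)
    · exact RegAt.inl (h2 j)
    · exact RegAt.coord _ (Sum.inr k)
  · funext j
    rcases j with j | k
    · exact congrFun h3 j
    · rfl
  · funext j
    rcases j with j | k
    · exact congrFun h4 j
    · rfl
  · filter_upwards [hp s _ h5] with y a hy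
    obtain ⟨a1, a2⟩ := a hy
    refine ⟨a1, ?_⟩
    funext j
    rcases j with j | k
    · exact congrFun a2 j
    · rfl
  · filter_upwards [hp t _ h6] with y a hy
    obtain ⟨a1, a2⟩ := a hy
    refine ⟨a1, ?_⟩
    funext j
    rcases j with j | k
    · exact congrFun a2 j
    · rfl

theorem LocIso.assoc (S : Set (σ → ℂ)) (s : σ → ℂ) :
    LocIso (timesAffine (τ := κ) (timesAffine (τ := κ') S)) (Sum.elim (Sum.elim s 0) 0)
      (timesAffine (τ := κ' ⊕ κ) S) (Sum.elim s 0) := by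
  refine ⟨fun y => Sum.elim (fun i => y (Sum.inl (Sum.inl i)))
      (Sum.elim (fun k => y (Sum.inl (Sum.inr k))) (fun k => y (Sum.inr k))),
    fun y => Sum.elim (Sum.elim (fun i => y (Sum.inl i)) (fun k => y (Sum.inr (Sum.inl k))))
      (fun k => y (Sum.inr (Sum.inr k))), ?_, ?_, ?_, ?_, ?_, ?_⟩
  · rintro (j | k | k)
    · exact RegAt.coord _ (Sum.inl (Sum.inl j))
    · exact RegAt.coord _ (Sum.inl (Sum.inr k))
    · exact RegAt.coord _ (Sum.inr k)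
  · rintro ((j | k) | k)
    · exact RegAt.coord _ (Sum.inl j)
    · exact RegAt.coord _ (Sum.inr (Sum.inl k))
    · exact RegAt.coord _ (Sum.inr (Sum.inr k))
  · funext j
    rcases j with j | k | k <;> rfl
  · funext j
    rcases j with (j | k) | k <;> rfl
  · refine Filter.Eventually.of_forall fun y hy => ⟨hy, ?_⟩
    funext j
    rcases j with (j | k) | k <;> rfl
  · refine Filter.Eventually.of_forall fun y hy => ⟨hy, ?_⟩
    funext j
    rcases j with j | k | k <;> rfl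

end Pd6ff58.U
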