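import Pool.Agent.Lib.Pd6U.EncU
import Pool.Agent.Lib.Pd6U.EncE
import Pool.Agent.Lib.Pd6U.LIso

/-!
# Module Enc: part B

STATEMENT. Near the point `(G x0, W x0)` the variety `ABset (SA cs) (SB cs)` is `Sol cs` times a torus.

PROOF. `J m r = XI m r ⊕ Option (Fin m) ⊕ ZI m r`. For `ξ : J → ℂ` let `τ y = 1 + ξ (inl y)`,
`κ s = 1`, `κ o = 1 + ξ (inr (inl none))`, `κ (v i) = 1 + ξ (inr (inl (some i)))`,
`ζ z = 1 + ξ (inr (inr z))`. `ψ (x, ξ) = (A, B)`, `A z y = ζ z * G cs x z y / τ y`,
`B y d = τ y * W cs x y d / κ d`. `φ (A, B) = (x, τ - 1, κ - 1, ζ - 1)` with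
`κ (v i) = - B (u i) s / B (u i) (v i)`, `κ o = B g s / B g o`, `τ y = κ (leadB y) * B y (leadB y)`,
`x i = κ (v i) * B (p i) (v i) / τ (p i)`, `ζ z = A z (leadA z) * τ (leadA z)`. These are the maps of `LocIso`; the
eventual statements hold where `B y (leadB y)`, `B (u i) s`, `B g s`, `A z (leadA z)` resp. `τ, κ, ζ` are nonzero.
If `(A, B)` is in `ABset` there then `a z y = A z y * τ y / ζ z`, `b y d = B y d * κ d / τ y` satisfy the hypotheses
of `norm_unique`.
-/

open MvPolynomial

noncomputable section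

namespace Pd6ff58.U

/-- the coordinates of the torus -/
abbrev J (m r : ℕ) : Type := XI m r ⊕ Option (Fin m) ⊕ ZI m r

namespace EncAux

variable {m r : ℕ}

/-- the part `x` -/
def xx (y : Fin m ⊕ J m r → ℂ) (i : Fin m) : ℂ := y (Sum.inl i)

/-- the part `τ` -/
def ta (y : Fin m ⊕ J m r → ℂ) (a : XI m r) : ℂ := 1 + y (Sum.inr (Sum.inl a))

/-- the part `κ` -/
def ka (y : Fin m ⊕ J m r → ℂ) : DI m → ℂ
  | .s => 1
  | .o => 1 + y (Sum.inr (Sum.inr (Sum.inl none)))
  | .v i => 1 + y (Sum.inr (Sum.inr (Sum.inl (some i))))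

/-- the part `ζ` -/
def ze (y : Fin m ⊕ J m r → ℂ) (z : ZI m r) : ℂ := 1 + y (Sum.inr (Sum.inr (Sum.inr z)))

/-- the map to pairs of matrices -/
def psi (cs : Fin r → Con m) (y : Fin m ⊕ J m r → ℂ) :
    (ZI m r × XI m r) ⊕ (XI m r × DI m) → ℂ :=
  Sum.elim (fun p => ze y p.1 * G cs (xx y) p.1 p.2 / ta y p.2)
    (fun p => ta y p.1 * W cs (xx y) p.1 p.2 / ka y p.2)

/-- entries of the second matrix -/
def BB (s : (ZI m r × XI m r) ⊕ (XI m r × DI m) → ℂ) (y : XI m r) (d : DI m) : ℂ :=
  s (Sum.inr (y, d))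

/-- entries of the first matrix -/
def AA (s : (ZI m r × XI m r) ⊕ (XI m r × DI m) → ℂ) (z : ZI m r) (y : XI m r) : ℂ :=
  s (Sum.inl (z, y))

/-- `κ` from the matrices -/
def kk (s : (ZI m r × XI m r) ⊕ (XI m r × DI m) → ℂ) : DI m → ℂ
  | .s => 1
  | .o => BB s .g .s / BB s .g .o
  | .v i => - BB s (.u i) .s / BB s (.u i) (.v i)

/-- `τ` from the matrices -/
def tt (cs : Fin r → Con m) (s : (ZI m r × XI m r) ⊕ (XI m r × DI m) → ℂ) (y : XI m r) : ℂ :=
  kk s (leadB cs y) * BB s y (leadB cs y)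

/-- `ζ` from the matrices -/
def zz (cs : Fin r → Con m) (s : (ZI m r × XI m r) ⊕ (XI m r × DI m) → ℂ) (z : ZI m r) : ℂ :=
  AA s z (leadA cs z) * tt cs s (leadA cs z)

/-- the map from pairs of matrices -/
def phi (cs : Fin r → Con m) (s : (ZI m r × XI m r) ⊕ (XI m r × DI m) → ℂ) :
    Fin m ⊕ J m r → ℂ :=
  Sum.elim (fun i => kk s (.v i) * BB s (.p i) (.v i) / tt cs s (.p i))
    (Sum.elim (fun a => tt cs s a - 1)
      (Sum.elim (fun o => match o with
        | none => kk s .o - 1
        | some i => kk s (.v i) - 1) (fun z => zz cs s z - 1)))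

theorem xx_phi (cs : Fin r → Con m) (s : (ZI m r × XI m r) ⊕ (XI m r × DI m) → ℂ) :
    xx (phi cs s) = fun i => kk s (.v i) * BB s (.p i) (.v i) / tt cs s (.p i) := rfl

theorem ta_phi (cs : Fin r → Con m) (s : (ZI m r × XI m r) ⊕ (XI m r × DI m) → ℂ) (a : XI m r) :
    ta (phi cs s) a = tt cs s a := by
  simp [ta, phi]

theorem ka_phi (cs : Fin r → Con m) (s : (ZI m r × XI m r) ⊕ (XI m r × DI m) → ℂ) (d : DI m) :
    ka (phi cs s) d = kk s d := by
  cases d <;> simp [ka, phi, kk]

theorem ze_phi (cs : Fin r → Con m) (s : (ZI m r × XI m r) ⊕ (XI m r × DI m) → ℂ) (z : ZI m r) :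
    ze (phi cs s) z = zz cs s z := by
  simp [ze, phi]

/-! ### regularity -/

theorem reg_W (cs : Fin r → Con m) (t : Fin m ⊕ J m r → ℂ) (y : XI m r) (d : DI m) :
    RegAt t fun q => W cs (xx q) y d := by
  have hx : ∀ i, RegAt t fun q => xx q i := fun i => RegAt.coord t (Sum.inl i)
  cases y with
  | e a => exact RegAt.const t (if d = a then 1 else 0)
  | u i => exact RegAt.const t (if d = .v i then 1 else if d = .s then -1 else 0)
  | p i =>
    show RegAt t fun q => if d = .o then 1 else if d = .v i then xx q i else 0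
    split_ifs
    · exact RegAt.const t 1
    · exact hx i
    · exact RegAt.const t 0
  | f i => exact RegAt.const t (if d = .o then 1 else if d = .v i then 1 else 0)
  | g => exact RegAt.const t (if d = .o then 1 else if d = .s then 1 else 0)
  | t c =>
    show RegAt t fun q => Wt (xx q) (cs c) d
    cases cs c with
    | one i => exact RegAt.const t (if d = .o then 1 else 0)
    | zero i => exact RegAt.const t (if d = .o then 1 else 0)
    | add i j l =>
      show RegAt t fun q => if d = .o then 1 else if d = .v i then xx q i else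
        if d = .v j then xx q j else 0
      split_ifs
      · exact RegAt.const t 1
      · exact hx i
      · exact hx j
      · exact RegAt.const t 0
    | mul i j l =>
      show RegAt t fun q => if d = .v i then 1 else if d = .v l then - xx q j else 0
      split_ifs
      · exact RegAt.const t 1
      · exact (hx j).neg
      · exact RegAt.const t 0

theorem reg_G (cs : Fin r → Con m) (t : Fin m ⊕ J m r → ℂ) (z : ZI m r) (y : XI m r) :
    RegAt t fun q => G cs (xx q) z y := by
  have hx : ∀ i, RegAt t fun q => xx q i := fun i => RegAt.coord t (Sum.inl i)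
  cases z with
  | z i =>
    exact RegAt.const t (if y = .f i then 1 else if y = .g then -1 else
      if y = .u i then -1 else 0)
  | d c k =>
    show RegAt t fun q => Gd (xx q) c k (cs c) y
    cases cs c with
    | one i =>
      exact RegAt.const t (if y = .p i then 1 else if y = .g then -1 else
        if y = .u i then -1 else 0)
    | zero i => exact RegAt.const t (if y = .p i then 1 else if y = .e .o then -1 else 0)
    | add i j l =>
      show RegAt t fun q =>
        if k = 0 then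
          (if y = .t c then 1 else if y = .p i then -1 else
            if y = .e (.v j) then - xx q j else 0)
        else if k = 1 then
          (if y = .t c then 1 else if y = .p j then -1 else
            if y = .e (.v i) then - xx q i else 0)
        else
          (if y = .t c then 1 else if y = .p l then -1 else if y = .u i then - xx q i else
            if y = .u j then - xx q j else if y = .u l then xx q l else 0)
      split_ifs <;>
        first
        | exact RegAt.const t 1
        | exact RegAt.const t (-1)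
        | exact RegAt.const t 0
        | exact (hx _).neg
        | exact hx _
    | mul i j l =>
      show RegAt t fun q =>
        if k = 0 then
          (if y = .t c then 1 else if y = .f i then -1 else if y = .p j then 1 else
            if y = .u j then - xx q j else if y = .u l then xx q j else 0)
        else (if y = .p l then 1 else if y = .p i then -1 else if y = .t c then xx q i else 0)
      split_ifs <;>
        first
        | exact RegAt.const t 1
        | exact RegAt.const t (-1)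
        | exact RegAt.const t 0
        | exact (hx _).neg
        | exact hx _

theorem reg_ta (t : Fin m ⊕ J m r → ℂ) (a : XI m r) : RegAt t fun q => ta q a :=
  (RegAt.const t 1).add (RegAt.coord t (Sum.inr (Sum.inl a)))

theorem reg_ze (t : Fin m ⊕ J m r → ℂ) (z : ZI m r) : RegAt t fun q => ze q z :=
  (RegAt.const t 1).add (RegAt.coord t (Sum.inr (Sum.inr (Sum.inr z))))

theorem reg_ka (t : Fin m ⊕ J m r → ℂ) (d : DI m) : RegAt t fun q => ka q d := by
  cases d with
  | o => exact (RegAt.const t 1).add (RegAt.coord t (Sum.inr (Sum.inr (Sum.inl none))))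
  | s => exact RegAt.const t 1
  | v i => exact (RegAt.const t 1).add (RegAt.coord t (Sum.inr (Sum.inr (Sum.inl (some i)))))

theorem reg_BB (s : (ZI m r × XI m r) ⊕ (XI m r × DI m) → ℂ) (y : XI m r) (d : DI m) :
    RegAt s fun q => BB q y d := RegAt.coord s (Sum.inr (y, d))

theorem reg_AA (s : (ZI m r × XI m r) ⊕ (XI m r × DI m) → ℂ) (z : ZI m r) (y : XI m r) :
    RegAt s fun q => AA q z y := RegAt.coord s (Sum.inl (z, y))

/-- the conditions which hold near the base point -/
structure Nz (cs : Fin r → Con m) (s : (ZI m r × XI m r) ⊕ (XI m r × DI m) → ℂ) : Prop where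
  b : ∀ y, BB s y (leadB cs y) ≠ 0
  u : ∀ i, BB s (.u i) .s ≠ 0
  g : BB s .g .s ≠ 0
  a : ∀ z, AA s z (leadA cs z) ≠ 0

variable {cs : Fin r → Con m} {s : (ZI m r × XI m r) ⊕ (XI m r × DI m) → ℂ}

theorem Nz.k (h : Nz cs s) (d : DI m) : kk s d ≠ 0 := by
  cases d with
  | o => exact div_ne_zero h.g (h.b .g)
  | s => exact one_ne_zero
  | v i => exact div_ne_zero (neg_ne_zero.2 (h.u i)) (h.b (.u i))

theorem Nz.t (h : Nz cs s) (y : XI m r) : tt cs s y ≠ 0 := mul_ne_zero (h.k _) (h.b y)

theorem Nz.z (h : Nz cs s) (z : ZI m r) : zz cs s z ≠ 0 := mul_ne_zero (h.a z) (h.t _)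

theorem reg_kk (h : Nz cs s) (d : DI m) : RegAt s fun q => kk q d := by
  cases d with
  | o => exact (reg_BB s .g .s).div (reg_BB s .g .o) (h.b .g)
  | s => exact RegAt.const s 1
  | v i => exact (reg_BB s (.u i) .s).neg.div (reg_BB s (.u i) (.v i)) (h.b (.u i))

theorem reg_tt (h : Nz cs s) (y : XI m r) : RegAt s fun q => tt cs q y :=
  (reg_kk h _).mul (reg_BB s _ _)

theorem reg_zz (h : Nz cs s) (z : ZI m r) : RegAt s fun q => zz cs q z :=
  (reg_AA s _ _).mul (reg_tt h _)

theorem reg_phi (h : Nz cs s) (j : Fin m ⊕ J m r) : RegAt s fun q => phi cs q j := by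
  rcases j with i | a | (_ | i) | z
  · exact ((reg_kk h _).mul (reg_BB s _ _)).div (reg_tt h _) (h.t _)
  · exact (reg_tt h a).sub (RegAt.const s 1)
  · exact (reg_kk h _).sub (RegAt.const s 1)
  · exact (reg_kk h _).sub (RegAt.const s 1)
  · exact (reg_zz h z).sub (RegAt.const s 1)

theorem ev_Nz (h : Nz cs s) : ∀ᶠ q in zNhds s, Nz cs q := by
  have h1 : ∀ᶠ q in zNhds s, ∀ y, BB q y (leadB cs y) ≠ 0 :=
    Filter.eventually_all.2 fun y => (reg_BB s _ _).ne_zero (h.b y)
  have h2 : ∀ᶠ q in zNhds s, ∀ i, BB q (.u i) .s ≠ 0 :=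
    Filter.eventually_all.2 fun i => (reg_BB s _ _).ne_zero (h.u i)
  have h3 : ∀ᶠ q in zNhds s, BB q .g .s ≠ 0 := (reg_BB s _ _).ne_zero h.g
  have h4 : ∀ᶠ q in zNhds s, ∀ z, AA q z (leadA cs z) ≠ 0 :=
    Filter.eventually_all.2 fun z => (reg_AA s _ _).ne_zero (h.a z)
  filter_upwards [h1, h2, h3, h4] with q a b c d
  exact ⟨a, b, c, d⟩

/-- the conditions which hold near the base point, second side -/
structure Nt (q : Fin m ⊕ J m r → ℂ) : Prop where
  t : ∀ a, ta q a ≠ 0
  k : ∀ d, ka q d ≠ 0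
  z : ∀ z, ze q z ≠ 0

theorem ev_Nt {t : Fin m ⊕ J m r → ℂ} (h : Nt t) : ∀ᶠ q in zNhds t, Nt q := by
  have h1 : ∀ᶠ q in zNhds t, ∀ a, ta q a ≠ 0 :=
    Filter.eventually_all.2 fun a => (reg_ta t a).ne_zero (h.t a)
  have h2 : ∀ᶠ q in zNhds t, ∀ d, ka q d ≠ 0 :=
    Filter.eventually_all.2 fun d => (reg_ka t d).ne_zero (h.k d)
  have h3 : ∀ᶠ q in zNhds t, ∀ z, ze q z ≠ 0 :=
    Filter.eventually_all.2 fun z => (reg_ze t z).ne_zero (h.z z)
  filter_upwards [h1, h2, h3] with q a b c
  exact ⟨a, b, c⟩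

theorem reg_psi {t : Fin m ⊕ J m r → ℂ} (h : Nt t)
    (i : (ZI m r × XI m r) ⊕ (XI m r × DI m)) : RegAt t fun q => psi cs q i := by
  rcases i with ⟨z, y⟩ | ⟨y, d⟩
  · exact ((reg_ze t z).mul (reg_G cs t z y)).div (reg_ta t y) (h.t y)
  · exact ((reg_ta t y).mul (reg_W cs t y d)).div (reg_ka t d) (h.k d)

/-! ### values -/

variable {q : Fin m ⊕ J m r → ℂ}

theorem BB_psi (y : XI m r) (d : DI m) :
    BB (psi cs q) y d = ta q y * W cs (xx q) y d / ka q d := rfl

theorem AA_psi (z : ZI m r) (y : XI m r) :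
    AA (psi cs q) z y = ze q z * G cs (xx q) z y / ta q y := rfl

theorem kk_psi (h : Nt q) (d : DI m) : kk (psi cs q) d = ka q d := by
  cases d with
  | o =>
    have h1 : BB (psi cs q) .g .s = ta q .g := by
      rw [BB_psi]
      simp [W, ka]
    have h2 : BB (psi cs q) .g .o = ta q .g / ka q .o := by
      rw [BB_psi]
      simp [W]
    show BB (psi cs q) .g .s / BB (psi cs q) .g .o = _
    rw [h1, h2, div_div_cancel₀ (h.t .g)]
  | s => rfl
  | v i =>
    have h1 : BB (psi cs q) (.u i) .s = - ta q (.u i) := by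
      rw [BB_psi]
      simp [W, ka]
    have h2 : BB (psi cs q) (.u i) (.v i) = ta q (.u i) / ka q (.v i) := by
      rw [BB_psi]
      simp [W]
    show - BB (psi cs q) (.u i) .s / BB (psi cs q) (.u i) (.v i) = _
    rw [h1, h2, neg_neg, div_div_cancel₀ (h.t (.u i))]

theorem tt_psi (h : Nt q) (y : XI m r) : tt cs (psi cs q) y = ta q y := by
  unfold tt
  rw [kk_psi h, BB_psi, W_lead, mul_one, mul_div_cancel₀ _ (h.k _)]

theorem zz_psi (h : Nt q) (z : ZI m r) : zz cs (psi cs q) z = ze q z := by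
  unfold zz
  rw [tt_psi h, AA_psi, G_lead, mul_one, div_mul_cancel₀ _ (h.t _)]

theorem phi_psi (h : Nt q) : phi cs (psi cs q) = q := by
  funext j
  rcases j with i | a | (_ | i) | z
  · show kk (psi cs q) (.v i) * BB (psi cs q) (.p i) (.v i) / tt cs (psi cs q) (.p i) = _
    rw [kk_psi h, tt_psi h, BB_psi]
    have h1 : W cs (xx q) (.p i) (.v i) = q (Sum.inl i) := by simp [W, xx]
    rw [h1]
    field_simp [h.t (.p i), h.k (.v i)]
  · show tt cs (psi cs q) a - 1 = _
    rw [tt_psi h]
    simp [ta]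
  · show kk (psi cs q) .o - 1 = _
    rw [kk_psi h]
    simp [ka]
  · show kk (psi cs q) (.v i) - 1 = _
    rw [kk_psi h]
    simp [ka]
  · show zz cs (psi cs q) z - 1 = _
    rw [zz_psi h]
    simp [ze]

theorem psi_mem (hok : ∀ c, (cs c).Ok) (h : Nt q) (hq : xx q ∈ Sol cs) :
    psi cs q ∈ ABset (SA cs) (SB cs) := by
  refine ⟨fun z y hn => ?_, fun y d hn => ?_, fun z d => ?_⟩
  · show ze q z * G cs (xx q) z y / ta q y = 0
    rw [G_supp _ _ _ hn, mul_zero, zero_div]
  · show ta q y * W cs (xx q) y d / ka q d = 0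
    rw [W_supp _ _ _ hn, mul_zero, zero_div]
  · have h1 : ∀ y, psi cs q (Sum.inl (z, y)) * psi cs q (Sum.inr (y, d)) =
        ze q z / ka q d * (G cs (xx q) z y * W cs (xx q) y d) := by
      intro y
      show ze q z * G cs (xx q) z y / ta q y * (ta q y * W cs (xx q) y d / ka q d) = _
      field_simp [h.t y, h.k d]
    rw [Finset.sum_congr rfl fun y _ => h1 y, ← Finset.mul_sum, G_mul_W hok hq, mul_zero]

theorem main (hok : ∀ c, (cs c).Ok) (h : Nz cs s) (hs : s ∈ ABset (SA cs) (SB cs)) :
    xx (phi cs s) ∈ Sol cs ∧ psi cs (phi cs s) = s := by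
  obtain ⟨s1, s2, s3⟩ := hs
  obtain ⟨k1, k2, k3⟩ := norm_unique (cs := cs) hok
    (a := fun z y => AA s z y * tt cs s y / zz cs s z)
    (b := fun y d => BB s y d * kk s d / tt cs s y)
    (fun z y hn => by
      show AA s z y * tt cs s y / zz cs s z = 0
      rw [show AA s z y = 0 from s1 z y hn, zero_mul, zero_div])
    (fun y d hn => by
      show BB s y d * kk s d / tt cs s y = 0
      rw [show BB s y d = 0 from s2 y d hn, zero_mul, zero_div])
    (fun z d => by
      have h1 : ∀ y, AA s z y * tt cs s y / zz cs s z * (BB s y d * kk s d / tt cs s y) =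
          kk s d / zz cs s z * (s (Sum.inl (z, y)) * s (Sum.inr (y, d))) := by
        intro y
        show _ = kk s d / zz cs s z * (AA s z y * BB s y d)
        field_simp [h.t y, h.z z]
      rw [Finset.sum_congr rfl fun y _ => h1 y, ← Finset.mul_sum, s3, mul_zero])
    (fun z => by
      show AA s z (leadA cs z) * tt cs s (leadA cs z) / zz cs s z = 1
      exact div_self (h.z z))
    (fun y => by
      show BB s y (leadB cs y) * kk s (leadB cs y) / tt cs s y = 1
      rw [mul_comm]
      exact div_self (h.t y))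
    (fun i => by
      show BB s (.u i) .s * 1 / tt cs s (.u i) = -1
      have h1 : tt cs s (.u i) = - BB s (.u i) .s := by
        show - BB s (.u i) .s / BB s (.u i) (.v i) * BB s (.u i) (.v i) = _
        exact div_mul_cancel₀ _ (h.b (.u i))
      rw [h1, mul_one, div_neg, div_self (h.u i)])
    (by
      show BB s .g .s * 1 / tt cs s .g = 1
      have h1 : tt cs s .g = BB s .g .s := by
        show BB s .g .s / BB s .g .o * BB s .g .o = _
        exact div_mul_cancel₀ _ (h.b .g)
      rw [h1, mul_one, div_self h.g])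
  have hx : xx (phi cs s) = fun i => BB s (.p i) (.v i) * kk s (.v i) / tt cs s (.p i) := by
    rw [xx_phi]
    funext i
    rw [mul_comm]
  refine ⟨?_, ?_⟩
  · rw [hx]
    exact k3
  · funext j
    rcases j with ⟨z, y⟩ | ⟨y, d⟩
    · show ze (phi cs s) z * G cs (xx (phi cs s)) z y / ta (phi cs s) y = AA s z y
      rw [ze_phi, ta_phi, hx, ← k2 z y]
      field_simp [h.t y, h.z z]
    · show ta (phi cs s) y * W cs (xx (phi cs s)) y d / ka (phi cs s) d = BB s y d
      rw [ka_phi, ta_phi, hx, ← k1 y d]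
      field_simp [h.t y, h.k d]

end EncAux

open EncAux

theorem partB {m r : ℕ} {cs : Fin r → Con m} (hok : ∀ c, (cs c).Ok) {x0 : Fin m → ℂ}
    (hx0 : x0 ∈ Sol cs) :
    ∃ s0 ∈ ABset (SA cs) (SB cs),
      LocIso (ABset (SA cs) (SB cs)) s0 (timesAffine (τ := J m r) (Sol cs))
        (Sum.elim x0 0) := by
  have ht : Nt (Sum.elim x0 0 : Fin m ⊕ J m r → ℂ) := by
    refine ⟨fun a => ?_, fun d => ?_, fun z => ?_⟩
    · simp [ta]
    · cases d <;> simp [ka]
    · simp [ze]
  have h0 : Nz cs (psi cs (Sum.elim x0 0 : Fin m ⊕ J m r → ℂ)) := by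
    refine ⟨fun y => ?_, fun i => ?_, ?_, fun z => ?_⟩
    · rw [BB_psi, W_lead, mul_one]
      exact div_ne_zero (ht.t _) (ht.k _)
    · rw [BB_psi]
      refine div_ne_zero (mul_ne_zero (ht.t _) ?_) (ht.k _)
      simp [W]
    · rw [BB_psi]
      refine div_ne_zero (mul_ne_zero (ht.t _) ?_) (ht.k _)
      simp [W]
    · rw [AA_psi, G_lead, mul_one]
      exact div_ne_zero (ht.z _) (ht.t _)
  refine ⟨psi cs (Sum.elim x0 0), psi_mem hok ht hx0, ?_⟩
  refine ⟨phi cs, psi cs, reg_phi h0, reg_psi ht, phi_psi ht, rfl, ?_, ?_⟩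
  · filter_upwards [ev_Nz h0] with q hq hm
    exact main hok hq hm
  · filter_upwards [ev_Nt ht] with q hq hm
    exact ⟨psi_mem hok hq hm, phi_psi hq⟩

end Pd6ff58.U
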