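import Pool.Agent.Lib.Pd6U.Def

/-!
# Module EncD: the encoding of arithmetic (part B), definitions

Rows of `B` = vectors in `ℂ^DI`, `DI = {o, s, v 0, ..., v (m-1)}` (basis `e_o, e_s, e_i`). In normal form
(`W`, depending on `x : Fin m → ℂ`): `e a = e_a`, `u i = e_i - e_s`, `p i = e_o + x_i e_i`,
`f i = e_o + e_i`, `g = e_o + e_s`, and for a constraint `c`: `t c = e_o + x_i e_i + x_j e_j` for
`x_i + x_j = x_l`, `t c = e_i - x_j e_l` for `x_i x_j = x_l`, `t c = e_o` otherwise.
Rows of `A` = linear dependencies between the rows of `B`, in normal form `G`: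
`z i : f_i - g - u_i = 0`;
`one i : p_i - g - u_i = 0` (iff `x_i = 1`); `zero i : p_i - e_o = 0` (iff `x_i = 0`);
`add i j l : t - p_i - x_j e_j = 0`, `t - p_j - x_i e_i = 0`,
`t - p_l - x_i u_i - x_j u_j + x_l u_l = 0` (iff `x_l = x_i + x_j`);
`mul i j l : t - f_i + p_j - x_j u_j + x_j u_l = 0`, `p_l - p_i + x_i t = 0` (iff `x_l = x_i x_j`).
-/

open MvPolynomial

noncomputable section

namespace Pd6ff58.U

/-- coordinates -/
inductive DI (m : ℕ) : Type
  | o : DI m
  | s : DI m
  | v (i : Fin m) : DI m
  deriving DecidableEq, Fintype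

/-- vectors -/
inductive XI (m r : ℕ) : Type
  | e (a : DI m) : XI m r
  | u (i : Fin m) : XI m r
  | p (i : Fin m) : XI m r
  | f (i : Fin m) : XI m r
  | g : XI m r
  | t (c : Fin r) : XI m r
  deriving DecidableEq, Fintype

/-- dependencies -/
inductive ZI (m r : ℕ) : Type
  | z (i : Fin m) : ZI m r
  | d (c : Fin r) (k : Fin 3) : ZI m r
  deriving DecidableEq, Fintype

variable {m r : ℕ}

/-- support of `t c` -/
def SBt : Con m → DI m → Prop
  | .one _, b => b = .o
  | .zero _, b => b = .o
  | .add i j _, b => b = .o ∨ b = .v i ∨ b = .v j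
  | .mul i _ l, b => b = .v i ∨ b = .v l

/-- supports of the vectors -/
def SB (cs : Fin r → Con m) : XI m r → DI m → Prop
  | .e a, b => b = a
  | .u i, b => b = .v i ∨ b = .s
  | .p i, b => b = .o ∨ b = .v i
  | .f i, b => b = .o ∨ b = .v i
  | .g, b => b = .o ∨ b = .s
  | .t c, b => SBt (cs c) b

/-- supports of the dependencies of a constraint -/
def SAd (c : Fin r) (k : Fin 3) : Con m → XI m r → Prop
  | .one i, y => y = .p i ∨ y = .g ∨ y = .u i
  | .zero i, y => y = .p i ∨ y = .e .o
  | .add i j l, y =>
    if k = 0 then y = .t c ∨ y = .p i ∨ y = .e (.v j)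
    else if k = 1 then y = .t c ∨ y = .p j ∨ y = .e (.v i)
    else y = .t c ∨ y = .p l ∨ y = .u i ∨ y = .u j ∨ y = .u l
  | .mul i j l, y =>
    if k = 0 then y = .t c ∨ y = .f i ∨ y = .p j ∨ y = .u j ∨ y = .u l
    else y = .p l ∨ y = .p i ∨ y = .t c

/-- supports of the dependencies -/
def SA (cs : Fin r → Con m) : ZI m r → XI m r → Prop
  | .z i, y => y = .f i ∨ y = .g ∨ y = .u i
  | .d c k, y => SAd c k (cs c) y

/-- normal form of `t c` -/
def Wt (x : Fin m → ℂ) : Con m → DI m → ℂ
  | .one _, b => if b = .o then 1 else 0
  | .zero _, b => if b = .o then 1 else 0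
  | .add i j _, b => if b = .o then 1 else if b = .v i then x i else if b = .v j then x j else 0
  | .mul i j l, b => if b = .v i then 1 else if b = .v l then - x j else 0

/-- normal form of the vectors -/
def W (cs : Fin r → Con m) (x : Fin m → ℂ) : XI m r → DI m → ℂ
  | .e a, b => if b = a then 1 else 0
  | .u i, b => if b = .v i then 1 else if b = .s then -1 else 0
  | .p i, b => if b = .o then 1 else if b = .v i then x i else 0
  | .f i, b => if b = .o then 1 else if b = .v i then 1 else 0
  | .g, b => if b = .o then 1 else if b = .s then 1 else 0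
  | .t c, b => Wt x (cs c) b

/-- normal form of the dependencies of a constraint -/
def Gd (x : Fin m → ℂ) (c : Fin r) (k : Fin 3) : Con m → XI m r → ℂ
  | .one i, y => if y = .p i then 1 else if y = .g then -1 else if y = .u i then -1 else 0
  | .zero i, y => if y = .p i then 1 else if y = .e .o then -1 else 0
  | .add i j l, y =>
    if k = 0 then
      (if y = .t c then 1 else if y = .p i then -1 else if y = .e (.v j) then - x j else 0)
    else if k = 1 then
      (if y = .t c then 1 else if y = .p j then -1 else if y = .e (.v i) then - x i else 0)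
    else
      (if y = .t c then 1 else if y = .p l then -1 else if y = .u i then - x i else
        if y = .u j then - x j else if y = .u l then x l else 0)
  | .mul i j l, y =>
    if k = 0 then
      (if y = .t c then 1 else if y = .f i then -1 else if y = .p j then 1 else
        if y = .u j then - x j else if y = .u l then x j else 0)
    else (if y = .p l then 1 else if y = .p i then -1 else if y = .t c then x i else 0)

/-- normal form of the dependencies -/
def G (cs : Fin r → Con m) (x : Fin m → ℂ) : ZI m r → XI m r → ℂ
  | .z i, y => if y = .f i then 1 else if y = .g then -1 else if y = .u i then -1 else 0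
  | .d c k, y => Gd x c k (cs c) y

/-- the coordinate at which `t c` is normalised to `1` -/
def leadt : Con m → DI m
  | .one _ => .o
  | .zero _ => .o
  | .add _ _ _ => .o
  | .mul i _ _ => .v i

/-- the coordinate at which a vector is normalised to `1` -/
def leadB (cs : Fin r → Con m) : XI m r → DI m
  | .e a => a
  | .u i => .v i
  | .p _ => .o
  | .f _ => .o
  | .g => .o
  | .t c => leadt (cs c)

/-- the vector at which a dependency of a constraint is normalised to `1` -/
def leadd (c : Fin r) (k : Fin 3) : Con m → XI m r
  | .one i => .p i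
  | .zero i => .p i
  | .add _ _ _ => .t c
  | .mul _ _ l => if k = 0 then .t c else .p l

/-- the vector at which a dependency is normalised to `1` -/
def leadA (cs : Fin r → Con m) : ZI m r → XI m r
  | .z i => .f i
  | .d c k => leadd c k (cs c)

end Pd6ff58.U
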