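import Pool.Agent.Lib.Pd6U.EncD

/-!
# Module EncU: the normal form is unique

PROOF. For fixed `z` the sum over `y : XI m r` is supported on the `y` with `SA cs z y` (at most five,
pairwise distinct because of `hok`): `Finset.sum_subset` / `Finset.sum_insert`. With `x i := b (p i) (v i)`:
the values of `b` on `e`, `u`, `p`, `g` are known (normalisation and support).
`z i`, coordinates `o, s, v i`: `1 + a g = 0`, `a g - a u = 0`, `b (f i) (v i) + a u = 0`: so `a g = a u = -1`,
`b (f i) (v i) = 1`.
`one i`: `1 + a g = 0`, `a g - a u = 0`, `x i + a u = 0`. `zero i`: `1 + a (e o) = 0`, `x i = 0`.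
`add i j l`, `k = 0`: `o`: `1 + a (p i) = 0`; `v i`: `b (t c) (v i) + a (p i) x i = 0`;
`v j`: `b (t c) (v j) + a (e (v j)) = 0`. `k = 1`: same with `i, j` exchanged. `k = 2`: `o`: `1 + a (p l) = 0`,
`v i`: `x i + a (u i) = 0`, `v j`: `x j + a (u j) = 0`, `v l`: `a (p l) x l + a (u l) = 0`,
`s`: `a (u i) + a (u j) + a (u l) = 0`: so `x l = x i + x j`.
`mul i j l`, `k = 0`: `o`: `a (f i) + a (p j) = 0`, `v i`: `1 + a (f i) = 0`, `v j`: `a (p j) x j + a (u j) = 0`,
`v l`: `b (t c) (v l) + a (u l) = 0`, `s`: `a (u j) + a (u l) = 0`. `k ≠ 0`: `o`: `1 + a (p i) = 0`,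
`v i`: `a (p i) x i + a (t c) = 0`, `v l`: `x l + a (t c) b (t c) (v l) = 0`.
-/

open MvPolynomial

noncomputable section

namespace Pd6ff58.U

variable {m r : ℕ}

namespace EncUAux

theorem sum_supp {cs : Fin r → Con m} {a : ZI m r → XI m r → ℂ}
    {b : XI m r → DI m → ℂ} (ha : ∀ z y, ¬ SA cs z y → a z y = 0)
    (hab : ∀ z d, ∑ y, a z y * b y d = 0) (z : ZI m r) (S : Finset (XI m r))
    (hS : ∀ y, SA cs z y → y ∈ S) (d : DI m) : ∑ y ∈ S, a z y * b y d = 0 := by
  rw [← hab z d]
  apply Finset.sum_subset (Finset.subset_univ S)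
  intro y _ hy
  rw [ha z y (fun h => hy (hS y h)), zero_mul]

/-- the values of `b` which are known from the start -/
structure Known (b : XI m r → DI m → ℂ) (x : Fin m → ℂ) : Prop where
  be : ∀ c d, b (.e c) d = if d = c then 1 else 0
  bu : ∀ i d, b (.u i) d = if d = .v i then 1 else if d = .s then -1 else 0
  bp : ∀ i d, b (.p i) d = if d = .o then 1 else if d = .v i then x i else 0
  bg : ∀ d, b .g d = if d = .o then 1 else if d = .s then 1 else 0
  bf : ∀ i d, b (.f i) d = if d = .o then 1 else if d = .v i then b (.f i) (.v i) else 0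

theorem known {cs : Fin r → Con m} {b : XI m r → DI m → ℂ}
    (hb : ∀ y d, ¬ SB cs y d → b y d = 0) (hb1 : ∀ y, b y (leadB cs y) = 1)
    (hbu : ∀ i, b (.u i) .s = -1) (hbg : b .g .s = 1) :
    Known b (fun i => b (.p i) (.v i)) := by
  refine ⟨?_, ?_, ?_, ?_, ?_⟩
  · intro c d
    split_ifs with h
    · subst h; exact hb1 (.e d)
    · exact hb _ _ h
  · intro i d
    split_ifs with h h'
    · subst h; exact hb1 (.u i)
    · subst h'; exact hbu i
    · exact hb _ _ (by simp only [SB]; tauto)
  · intro i d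
    split_ifs with h h'
    · subst h; exact hb1 (.p i)
    · subst h'; rfl
    · exact hb _ _ (by simp only [SB]; tauto)
  · intro d
    split_ifs with h h'
    · subst h; exact hb1 .g
    · subst h'; exact hbg
    · exact hb _ _ (by simp only [SB]; tauto)
  · intro i d
    split_ifs with h h'
    · subst h; exact hb1 (.f i)
    · subst h'; rfl
    · exact hb _ _ (by simp only [SB]; tauto)

section

variable {cs : Fin r → Con m} {a : ZI m r → XI m r → ℂ} {b : XI m r → DI m → ℂ}
  {x : Fin m → ℂ}

theorem zrow (K : Known b x) (ha : ∀ z y, ¬ SA cs z y → a z y = 0)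
    (hab : ∀ z d, ∑ y, a z y * b y d = 0)
    (ha1 : ∀ z, a z (leadA cs z) = 1) (i : Fin m) :
    b (.f i) (.v i) = 1 ∧ ∀ y, a (.z i) y = G cs x (.z i) y := by
  have h1 : a (.z i) (.f i) = 1 := ha1 (.z i)
  have hs := sum_supp ha hab (.z i) {.f i, .g, .u i} (by
    intro y hy; simpa [SA] using hy)
  have e : ∀ d, a (.z i) (.f i) * b (.f i) d + (a (.z i) .g * b .g d +
      a (.z i) (.u i) * b (.u i) d) = 0 := by
    intro d
    have := hs d
    rwa [Finset.sum_insert (by simp), Finset.sum_insert (by simp), Finset.sum_singleton] at this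
  have eo := e .o
  have es := e .s
  have ev := e (.v i)
  rw [K.bf, K.bg, K.bu, h1] at eo es
  rw [K.bg, K.bu, h1] at ev
  simp at eo es ev
  have g1 : a (.z i) .g = -1 := by linear_combination eo
  have u1 : a (.z i) (.u i) = -1 := by linear_combination g1 - es
  refine ⟨by linear_combination ev - u1, ?_⟩
  intro y
  simp only [G]
  split_ifs with c1 c2 c3
  · rw [c1, h1]
  · rw [c2, g1]
  · rw [c3, u1]
  · exact ha _ _ (by simp only [SA]; tauto)

/-- the claim for one constraint -/
def Row (cs : Fin r → Con m) (a : ZI m r → XI m r → ℂ) (b : XI m r → DI m → ℂ)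
    (x : Fin m → ℂ) (c : Fin r) : Prop :=
  (∀ d, b (.t c) d = Wt x (cs c) d) ∧ (∀ k y, a (.d c k) y = Gd x c k (cs c) y) ∧
    (cs c).Sat x

theorem row_one (K : Known b x) (ha : ∀ z y, ¬ SA cs z y → a z y = 0)
    (hb : ∀ y d, ¬ SB cs y d → b y d = 0)
    (hab : ∀ z d, ∑ y, a z y * b y d = 0)
    (ha1 : ∀ z, a z (leadA cs z) = 1) (hb1 : ∀ y, b y (leadB cs y) = 1)
    {c : Fin r} {i : Fin m} (h : cs c = .one i) : Row cs a b x c := by
  have key : ∀ k, a (.d c k) (.p i) = 1 ∧ a (.d c k) .g = -1 ∧ a (.d c k) (.u i) = -1 ∧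
      x i = 1 := by
    intro k
    have h1 : a (.d c k) (.p i) = 1 := by
      have := ha1 (.d c k)
      simpa only [leadA, h, leadd] using this
    have hs := sum_supp ha hab (.d c k) {.p i, .g, .u i} (by
      intro y hy; simpa [SA, h, SAd] using hy)
    have e : ∀ d, a (.d c k) (.p i) * b (.p i) d + (a (.d c k) .g * b .g d +
        a (.d c k) (.u i) * b (.u i) d) = 0 := by
      intro d
      have := hs d
      rwa [Finset.sum_insert (by simp), Finset.sum_insert (by simp),
        Finset.sum_singleton] at this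
    have eo := e .o
    have es := e .s
    have ev := e (.v i)
    rw [K.bp, K.bg, K.bu, h1] at eo es ev
    simp at eo es ev
    have g1 : a (.d c k) .g = -1 := by linear_combination eo
    have u1 : a (.d c k) (.u i) = -1 := by linear_combination g1 - es
    exact ⟨h1, g1, u1, by linear_combination ev - u1⟩
  refine ⟨?_, ?_, ?_⟩
  · intro d
    rw [h]
    simp only [Wt]
    split_ifs with h'
    · subst h'
      have := hb1 (.t c)
      simpa only [leadB, h, leadt] using this
    · exact hb _ _ (by simp only [SB, h, SBt]; exact h')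
  · intro k y
    obtain ⟨h1, g1, u1, -⟩ := key k
    rw [h]
    simp only [Gd]
    split_ifs with c1 c2 c3
    · rw [c1, h1]
    · rw [c2, g1]
    · rw [c3, u1]
    · exact ha _ _ (by simp only [SA, h, SAd]; tauto)
  · rw [h]
    exact (key 0).2.2.2

theorem row_zero (K : Known b x) (ha : ∀ z y, ¬ SA cs z y → a z y = 0)
    (hb : ∀ y d, ¬ SB cs y d → b y d = 0)
    (hab : ∀ z d, ∑ y, a z y * b y d = 0)
    (ha1 : ∀ z, a z (leadA cs z) = 1) (hb1 : ∀ y, b y (leadB cs y) = 1)
    {c : Fin r} {i : Fin m} (h : cs c = .zero i) : Row cs a b x c := by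
  have key : ∀ k, a (.d c k) (.p i) = 1 ∧ a (.d c k) (.e .o) = -1 ∧ x i = 0 := by
    intro k
    have h1 : a (.d c k) (.p i) = 1 := by
      have := ha1 (.d c k)
      simpa only [leadA, h, leadd] using this
    have hs := sum_supp ha hab (.d c k) {.p i, .e .o} (by
      intro y hy; simpa [SA, h, SAd] using hy)
    have e : ∀ d, a (.d c k) (.p i) * b (.p i) d + a (.d c k) (.e .o) * b (.e .o) d = 0 := by
      intro d
      have := hs d
      rwa [Finset.sum_insert (by simp), Finset.sum_singleton] at this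
    have eo := e .o
    have ev := e (.v i)
    rw [K.bp, K.be, h1] at eo ev
    simp at eo ev
    exact ⟨h1, by linear_combination eo, ev⟩
  refine ⟨?_, ?_, ?_⟩
  · intro d
    rw [h]
    simp only [Wt]
    split_ifs with h'
    · subst h'
      have := hb1 (.t c)
      simpa only [leadB, h, leadt] using this
    · exact hb _ _ (by simp only [SB, h, SBt]; exact h')
  · intro k y
    obtain ⟨h1, g1, -⟩ := key k
    rw [h]
    simp only [Gd]
    split_ifs with c1 c2
    · rw [c1, h1]
    · rw [c2, g1]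
    · exact ha _ _ (by simp only [SA, h, SAd]; tauto)
  · rw [h]
    exact (key 0).2.2

theorem row_add (K : Known b x) (ha : ∀ z y, ¬ SA cs z y → a z y = 0)
    (hb : ∀ y d, ¬ SB cs y d → b y d = 0)
    (hab : ∀ z d, ∑ y, a z y * b y d = 0)
    (ha1 : ∀ z, a z (leadA cs z) = 1) (hb1 : ∀ y, b y (leadB cs y) = 1)
    {c : Fin r} {i j l : Fin m} (h : cs c = .add i j l) (hij : i ≠ j) (hil : i ≠ l)
    (hjl : j ≠ l) : Row cs a b x c := by
  have bo : b (.t c) .o = 1 := by
    have := hb1 (.t c)
    simpa only [leadB, h, leadt] using this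
  have b0 : ∀ d, d ≠ .o → d ≠ .v i → d ≠ .v j → b (.t c) d = 0 := by
    intro d h1 h2 h3
    exact hb _ _ (by simp only [SB, h, SBt]; tauto)
  have h1 : ∀ k, a (.d c k) (.t c) = 1 := by
    intro k
    have := ha1 (.d c k)
    simpa only [leadA, h, leadd] using this
  -- k = 0
  have hs0 := sum_supp ha hab (.d c 0) {.t c, .p i, .e (.v j)} (by
    intro y hy; simpa [SA, h, SAd] using hy)
  have e0 : ∀ d, a (.d c 0) (.t c) * b (.t c) d + (a (.d c 0) (.p i) * b (.p i) d +
      a (.d c 0) (.e (.v j)) * b (.e (.v j)) d) = 0 := by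
    intro d
    have := hs0 d
    rwa [Finset.sum_insert (by simp), Finset.sum_insert (by simp),
      Finset.sum_singleton] at this
  have e0o := e0 .o
  have e0i := e0 (.v i)
  have e0j := e0 (.v j)
  rw [K.bp, K.be, h1] at e0o e0i e0j
  rw [bo] at e0o
  simp [hij, hij.symm] at e0o e0i e0j
  have p0 : a (.d c 0) (.p i) = -1 := by linear_combination e0o
  have bi : b (.t c) (.v i) = x i := by rw [p0] at e0i; linear_combination e0i
  -- k = 1
  have hs1 := sum_supp ha hab (.d c 1) {.t c, .p j, .e (.v i)} (by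
    intro y hy; simpa [SA, h, SAd] using hy)
  have e1 : ∀ d, a (.d c 1) (.t c) * b (.t c) d + (a (.d c 1) (.p j) * b (.p j) d +
      a (.d c 1) (.e (.v i)) * b (.e (.v i)) d) = 0 := by
    intro d
    have := hs1 d
    rwa [Finset.sum_insert (by simp), Finset.sum_insert (by simp),
      Finset.sum_singleton] at this
  have e1o := e1 .o
  have e1i := e1 (.v i)
  have e1j := e1 (.v j)
  rw [K.bp, K.be, h1] at e1o e1i e1j
  rw [bo] at e1o
  simp [hij, hij.symm] at e1o e1i e1j
  have p1 : a (.d c 1) (.p j) = -1 := by linear_combination e1o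
  have bj : b (.t c) (.v j) = x j := by rw [p1] at e1j; linear_combination e1j
  have q0 : a (.d c 0) (.e (.v j)) = - x j := by rw [bj] at e0j; linear_combination e0j
  have q1 : a (.d c 1) (.e (.v i)) = - x i := by rw [bi] at e1i; linear_combination e1i
  -- k = 2
  have hs2 := sum_supp ha hab (.d c 2) {.t c, .p l, .u i, .u j, .u l} (by
    intro y hy; simpa [SA, h, SAd] using hy)
  have e2 : ∀ d, a (.d c 2) (.t c) * b (.t c) d + (a (.d c 2) (.p l) * b (.p l) d +
      (a (.d c 2) (.u i) * b (.u i) d + (a (.d c 2) (.u j) * b (.u j) d +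
        a (.d c 2) (.u l) * b (.u l) d))) = 0 := by
    intro d
    have := hs2 d
    rwa [Finset.sum_insert (by simp), Finset.sum_insert (by simp),
      Finset.sum_insert (by simp [hij, hil]), Finset.sum_insert (by simp [hjl]),
      Finset.sum_singleton] at this
  have e2o := e2 .o
  have e2s := e2 .s
  have e2i := e2 (.v i)
  have e2j := e2 (.v j)
  have e2l := e2 (.v l)
  rw [K.bp, K.bu, K.bu, K.bu, h1] at e2o e2s e2i e2j e2l
  rw [bo] at e2o
  rw [b0 .s (by simp) (by simp) (by simp)] at e2s
  rw [bi] at e2i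
  rw [bj] at e2j
  rw [b0 (.v l) (by simp) (by simp [hil.symm]) (by simp [hjl.symm])] at e2l
  simp [hij, hij.symm, hil, hil.symm, hjl, hjl.symm] at e2o e2s e2i e2j e2l
  have p2 : a (.d c 2) (.p l) = -1 := by linear_combination e2o
  have u2i : a (.d c 2) (.u i) = - x i := by linear_combination e2i
  have u2j : a (.d c 2) (.u j) = - x j := by linear_combination e2j
  have u2l : a (.d c 2) (.u l) = x l := by rw [p2] at e2l; linear_combination e2l
  have hx : x l = x i + x j := by
    rw [u2i, u2j, u2l] at e2s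
    linear_combination -e2s
  refine ⟨?_, ?_, ?_⟩
  · intro d
    rw [h]
    simp only [Wt]
    split_ifs with c1 c2 c3
    · rw [c1, bo]
    · rw [c2, bi]
    · rw [c3, bj]
    · exact b0 d c1 c2 c3
  · intro k y
    rw [h]
    have hk : k = 0 ∨ k = 1 ∨ k = 2 := by
      fin_cases k <;> simp
    rcases hk with rfl | rfl | rfl
    · simp only [Gd, if_true]
      split_ifs with c1 c2 c3
      · rw [c1, h1]
      · rw [c2, p0]
      · rw [c3, q0]
      · exact ha _ _ (by simp only [SA, h, SAd, if_true]; tauto)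
    · have n10 : ¬ ((1 : Fin 3) = 0) := by decide
      simp only [Gd, n10, if_true, if_false]
      split_ifs with c1 c2 c3
      · rw [c1, h1]
      · rw [c2, p1]
      · rw [c3, q1]
      · exact ha _ _ (by simp only [SA, h, SAd, n10, if_true, if_false]; tauto)
    · have n20 : ¬ ((2 : Fin 3) = 0) := by decide
      have n21 : ¬ ((2 : Fin 3) = 1) := by decide
      simp only [Gd, n20, n21, if_false]
      split_ifs with c1 c2 c3 c4 c5
      · rw [c1, h1]
      · rw [c2, p2]
      · rw [c3, u2i]
      · rw [c4, u2j]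
      · rw [c5, u2l]
      · exact ha _ _ (by simp only [SA, h, SAd, n20, n21, if_false]; tauto)
  · rw [h]
    exact hx

theorem row_mul (K : Known b x) (hf : ∀ i, b (.f i) (.v i) = 1)
    (ha : ∀ z y, ¬ SA cs z y → a z y = 0)
    (hb : ∀ y d, ¬ SB cs y d → b y d = 0)
    (hab : ∀ z d, ∑ y, a z y * b y d = 0)
    (ha1 : ∀ z, a z (leadA cs z) = 1) (hb1 : ∀ y, b y (leadB cs y) = 1)
    {c : Fin r} {i j l : Fin m} (h : cs c = .mul i j l) (hij : i ≠ j) (hil : i ≠ l)
    (hjl : j ≠ l) : Row cs a b x c := by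
  have bi : b (.t c) (.v i) = 1 := by
    have := hb1 (.t c)
    simpa only [leadB, h, leadt] using this
  have b0 : ∀ d, d ≠ .v i → d ≠ .v l → b (.t c) d = 0 := by
    intro d h1 h2
    exact hb _ _ (by simp only [SB, h, SBt]; tauto)
  -- k = 0
  have h1 : a (.d c 0) (.t c) = 1 := by
    have := ha1 (.d c 0)
    simpa only [leadA, h, leadd, if_true] using this
  have hs0 := sum_supp ha hab (.d c 0) {.t c, .f i, .p j, .u j, .u l} (by
    intro y hy; simpa [SA, h, SAd] using hy)
  have e0 : ∀ d, a (.d c 0) (.t c) * b (.t c) d + (a (.d c 0) (.f i) * b (.f i) d +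
      (a (.d c 0) (.p j) * b (.p j) d + (a (.d c 0) (.u j) * b (.u j) d +
        a (.d c 0) (.u l) * b (.u l) d))) = 0 := by
    intro d
    have := hs0 d
    rwa [Finset.sum_insert (by simp), Finset.sum_insert (by simp),
      Finset.sum_insert (by simp), Finset.sum_insert (by simp [hjl]),
      Finset.sum_singleton] at this
  have eo := e0 .o
  have es := e0 .s
  have ei := e0 (.v i)
  have ej := e0 (.v j)
  have el := e0 (.v l)
  rw [K.bf, K.bp, K.bu, K.bu, h1, hf] at eo es ei ej el
  rw [b0 .o (by simp) (by simp)] at eo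
  rw [b0 .s (by simp) (by simp)] at es
  rw [bi] at ei
  rw [b0 (.v j) (by simp [hij.symm]) (by simp [hjl])] at ej
  simp [hij, hij.symm, hil, hil.symm, hjl, hjl.symm] at eo es ei ej el
  have f0 : a (.d c 0) (.f i) = -1 := by linear_combination ei
  have p0 : a (.d c 0) (.p j) = 1 := by linear_combination eo - f0
  have u0j : a (.d c 0) (.u j) = - x j := by rw [p0] at ej; linear_combination ej
  have u0l : a (.d c 0) (.u l) = x j := by linear_combination -es - u0j
  have bl : b (.t c) (.v l) = - x j := by linear_combination el - u0l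
  -- k ≠ 0
  have key : ∀ k : Fin 3, k ≠ 0 → a (.d c k) (.p l) = 1 ∧ a (.d c k) (.p i) = -1 ∧
      a (.d c k) (.t c) = x i ∧ x l = x i * x j := by
    intro k hk
    have h1 : a (.d c k) (.p l) = 1 := by
      have := ha1 (.d c k)
      simpa only [leadA, h, leadd, hk, if_false] using this
    have hs := sum_supp ha hab (.d c k) {.p l, .p i, .t c} (by
      intro y hy; simpa [SA, h, SAd, hk] using hy)
    have e : ∀ d, a (.d c k) (.p l) * b (.p l) d + (a (.d c k) (.p i) * b (.p i) d +
        a (.d c k) (.t c) * b (.t c) d) = 0 := by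
      intro d
      have := hs d
      rwa [Finset.sum_insert (by simp [hil.symm]), Finset.sum_insert (by simp),
        Finset.sum_singleton] at this
    have eo := e .o
    have ei := e (.v i)
    have el := e (.v l)
    rw [K.bp, K.bp, h1] at eo ei el
    rw [b0 .o (by simp) (by simp)] at eo
    rw [bi] at ei
    rw [bl] at el
    simp [hil, hil.symm] at eo ei el
    have pi1 : a (.d c k) (.p i) = -1 := by linear_combination eo
    have t1 : a (.d c k) (.t c) = x i := by rw [pi1] at ei; linear_combination ei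
    refine ⟨h1, pi1, t1, ?_⟩
    rw [t1] at el
    linear_combination el
  refine ⟨?_, ?_, ?_⟩
  · intro d
    rw [h]
    simp only [Wt]
    split_ifs with c1 c2
    · rw [c1, bi]
    · rw [c2, bl]
    · exact b0 d c1 c2
  · intro k y
    rw [h]
    by_cases hk : k = 0
    · subst hk
      simp only [Gd, if_true]
      split_ifs with c1 c2 c3 c4 c5
      · rw [c1, h1]
      · rw [c2, f0]
      · rw [c3, p0]
      · rw [c4, u0j]
      · rw [c5, u0l]
      · exact ha _ _ (by simp only [SA, h, SAd, if_true]; tauto)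
    · obtain ⟨k1, k2, k3, -⟩ := key k hk
      simp only [Gd, hk, if_false]
      split_ifs with c1 c2 c3
      · rw [c1, k1]
      · rw [c2, k2]
      · rw [c3, k3]
      · exact ha _ _ (by simp only [SA, h, SAd, hk, if_false]; tauto)
  · rw [h]
    exact (key 1 (by decide)).2.2.2

end

end EncUAux

open EncUAux in
theorem norm_unique {cs : Fin r → Con m} (hok : ∀ c, (cs c).Ok) {a : ZI m r → XI m r → ℂ}
    {b : XI m r → DI m → ℂ} (ha : ∀ z y, ¬ SA cs z y → a z y = 0)
    (hb : ∀ y d, ¬ SB cs y d → b y d = 0) (hab : ∀ z d, ∑ y, a z y * b y d = 0)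
    (ha1 : ∀ z, a z (leadA cs z) = 1) (hb1 : ∀ y, b y (leadB cs y) = 1)
    (hbu : ∀ i, b (.u i) .s = -1) (hbg : b .g .s = 1) :
    (∀ y d, b y d = W cs (fun i => b (.p i) (.v i)) y d) ∧
      (∀ z y, a z y = G cs (fun i => b (.p i) (.v i)) z y) ∧
      (fun i => b (.p i) (.v i)) ∈ Sol cs := by
  have K := known hb hb1 hbu hbg
  have Z := fun i => zrow K ha hab ha1 i
  have R : ∀ c, Row cs a b (fun i => b (.p i) (.v i)) c := by
    intro c
    have ok := hok c
    rcases h : cs c with i | i | ⟨i, j, l⟩ | ⟨i, j, l⟩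
    · exact row_one K ha hb hab ha1 hb1 h
    · exact row_zero K ha hb hab ha1 hb1 h
    · rw [h] at ok
      exact row_add K ha hb hab ha1 hb1 h ok.1 ok.2.1 ok.2.2
    · rw [h] at ok
      exact row_mul K (fun i => (Z i).1) ha hb hab ha1 hb1 h ok.1 ok.2.1 ok.2.2
  refine ⟨?_, ?_, fun c => (R c).2.2⟩
  · intro y d
    rcases y with e | i | i | i | _ | c
    · exact K.be e d
    · exact K.bu i d
    · exact K.bp i d
    · rw [K.bf i d, (Z i).1]
      rfl
    · exact K.bg d
    · exact (R c).1 d
  · intro z y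
    rcases z with i | ⟨c, k⟩
    · exact (Z i).2 y
    · exact (R c).2.1 k y

end Pd6ff58.U
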