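import Pool.Agent.Lib.Pd6U.Col

/-!
# Module Occ: copies of the variables, so that the constraints are properly coloured by 3 colours

CONSTRUCTION. New variables: `(i, t)`, `i : Fin m`, `t : Fin (2 r + 1)` (copy of `x_i` in the column `t`) and
`z (i, t)`, `i : Fin m`, `t : Fin (2 r)` (zeros). New constraints: for `c : Fin r` the constraint `cs c` on
the copies `(·, 2 c)`; for `i`, `t : Fin (2 r)`: `zero (z (i, t))` and
`add (i, t) (z (i, t)) (i, t + 1)` (so `x (i, t + 1) = x (i, t)`). Colours: `κ (i, 2 c)` = role of `i` in `cs c`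
(first index `0`, second index `1`, third index `2`, otherwise `0`), `κ (i, 2 r) = 0`,
`κ (i, 2 c + 1) = third (κ (i, 2 c)) (κ (i, 2 c + 2))` where `third a b ≠ a, b`,
`κ (z (i, t)) = third (κ (i, t)) (κ (i, t + 1))`. `ι i = (i, 0)`, `π (i, t) = some i`, `π (z ..) = none`. Work on the
structured types `V = Fin m × Fin (2r+1) ⊕ Fin m × Fin (2r)` and
`C = Fin r ⊕ (Fin m × Fin (2r)) ⊕ (Fin m × Fin (2r))` and transport by equivalences
`V ≃ Fin m'`, `C ≃ Fin r'` (`Fintype.equivFin`); only `cs' : Fin r' → Con m'` has to be defined (map the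
indices of a constraint by a function).
-/

noncomputable section

namespace Pd6ff58.U

/-- extension by zero -/
def ext0 {m m' : ℕ} (π : Fin m' → Option (Fin m)) (x : Fin m → ℂ) : Fin m' → ℂ :=
  fun j => (π j).elim 0 x

namespace OccAux

/-- change of the indices -/
def cmap {m m' : ℕ} (f : Fin m → Fin m') : Con m → Con m'
  | .one i => .one (f i)
  | .zero i => .zero (f i)
  | .add i j l => .add (f i) (f j) (f l)
  | .mul i j l => .mul (f i) (f j) (f l)

theorem sat_cmap {m m' : ℕ} (f : Fin m → Fin m') (x : Fin m' → ℂ) (q : Con m) :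
    (cmap f q).Sat x ↔ q.Sat (fun i => x (f i)) := by
  rcases q with i | i | ⟨i, j, l⟩ | ⟨i, j, l⟩ <;> exact Iff.rfl

/-- the role of a variable in a constraint -/
def role {m : ℕ} : Con m → Fin m → Fin 3
  | .one _, _ => 0
  | .zero _, _ => 0
  | .add i j _, a => if a = i then 0 else if a = j then 1 else 2
  | .mul i j _, a => if a = i then 0 else if a = j then 1 else 2

/-- a colour different from two given ones -/
def third (a b : Fin 3) : Fin 3 :=
  if a ≠ 0 ∧ b ≠ 0 then 0 else if a ≠ 1 ∧ b ≠ 1 then 1 else 2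

theorem third_ne : ∀ a b : Fin 3, third a b ≠ a ∧ third a b ≠ b := by decide

theorem proper_cmap {m m' : ℕ} (f : Fin m → Fin m') (κ : Fin m' → Fin 3) (q : Con m) (hq : q.Ok)
    (h : ∀ i, κ (f i) = role q i) : (cmap f q).Proper κ := by
  rcases q with i | i | ⟨i, j, l⟩ | ⟨i, j, l⟩
  · trivial
  · trivial
  · obtain ⟨h1, h2, h3⟩ := hq
    have e1 : role (.add i j l) i = 0 := by simp [role]
    have e2 : role (.add i j l) j = 1 := by simp [role, Ne.symm h1]
    have e3 : role (.add i j l) l = 2 := by simp [role, Ne.symm h2, Ne.symm h3]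
    change κ (f i) ≠ κ (f j) ∧ κ (f i) ≠ κ (f l) ∧ κ (f j) ≠ κ (f l)
    rw [h, h, h, e1, e2, e3]
    decide
  · obtain ⟨h1, h2, h3⟩ := hq
    have e1 : role (.mul i j l) i = 0 := by simp [role]
    have e2 : role (.mul i j l) j = 1 := by simp [role, Ne.symm h1]
    have e3 : role (.mul i j l) l = 2 := by simp [role, Ne.symm h2, Ne.symm h3]
    change κ (f i) ≠ κ (f j) ∧ κ (f i) ≠ κ (f l) ∧ κ (f j) ≠ κ (f l)
    rw [h, h, h, e1, e2, e3]
    decide

section

variable {m r : ℕ} (cs : Fin r → Con m)

/-- colours of the copies in the even columns -/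
def colE (i : Fin m) (c : ℕ) : Fin 3 := if h : c < r then role (cs ⟨c, h⟩) i else 0

/-- colours of the copies -/
def col (i : Fin m) (t : ℕ) : Fin 3 :=
  if t % 2 = 0 then colE cs i (t / 2) else third (colE cs i (t / 2)) (colE cs i (t / 2 + 1))

theorem col_ne (i : Fin m) (t : ℕ) : col cs i t ≠ col cs i (t + 1) := by
  unfold col
  by_cases h : t % 2 = 0
  · have h1 : ¬ (t + 1) % 2 = 0 := by omega
    have h2 : (t + 1) / 2 = t / 2 := by omega
    rw [if_pos h, if_neg h1, h2]
    exact (third_ne _ _).1.symm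
  · have h1 : (t + 1) % 2 = 0 := by omega
    have h2 : (t + 1) / 2 = t / 2 + 1 := by omega
    rw [if_neg h, if_pos h1, h2]
    exact (third_ne _ _).2

/-- the new variables -/
abbrev VV (m r : ℕ) : Type := (Fin m × Fin (2 * r + 1)) ⊕ (Fin m × Fin (2 * r))

/-- the new constraints -/
abbrev CC (m r : ℕ) : Type := Fin r ⊕ ((Fin m × Fin (2 * r)) ⊕ (Fin m × Fin (2 * r)))

/-- the colours of the new variables -/
def κ0 : VV m r → Fin 3
  | .inl q => col cs q.1 q.2
  | .inr q => third (col cs q.1 q.2) (col cs q.1 (q.2 + 1))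

/-- the column of a constraint -/
def cc (c : Fin r) : Fin (2 * r + 1) := ⟨2 * c, by have := c.2; omega⟩

/-- the new constraints, for a numbering of the new variables -/
def cs0 {m' : ℕ} (E : VV m r → Fin m') : CC m r → Con m'
  | .inl c => cmap (fun i => E (.inl (i, cc c))) (cs c)
  | .inr (.inl q) => .zero (E (.inr q))
  | .inr (.inr q) => .add (E (.inl (q.1, q.2.castSucc))) (E (.inr q)) (E (.inl (q.1, q.2.succ)))

/-- the variable of which a new variable is a copy -/
def π0 : VV m r → Option (Fin m)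
  | .inl q => some q.1
  | .inr _ => none

end

end OccAux

open OccAux

theorem exists_proper {m r : ℕ} (cs : Fin r → Con m) (hok : ∀ c, (cs c).Ok) :
    ∃ (m' r' : ℕ) (cs' : Fin r' → Con m') (κ : Fin m' → Fin 3) (ι : Fin m → Fin m')
      (π : Fin m' → Option (Fin m)), (∀ c, (cs' c).Proper κ) ∧
      (∀ x ∈ Sol cs, ext0 π x ∈ Sol cs' ∧ ∀ i, ext0 π x (ι i) = x i) ∧
      (∀ x' ∈ Sol cs', (fun i => x' (ι i)) ∈ Sol cs ∧ ext0 π (fun i => x' (ι i)) = x') := by
  let E : VV m r ≃ Fin (Fintype.card (VV m r)) := Fintype.equivFin _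
  let F : CC m r ≃ Fin (Fintype.card (CC m r)) := Fintype.equivFin _
  refine ⟨_, _, fun q => cs0 cs E (F.symm q), fun v => κ0 cs (E.symm v),
    fun i => E (.inl (i, 0)), fun v => π0 (E.symm v), ?_, ?_, ?_⟩
  · intro q
    change (cs0 cs E (F.symm q)).Proper _
    rcases F.symm q with c | q | q
    · refine proper_cmap _ _ _ (hok c) fun i => ?_
      rw [Equiv.symm_apply_apply]
      change col cs i (2 * (c : ℕ)) = _
      have h1 : 2 * (c : ℕ) % 2 = 0 := by omega
      have h2 : 2 * (c : ℕ) / 2 = c := by omega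
      rw [col, if_pos h1, h2, colE, dif_pos c.2]
    · trivial
    · change κ0 cs (E.symm (E _)) ≠ κ0 cs (E.symm (E _)) ∧ κ0 cs (E.symm (E _)) ≠
        κ0 cs (E.symm (E _)) ∧ κ0 cs (E.symm (E _)) ≠ κ0 cs (E.symm (E _))
      simp only [Equiv.symm_apply_apply]
      have h := third_ne (col cs q.1 q.2) (col cs q.1 (q.2 + 1))
      exact ⟨h.1.symm, col_ne cs q.1 q.2, h.2⟩
  · intro x hx
    refine ⟨fun q => ?_, fun i => ?_⟩
    · change (cs0 cs E (F.symm q)).Sat _
      rcases F.symm q with c | q | q
      · refine (sat_cmap _ _ _).2 ?_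
        have e1 : (fun i => ext0 (fun v => π0 (E.symm v)) x (E (.inl (i, cc c)))) = x := by
          funext i
          simp [ext0, π0]
        rw [e1]
        exact hx c
      · change ext0 _ x (E (.inr q)) = 0
        simp [ext0, π0]
      · change ext0 _ x (E _) = ext0 _ x (E _) + ext0 _ x (E _)
        simp [ext0, π0]
    · simp [ext0, π0]
  · intro x' hx'
    have hz : ∀ q, x' (E (.inr q)) = 0 := fun q => by
      have h := hx' (F (.inr (.inl q)))
      change (cs0 cs E (F.symm (F (.inr (.inl q))))).Sat x' at h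
      rw [Equiv.symm_apply_apply] at h
      exact h
    have hs : ∀ i (t : Fin (2 * r)), x' (E (.inl (i, t.succ))) = x' (E (.inl (i, t.castSucc))) :=
      fun i t => by
        have h := hx' (F (.inr (.inr (i, t))))
        change (cs0 cs E (F.symm (F (.inr (.inr (i, t)))))).Sat x' at h
        rw [Equiv.symm_apply_apply] at h
        change x' (E (.inl (i, t.succ))) = x' (E (.inl (i, t.castSucc))) + x' (E (.inr (i, t))) at h
        rw [h, hz, add_zero]
    have hc : ∀ i (t : Fin (2 * r + 1)), x' (E (.inl (i, t))) = x' (E (.inl (i, 0))) := by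
      intro i t
      induction t using Fin.induction with
      | zero => rfl
      | succ t ih => rw [hs, ih]
    refine ⟨fun c => ?_, funext fun v => ?_⟩
    · have h := hx' (F (.inl c))
      change (cs0 cs E (F.symm (F (.inl c)))).Sat x' at h
      rw [Equiv.symm_apply_apply] at h
      have h1 := (sat_cmap _ _ _).1 h
      have e1 : (fun i => x' (E (.inl (i, cc c)))) = fun i => x' (E (.inl (i, 0))) :=
        funext fun i => hc i _
      rw [e1] at h1
      exact h1
    · obtain ⟨q, rfl⟩ := E.surjective v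
      rcases q with q | q
      · simp only [ext0, Equiv.symm_apply_apply, π0, Option.elim]
        exact (hc q.1 q.2).symm
      · simp only [ext0, Equiv.symm_apply_apply, π0, Option.elim]
        exact (hz q).symm

end Pd6ff58.U
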