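import Pool.Agent.Lib.Pd6U.Def

/-!
# Module Prog: systems of integer polynomials as systems of elementary constraints
-/

open MvPolynomial

noncomputable section

namespace Pd6ff58.U

/-- the common zeros in `ℂ^k` of a set of polynomials with integer coefficients -/
def zeros {k : ℕ} (𝒮 : Set (MvPolynomial (Fin k) ℤ)) : Set (Fin k → ℂ) :=
  {y | ∀ f ∈ 𝒮, aeval y f = 0}

namespace ProgAux

/-- elementary constraints with indices in `ℕ` -/
inductive NC : Type
  | one (i : ℕ) : NC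
  | zero (i : ℕ) : NC
  | add (i j l : ℕ) : NC
  | mul (i j l : ℕ) : NC

/-- the indices are distinct -/
def NC.Ok : NC → Prop
  | .one _ => True
  | .zero _ => True
  | .add i j l => i ≠ j ∧ i ≠ l ∧ j ≠ l
  | .mul i j l => i ≠ j ∧ i ≠ l ∧ j ≠ l

/-- `x` satisfies the constraint -/
def NC.Sat (x : ℕ → ℂ) : NC → Prop
  | .one i => x i = 1
  | .zero i => x i = 0
  | .add i j l => x l = x i + x j
  | .mul i j l => x l = x i * x j

/-- the indices are less than `m` -/
def NC.Lt (m : ℕ) : NC → Prop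
  | .one i => i < m
  | .zero i => i < m
  | .add i j l => i < m ∧ j < m ∧ l < m
  | .mul i j l => i < m ∧ j < m ∧ l < m

theorem NC.Lt.mono {m m' : ℕ} (h : m ≤ m') : ∀ {c : NC}, c.Lt m → c.Lt m'
  | .one _, hc => lt_of_lt_of_le hc h
  | .zero _, hc => lt_of_lt_of_le hc h
  | .add _ _ _, hc => ⟨lt_of_lt_of_le hc.1 h, lt_of_lt_of_le hc.2.1 h, lt_of_lt_of_le hc.2.2 h⟩
  | .mul _ _ _, hc => ⟨lt_of_lt_of_le hc.1 h, lt_of_lt_of_le hc.2.1 h, lt_of_lt_of_le hc.2.2 h⟩

/-- the same constraint with indices in `Fin m` -/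
def NC.con {m : ℕ} : (c : NC) → c.Lt m → Con m
  | .one i, h => .one ⟨i, h⟩
  | .zero i, h => .zero ⟨i, h⟩
  | .add i j l, h => .add ⟨i, h.1⟩ ⟨j, h.2.1⟩ ⟨l, h.2.2⟩
  | .mul i j l, h => .mul ⟨i, h.1⟩ ⟨j, h.2.1⟩ ⟨l, h.2.2⟩

theorem con_ok {m : ℕ} : ∀ (c : NC) (h : c.Lt m), c.Ok → (c.con h).Ok
  | .one _, _, _ => trivial
  | .zero _, _, _ => trivial
  | .add _ _ _, _, h => ⟨fun e => h.1 (congrArg Fin.val e), fun e => h.2.1 (congrArg Fin.val e),
      fun e => h.2.2 (congrArg Fin.val e)⟩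
  | .mul _ _ _, _, h => ⟨fun e => h.1 (congrArg Fin.val e), fun e => h.2.1 (congrArg Fin.val e),
      fun e => h.2.2 (congrArg Fin.val e)⟩

theorem con_sat {m : ℕ} (x : ℕ → ℂ) : ∀ (c : NC) (h : c.Lt m),
    (c.con h).Sat (fun j : Fin m => x j) ↔ c.Sat x
  | .one _, _ => Iff.rfl
  | .zero _, _ => Iff.rfl
  | .add _ _ _, _ => Iff.rfl
  | .mul _ _ _, _ => Iff.rfl

variable {k : ℕ}

/-- the constraints of the list determine the variables `m ≤ j < m'` as the polynomials `h j` in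
the first `k` variables -/
structure Pg (k m m' : ℕ) (cs : List NC) (h : ℕ → MvPolynomial (Fin k) ℂ) : Prop where
  ok : ∀ c ∈ cs, c.Ok ∧ c.Lt m'
  iff : ∀ x : ℕ → ℂ, (∀ c ∈ cs, c.Sat x) ↔
    ∀ j, m ≤ j → j < m' → x j = eval (fun a : Fin k => x a) (h j)

theorem Pg.nil (m : ℕ) (h : ℕ → MvPolynomial (Fin k) ℂ) : Pg k m m [] h :=
  ⟨fun c hc => absurd hc (List.not_mem_nil), fun x => ⟨fun _ j h1 h2 => absurd h2 (by omega),
    fun _ c hc => absurd hc (List.not_mem_nil)⟩⟩

theorem Pg.comp {m m₁ m₂ : ℕ} {c₁ c₂ : List NC} {h₁ h₂ : ℕ → MvPolynomial (Fin k) ℂ}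
    (p₁ : Pg k m m₁ c₁ h₁) (p₂ : Pg k m₁ m₂ c₂ h₂) (hm : m ≤ m₁) (hm' : m₁ ≤ m₂) :
    Pg k m m₂ (c₁ ++ c₂) (fun t => if t < m₁ then h₁ t else h₂ t) := by
  refine ⟨fun c hc => ?_, fun x => ?_⟩
  · rcases List.mem_append.1 hc with hc | hc
    · exact ⟨(p₁.ok c hc).1, (p₁.ok c hc).2.mono hm'⟩
    · exact p₂.ok c hc
  · have e1 : (∀ c ∈ c₁ ++ c₂, c.Sat x) ↔ (∀ c ∈ c₁, c.Sat x) ∧ ∀ c ∈ c₂, c.Sat x := by
      constructor
      · intro h
        exact ⟨fun c hc => h c (List.mem_append_left _ hc),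
          fun c hc => h c (List.mem_append_right _ hc)⟩
      · rintro ⟨h, h'⟩ c hc
        rcases List.mem_append.1 hc with hc | hc
        · exact h c hc
        · exact h' c hc
    rw [e1, p₁.iff x, p₂.iff x]
    constructor
    · rintro ⟨h, h'⟩ j hj hj'
      by_cases hlt : j < m₁
      · simp only [if_pos hlt]
        exact h j hj hlt
      · simp only [if_neg hlt]
        exact h' j (by omega) hj'
    · intro h
      refine ⟨fun j hj hj' => ?_, fun j hj hj' => ?_⟩
      · have := h j hj (by omega)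
        rwa [if_pos hj'] at this
      · have := h j (by omega) hj'
        rwa [if_neg (by omega)] at this

theorem Pg.snoc {m m₁ : ℕ} {cs : List NC} {h : ℕ → MvPolynomial (Fin k) ℂ}
    (p : Pg k m m₁ cs h) (hm : m ≤ m₁) (c : NC) (hc : c.Ok) (hl : c.Lt (m₁ + 1))
    (g : MvPolynomial (Fin k) ℂ)
    (hg : ∀ x : ℕ → ℂ, (∀ j, m ≤ j → j < m₁ → x j = eval (fun a : Fin k => x a) (h j)) →
      (c.Sat x ↔ x m₁ = eval (fun a : Fin k => x a) g)) :
    Pg k m (m₁ + 1) (cs ++ [c]) (fun t => if t < m₁ then h t else g) := by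
  refine ⟨fun c' hc' => ?_, fun x => ?_⟩
  · rcases List.mem_append.1 hc' with hc' | hc'
    · exact ⟨(p.ok c' hc').1, (p.ok c' hc').2.mono (Nat.le_succ _)⟩
    · rw [List.mem_singleton] at hc'
      subst hc'
      exact ⟨hc, hl⟩
  · have e1 : (∀ c' ∈ cs ++ [c], c'.Sat x) ↔ (∀ c' ∈ cs, c'.Sat x) ∧ c.Sat x := by
      constructor
      · intro h
        exact ⟨fun c hc => h c (List.mem_append_left _ hc),
          h c (List.mem_append_right _ (List.mem_singleton_self _))⟩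
      · rintro ⟨h, h'⟩ c' hc'
        rcases List.mem_append.1 hc' with hc' | hc'
        · exact h c' hc'
        · rw [List.mem_singleton] at hc'
          subst hc'
          exact h'
    rw [e1, p.iff x]
    constructor
    · rintro ⟨h, h'⟩ j hj hj'
      by_cases hlt : j < m₁
      · simp only [if_pos hlt]
        exact h j hj hlt
      · obtain rfl : j = m₁ := by omega
        simp only [if_neg hlt]
        exact (hg x h).1 h'
    · intro h'
      have h1 : ∀ j, m ≤ j → j < m₁ → x j = eval (fun a : Fin k => x a) (h j) := by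
        intro j hj hj'
        have := h' j hj (by omega)
        rwa [if_pos hj'] at this
      refine ⟨h1, (hg x h1).2 ?_⟩
      have := h' m₁ hm (by omega)
      rwa [if_neg (by omega)] at this

/-- the polynomial can be computed with fresh variables -/
def Cp (k : ℕ) (p : MvPolynomial (Fin k) ℤ) : Prop :=
  ∀ m, k ≤ m → ∃ (m' l : ℕ) (cs : List NC) (h : ℕ → MvPolynomial (Fin k) ℂ),
    m ≤ l ∧ l < m' ∧ Pg k m m' cs h ∧ h l = MvPolynomial.map (algebraMap ℤ ℂ) p

theorem cp_zero : Cp k 0 := by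
  intro m hm
  refine ⟨m + 1, m, _, _, le_rfl, Nat.lt_succ_self m,
    (Pg.nil m (fun _ => 0)).snoc le_rfl (.zero m) trivial (Nat.lt_succ_self m) 0
      (fun x _ => ?_), ?_⟩
  · rw [map_zero]
    exact Iff.rfl
  · simp

theorem cp_one : Cp k 1 := by
  intro m hm
  refine ⟨m + 1, m, _, _, le_rfl, Nat.lt_succ_self m,
    (Pg.nil m (fun _ => 0)).snoc le_rfl (.one m) trivial (Nat.lt_succ_self m) 1
      (fun x _ => ?_), ?_⟩
  · rw [map_one]
    exact Iff.rfl
  · simp

theorem cp_add {p q : MvPolynomial (Fin k) ℤ} (hp : Cp k p) (hq : Cp k q) : Cp k (p + q) := by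
  intro m hm
  obtain ⟨m₁, i, c₁, h₁, hi, hi', p₁, e₁⟩ := hp m hm
  obtain ⟨m₂, j, c₂, h₂, hj, hj', p₂, e₂⟩ := hq m₁ (by omega)
  have hc := p₁.comp p₂ (by omega) (by omega)
  refine ⟨m₂ + 1, m₂, _, _, by omega, Nat.lt_succ_self _,
    hc.snoc (by omega) (.add i j m₂) ⟨by omega, by omega, by omega⟩
      ⟨by omega, by omega, by omega⟩ (MvPolynomial.map (algebraMap ℤ ℂ) (p + q))
      (fun x hx => ?_), ?_⟩
  · have e1 := hx i hi (by omega)
    have e2 := hx j (by omega) (by omega)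
    rw [if_pos hi', e₁] at e1
    rw [if_neg (by omega), e₂] at e2
    show x m₂ = x i + x j ↔ _
    rw [e1, e2, map_add, map_add]
  · simp

theorem cp_neg {p : MvPolynomial (Fin k) ℤ} (hp : Cp k p) : Cp k (-p) := by
  intro m hm
  obtain ⟨m₁, i, c₁, h₁, hi, hi', p₁, e₁⟩ := hp m hm
  have s1 := p₁.snoc (by omega) (.zero m₁) trivial (Nat.lt_succ_self m₁) 0
    (fun x _ => by rw [map_zero]; exact Iff.rfl)
  have s2 := s1.snoc (by omega) (.add i (m₁ + 1) m₁) ⟨by omega, by omega, by omega⟩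
    ⟨by omega, by omega, by omega⟩ (MvPolynomial.map (algebraMap ℤ ℂ) (-p)) (fun x hx => by
      have e1 := hx i hi (by omega)
      have e2 := hx m₁ (by omega) (by omega)
      rw [if_pos hi', e₁] at e1
      rw [if_neg (by omega), map_zero] at e2
      show x m₁ = x i + x (m₁ + 1) ↔ _
      rw [e2, e1, map_neg, map_neg]
      constructor
      · intro h
        linear_combination -h
      · intro h
        rw [h]
        ring)
  refine ⟨m₁ + 1 + 1, m₁ + 1, _, _, by omega, Nat.lt_succ_self _, s2, ?_⟩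
  simp

theorem cp_mulX {p : MvPolynomial (Fin k) ℤ} (hp : Cp k p) (n : Fin k) : Cp k (p * X n) := by
  intro m hm
  obtain ⟨m₁, i, c₁, h₁, hi, hi', p₁, e₁⟩ := hp m hm
  have hn := n.2
  have s1 := p₁.snoc (by omega) (.zero m₁) trivial (Nat.lt_succ_self m₁) 0
    (fun x _ => by rw [map_zero]; exact Iff.rfl)
  have s2 := s1.snoc (by omega) (.add n m₁ (m₁ + 1)) ⟨by omega, by omega, by omega⟩
    ⟨by omega, by omega, by omega⟩ (X n) (fun x hx => by
      have e2 := hx m₁ (by omega) (by omega)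
      rw [if_neg (by omega), map_zero] at e2
      show x (m₁ + 1) = x n + x m₁ ↔ _
      rw [e2, add_zero, eval_X])
  have s3 := s2.snoc (by omega) (.mul i (m₁ + 1) (m₁ + 1 + 1)) ⟨by omega, by omega, by omega⟩
    ⟨by omega, by omega, by omega⟩ (MvPolynomial.map (algebraMap ℤ ℂ) (p * X n)) (fun x hx => by
      have e1 := hx i hi (by omega)
      have e2 := hx (m₁ + 1) (by omega) (by omega)
      rw [if_pos (by omega), if_pos (by omega), e₁] at e1
      rw [if_neg (by omega), eval_X] at e2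
      show x (m₁ + 1 + 1) = x i * x (m₁ + 1) ↔ _
      rw [e2, e1, map_mul, map_mul, map_X, eval_X])
  refine ⟨m₁ + 1 + 1 + 1, m₁ + 1 + 1, _, _, by omega, Nat.lt_succ_self _, s3, ?_⟩
  simp

theorem cp_C (a : ℤ) : Cp k (C a) := by
  induction a using Int.induction_on with
  | zero =>
    rw [map_zero]
    exact cp_zero
  | succ i ih =>
    rw [map_add, map_one]
    exact cp_add ih cp_one
  | pred i ih =>
    rw [sub_eq_add_neg, map_add, map_neg C (1 : ℤ), map_one]
    exact cp_add ih (cp_neg cp_one)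

theorem cp_all (p : MvPolynomial (Fin k) ℤ) : Cp k p := by
  induction p using MvPolynomial.induction_on with
  | C a => exact cp_C a
  | add p q hp hq => exact cp_add hp hq
  | mul_X p n hp => exact cp_mulX hp n

/-- several polynomials -/
theorem cp_list (L : List (MvPolynomial (Fin k) ℤ)) : ∀ m, k ≤ m →
    ∃ (m' : ℕ) (cs : List NC) (h : ℕ → MvPolynomial (Fin k) ℂ), m ≤ m' ∧ Pg k m m' cs h ∧
      ∀ p ∈ L, ∃ l, m ≤ l ∧ l < m' ∧ h l = MvPolynomial.map (algebraMap ℤ ℂ) p := by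
  induction L with
  | nil =>
    intro m hm
    exact ⟨m, [], fun _ => 0, le_rfl, Pg.nil m _, fun p hp => absurd hp List.not_mem_nil⟩
  | cons p L ih =>
    intro m hm
    obtain ⟨m₁, i, c₁, h₁, hi, hi', p₁, e₁⟩ := cp_all p m hm
    obtain ⟨m₂, c₂, h₂, hm₂, p₂, e₂⟩ := ih m₁ (by omega)
    refine ⟨m₂, _, _, by omega, p₁.comp p₂ (by omega) hm₂, fun q hq => ?_⟩
    rcases List.mem_cons.1 hq with rfl | hq
    · exact ⟨i, hi, by omega, by rw [if_pos hi', e₁]⟩
    · obtain ⟨l, hl, hl', e⟩ := e₂ q hq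
      exact ⟨l, by omega, hl', by rw [if_neg (by omega), e]⟩

theorem aeval_eq (y : Fin k → ℂ) (p : MvPolynomial (Fin k) ℤ) :
    aeval y p = eval y (MvPolynomial.map (algebraMap ℤ ℂ) p) := by
  rw [MvPolynomial.eval_map]
  rfl

/-- finitely many of the polynomials have the same zeros -/
theorem exists_finset (𝒮 : Set (MvPolynomial (Fin k) ℤ)) :
    ∃ L : Finset (MvPolynomial (Fin k) ℤ), (∀ p ∈ L, p ∈ 𝒮) ∧
      ∀ y : Fin k → ℂ, (∀ p ∈ L, aeval y p = 0) → y ∈ zeros 𝒮 := by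
  have hfg : (Ideal.span 𝒮).FG := IsNoetherian.noetherian _
  obtain ⟨L, hL, hsp⟩ := Submodule.fg_span_iff_fg_span_finset_subset 𝒮 |>.1 hfg
  refine ⟨L, fun p hp => hL hp, fun y hy f hf => ?_⟩
  have h1 : f ∈ Ideal.span (L : Set (MvPolynomial (Fin k) ℤ)) := by
    have h2 : f ∈ Ideal.span 𝒮 := Ideal.subset_span hf
    have h3 : Ideal.span 𝒮 = Ideal.span (L : Set (MvPolynomial (Fin k) ℤ)) := hsp
    rwa [h3] at h2
  have h4 : Ideal.span (L : Set (MvPolynomial (Fin k) ℤ)) ≤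
      RingHom.ker (aeval y : MvPolynomial (Fin k) ℤ →ₐ[ℤ] ℂ).toRingHom := by
    rw [Ideal.span_le]
    intro p hp
    exact hy p hp
  exact h4 h1

end ProgAux

open ProgAux

theorem exists_prog {k : ℕ} (𝒮 : Set (MvPolynomial (Fin k) ℤ)) :
    ∃ (m r : ℕ) (cs : Fin r → Con m) (ι : Fin k → Fin m) (h : Fin m → MvPolynomial (Fin k) ℂ),
      (∀ c, (cs c).Ok) ∧
      (∀ y ∈ zeros 𝒮, (fun j => eval y (h j)) ∈ Sol cs ∧ ∀ a, eval y (h (ι a)) = y a) ∧
      (∀ x ∈ Sol cs, (fun a => x (ι a)) ∈ zeros 𝒮 ∧ ∀ j, x j = eval (fun a => x (ι a)) (h j)) := by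
  classical
  obtain ⟨L, hL, hz⟩ := exists_finset 𝒮
  obtain ⟨m, cs, h, hkm, hp, he⟩ := cp_list L.toList k le_rfl
  choose! lf hl1 hl2 hl3 using he
  have hmem : ∀ p, p ∈ L.toList ↔ p ∈ L := fun p => Finset.mem_toList
  -- the list of constraints
  set C : List NC := cs ++ L.toList.map (fun p => NC.zero (lf p)) with hC
  have hok : ∀ c ∈ C, c.Ok ∧ c.Lt m := by
    intro c hc
    rcases List.mem_append.1 hc with hc | hc
    · exact hp.ok c hc
    · obtain ⟨p, hp', rfl⟩ := List.mem_map.1 hc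
      exact ⟨trivial, hl2 p hp'⟩
  have hsat : ∀ x : ℕ → ℂ, (∀ c ∈ C, c.Sat x) ↔
      (∀ j, k ≤ j → j < m → x j = eval (fun a : Fin k => x a) (h j)) ∧
        ∀ p ∈ L, aeval (fun a : Fin k => x a) p = 0 := by
    intro x
    constructor
    · intro hx
      have h1 := (hp.iff x).1 fun c hc => hx c (List.mem_append_left _ hc)
      refine ⟨h1, fun p hpL => ?_⟩
      have hpL' := (hmem p).2 hpL
      have h2 : (NC.zero (lf p)).Sat x :=
        hx _ (List.mem_append_right _ (List.mem_map.2 ⟨p, hpL', rfl⟩))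
      have h3 : x (lf p) = 0 := h2
      rw [h1 _ (hl1 p hpL') (hl2 p hpL'), hl3 p hpL', ← aeval_eq] at h3
      exact h3
    · rintro ⟨h1, h2⟩ c hc
      rcases List.mem_append.1 hc with hc | hc
      · exact (hp.iff x).2 h1 c hc
      · obtain ⟨p, hp', rfl⟩ := List.mem_map.1 hc
        show x (lf p) = 0
        rw [h1 _ (hl1 p hp') (hl2 p hp'), hl3 p hp', ← aeval_eq]
        exact h2 p ((hmem p).1 hp')
  set hh : ℕ → MvPolynomial (Fin k) ℂ := fun j => if hj : j < k then X ⟨j, hj⟩ else h j with hhh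
  refine ⟨m, C.length, fun c => (C.get c).con (hok _ (List.get_mem _ _)).2, Fin.castLE hkm,
    fun j => hh j, fun c => con_ok _ _ (hok _ (List.get_mem _ _)).1, ?_, ?_⟩
  · intro y hy
    have hcast : ∀ a : Fin k, eval y (hh ((Fin.castLE hkm a : Fin m) : ℕ)) = y a := by
      intro a
      have h1 : ((Fin.castLE hkm a : Fin m) : ℕ) < k := a.2
      rw [hhh]
      simp only
      rw [dif_pos h1, eval_X]
      rfl
    refine ⟨fun c => ?_, hcast⟩
    set x : ℕ → ℂ := fun j => eval y (hh j) with hx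
    have hxy : (fun a : Fin k => x a) = y := by
      funext a
      exact hcast a
    have h1 : ∀ c ∈ C, c.Sat x := by
      rw [hsat, hxy]
      refine ⟨fun j hj _ => ?_, fun p hpL => hy p (hL p hpL)⟩
      show eval y (hh j) = _
      rw [hhh]
      simp only
      rw [dif_neg (by omega)]
    exact (con_sat x _ _).2 (h1 _ (List.get_mem _ _))
  · intro x hx
    set x' : ℕ → ℂ := fun j => if hj : j < m then x ⟨j, hj⟩ else 0 with hx'
    have hres : (fun j : Fin m => x' j) = x := by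
      funext j
      rw [hx']
      simp only
      rw [dif_pos j.2]
    have h1 : ∀ c ∈ C, c.Sat x' := by
      intro c hc
      obtain ⟨i, rfl⟩ := List.get_of_mem hc
      rw [← con_sat x' _ (hok _ (List.get_mem _ _)).2, hres]
      exact hx i
    rw [hsat] at h1
    have hy : (fun a : Fin k => x' a) = fun a => x (Fin.castLE hkm a) := by
      funext a
      rw [← hres]
      rfl
    rw [hy] at h1
    refine ⟨hz _ h1.2, fun j => ?_⟩
    rw [hhh]
    simp only
    by_cases hj : (j : ℕ) < k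
    · rw [dif_pos hj, eval_X]
      rfl
    · rw [dif_neg hj]
      have h2 := h1.1 j (by omega) j.2
      rw [← h2, ← congrFun hres j]

end Pd6ff58.U
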