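import Pool.Agent.Lib.Pd6U.Ord2
import Pool.Agent.Lib.Pd6U.As
import Pool.Agent.Lib.Pd6U.Enc
import Pool.Agent.Lib.Pd6U.Prog
import Pool.Agent.Lib.Pd6U.LIso
import Pool.Agent.Lib.Pd6U.Col
import Pool.Agent.Lib.Pd6U.Occ
import Pool.Agent.Lib.Pd6J.RgU

/-!
# Module Fin: the theorem

`exists_prog` and `exists_proper` turn the system into elementary constraints, properly coloured by
three colours; `colA`, `colB` and `exists_good2` give the two orders with `2 * 8 + 2 * 5 = 26` layers;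
`partB` and `partA` compare the local rings.
-/

open MvPolynomial

noncomputable section

namespace Pd6ff58.U

theorem jordan_universality {k : ℕ} (𝒮 : Set (MvPolynomial (Fin k) ℤ)) :
    ∃ (n N M : ℕ) (X : Matrix (Fin n) (Fin n) ℂ) (w : Equiv.Perm (Fin n))
      (e : Fin n ≃ Fin N × Fin 26),
      (∀ i j, X i j = if (e i).1 = (e j).1 ∧ ((e i).2 : ℕ) + 1 = (e j).2 then 1 else 0) ∧
      (∀ i j, X i j ≠ 0 → i < j) ∧ pt (permGL w) ∈ springerFiber X ∧
      (∀ y ∈ zeros 𝒮, ∃ g : GL (Fin n) ℂ, pt g ∈ schubertCell w ∩ springerFiber X ∧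
        SameLocalRing (chart g ⁻¹' cellClosure X w) 0 (timesAffine (τ := Fin M) (zeros 𝒮))
          (Sum.elim y 0)) ∧
      ((∃ y ∈ zeros 𝒮, ¬ RegularAt (zeros 𝒮) y) → FlagSingular (cellClosure X w)) := by
  obtain ⟨m₀, r₀, cs₀, ι₀, h, hok₀, hY, hX⟩ := exists_prog 𝒮
  obtain ⟨m, r, cs, κ, ι, π, hκ, hP, hQ⟩ := exists_proper cs₀ hok₀
  have hok : ∀ c, (cs c).Ok := fun c => (hκ c).ok
  obtain ⟨P, pos, tim, hSA, hSB, hL0, hL1, hg⟩ := exists_good2 (SA cs) (SB cs)
    (KA := 8) (KB := 5) (by norm_num) (by norm_num) (colA κ) (colB κ)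
    (fun x x' h1 h2 z => colA_ok hκ x x' h1 h2 z) (fun y y' h1 h2 x => colB_ok hκ y y' h1 h2 x)
  have hL : P.L0 + P.L1 = 26 := by rw [hL0, hL1]
  -- the equivalence of the numberings
  let e : Fin (Fintype.card (Ix P)) ≃
      Fin (Fintype.card (ZI m r ⊕ XI m r ⊕ DI m)) × Fin 26 :=
    pos.symm.trans ((Equiv.prodComm _ _).trans
      ((Fintype.equivFin (ZI m r ⊕ XI m r ⊕ DI m)).prodCongr (finCongr hL)))
  have hX0 : ∀ i j, Xn pos i j =
      if (e i).1 = (e j).1 ∧ ((e i).2 : ℕ) + 1 = (e j).2 then 1 else 0 := by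
    intro i j
    have e1 : (e i).1 = (e j).1 ↔ (pos.symm i).2 = (pos.symm j).2 :=
      (Fintype.equivFin (ZI m r ⊕ XI m r ⊕ DI m)).apply_eq_iff_eq
    have e2 : ∀ l, ((e l).2 : ℕ) = (((pos.symm l).1 : Fin _) : ℕ) := fun l => rfl
    have e3 : ((e i).1 = (e j).1 ∧ ((e i).2 : ℕ) + 1 = (e j).2) ↔
        ((((pos.symm j).1 : Fin _) : ℕ) = (((pos.symm i).1 : Fin _) : ℕ) + 1 ∧
          (pos.symm i).2 = (pos.symm j).2) := by
      rw [e1, e2, e2]
      constructor
      · rintro ⟨h1, h2⟩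
        exact ⟨h2.symm, h1⟩
      · rintro ⟨h1, h2⟩
        exact ⟨h2, h1.symm⟩
    by_cases hc : (e i).1 = (e j).1 ∧ ((e i).2 : ℕ) + 1 = (e j).2
    · rw [if_pos hc]
      simp only [Xn, Xm, Matrix.submatrix_apply, Matrix.of_apply, if_pos (e3.1 hc)]
    · rw [if_neg hc]
      simp only [Xn, Xm, Matrix.submatrix_apply, Matrix.of_apply, if_neg fun hh => hc (e3.2 hh)]
  have key : ∀ y ∈ zeros 𝒮, ∃ g : GL (Fin (Fintype.card (Ix P))) ℂ,
      pt g ∈ schubertCell (ww pos tim) ∩ springerFiber (Xn pos) ∧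
        SameLocalRing (chart g ⁻¹' cellClosure (Xn pos) (ww pos tim)) 0
          (timesAffine (τ := Fin (Fintype.card (J m r ⊕ Tau P pos))) (zeros 𝒮))
          (Sum.elim y 0) := by
    intro y hy
    obtain ⟨h1, h2⟩ := hY y hy
    obtain ⟨h3, h4⟩ := hP _ h1
    obtain ⟨s0, hs0, hloc⟩ := partB hok h3
    have hs0' : s0 ∈ ABset P.SA P.SB := by
      rw [hSA, hSB]
      exact hs0
    obtain ⟨g, hgm, hgs⟩ := partA hg hs0'
    refine ⟨g, hgm, same_trans hgs ?_⟩
    rw [hSA, hSB]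
    -- `Sol` is `zeros`
    have hsol : LocIso (Sol cs) (ext0 π fun j => eval y (h j)) (zeros 𝒮) y := by
      refine ⟨fun x a => x (ι (ι₀ a)), fun y => ext0 π fun j => eval y (h j),
        fun a => RegAt.coord _ _, ?_, ?_, rfl, ?_, ?_⟩
      · intro j
        rcases hj : π j with _ | i
        · have e1 : (fun y : Fin k → ℂ => ext0 π (fun j => eval y (h j)) j) = fun _ => 0 := by
            funext z
            simp [ext0, hj]
          rw [e1]
          exact RegAt.const _ _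
        · have e1 : (fun y : Fin k → ℂ => ext0 π (fun j => eval y (h j)) j) =
              fun z => eval z (h i) := by
            funext z
            simp [ext0, hj]
          rw [e1]
          exact RegAt.poly _ _
      · funext a
        exact (h4 (ι₀ a)).trans (h2 a)
      · refine Filter.Eventually.of_forall fun x hx => ?_
        obtain ⟨b1, b2⟩ := hQ x hx
        obtain ⟨a1, a2⟩ := hX _ b1
        refine ⟨a1, ?_⟩
        have e1 : (fun j => eval (fun a => x (ι (ι₀ a))) (h j)) = fun i => x (ι i) :=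
          funext fun j => (a2 j).symm
        change ext0 π (fun j => eval (fun a => x (ι (ι₀ a))) (h j)) = x
        rw [e1]
        exact b2
      · refine Filter.Eventually.of_forall fun z hz => ?_
        obtain ⟨a1, a2⟩ := hY z hz
        obtain ⟨b1, b2⟩ := hP _ a1
        exact ⟨b1, funext fun a => (b2 (ι₀ a)).trans (a2 a)⟩
    have l1 : LocIso (timesAffine (τ := Tau P pos) (ABset (SA cs) (SB cs))) (Sum.elim s0 0)
        (timesAffine (τ := Tau P pos) (timesAffine (τ := J m r) (zeros 𝒮)))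
        (Sum.elim (Sum.elim y 0) 0) := (hloc.trans hsol.times).times
    have l2 := l1.trans (LocIso.assoc (κ := Tau P pos) (κ' := J m r) (zeros 𝒮) y)
    exact same_trans l2.same (timesAffine_reindex (Fintype.equivFin (J m r ⊕ Tau P pos)) _ _)
  refine ⟨Fintype.card (Ix P), _, Fintype.card (J m r ⊕ Tau P pos), Xn pos, ww pos tim, e,
    hX0, ?_, base_mem hg, key, ?_⟩
  · intro i j hij
    have h2 : (((pos.symm j).1 : Fin _) : ℕ) = (((pos.symm i).1 : Fin _) : ℕ) + 1 := by
      by_contra hc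
      apply hij
      simp [Xn, Xm, hc]
    have h3 := hg.lay (pos.symm i) (pos.symm j) (by omega)
    rwa [Equiv.apply_symm_apply, Equiv.apply_symm_apply] at h3
  · rintro ⟨y, hy, hreg⟩
    obtain ⟨g, hgm, hgs⟩ := key y hy
    refine ⟨g, ?_, fun hr => hreg ?_⟩
    · intro f hf g' hg'
      exact hf g' (hg' ▸ hgm)
    · have h1 : RegularAt (timesAffine (τ := Fin (Fintype.card (J m r ⊕ Tau P pos))) (zeros 𝒮))
          (Sum.elim y 0) := by
        obtain ⟨e'⟩ := hgs
        exact Pd6ff58.J.regular_congr ⟨e'.symm⟩ hr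
      exact (regular_timesAffine (τ := Fin (Fintype.card (J m r ⊕ Tau P pos))) (zeros 𝒮) y hy).1 h1

end Pd6ff58.U
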