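import Pool.Agent.Lib.Pd6U.Def
import Pool.Agent.Lib.Pd6J.Pos

/-!
# Module Ord: existence of the two orders

PROOF. Take `L0 = card (X ⊕ Y)`, `L1 = card Y`; `a0 : Fin L0 ≃ X ⊕ Y`, `a1 : Fin L1 ≃ Y`. Class of the
coordinate `(c, i)`: for `c < L0`, `a = a0 c`: `inl z` has class `0` if `a = inl x` with `SA z x`, else `2`;
`inr b` has class `1` if `b = a`, else `3`. For `c ≥ L0`, `y0 = a1 (c - L0)`: `inl z` has class `2`,
`inr (inl x)` has class `0` if `SB x y0`, else `2`; `inr (inr y)` has class `1` if `y = y0`, else `3`. `pos` is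
`Pd6ff58.J.exists_sort` with the key `4 * layer + class`; `tim` with the key
`kap * (N + 1) + (N - pos)` where `N = card (Ix P)` (so `kap` smaller, or `kap` equal and `pos` larger, gives
a smaller key).
-/

noncomputable section

namespace Pd6ff58.U

namespace OrdAux

variable {Z X Y : Type} [Fintype X] [Fintype Y]

/-- the special pivot of a layer of the first kind -/
def a0 (X Y : Type) [Fintype X] [Fintype Y] (c : ℕ) : Option (X ⊕ Y) :=
  if h : c < Fintype.card (X ⊕ Y) then some ((Fintype.equivFin (X ⊕ Y)).symm ⟨c, h⟩) else none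

/-- the special pivot of a layer of the second kind -/
def a1 (X Y : Type) [Fintype X] [Fintype Y] (c : ℕ) : Option Y :=
  if h : c - Fintype.card (X ⊕ Y) < Fintype.card Y then
    some ((Fintype.equivFin Y).symm ⟨c - Fintype.card (X ⊕ Y), h⟩) else none

open Classical in
/-- the class of a coordinate -/
def cls (SA : Z → X → Prop) (SB : X → Y → Prop) (c : ℕ) : Z ⊕ X ⊕ Y → ℕ
  | Sum.inl z =>
    if c < Fintype.card (X ⊕ Y) then
      (if ∃ x, a0 X Y c = some (Sum.inl x) ∧ SA z x then 0 else 2)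
    else 2
  | Sum.inr (Sum.inl x) =>
    if c < Fintype.card (X ⊕ Y) then (if a0 X Y c = some (Sum.inl x) then 1 else 3)
    else (if ∃ y, a1 X Y c = some y ∧ SB x y then 0 else 2)
  | Sum.inr (Sum.inr y) =>
    if c < Fintype.card (X ⊕ Y) then (if a0 X Y c = some (Sum.inr y) then 1 else 3)
    else (if a1 X Y c = some y then 1 else 3)

theorem cls_le (SA : Z → X → Prop) (SB : X → Y → Prop) (c : ℕ) (i : Z ⊕ X ⊕ Y) :
    cls SA SB c i ≤ 3 := by
  rcases i with z | x | y
  · simp only [cls]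
    split_ifs <;> omega
  · simp only [cls]
    split_ifs <;> omega
  · simp only [cls]
    split_ifs <;> omega

end OrdAux

open OrdAux

theorem exists_good {Z X Y : Type} [Fintype Z] [Fintype X] [Fintype Y] [Nonempty Y]
    (SA : Z → X → Prop) (SB : X → Y → Prop) :
    ∃ (P : Par Z X Y) (pos tim : Ix P ≃ Fin (Fintype.card (Ix P))),
      P.SA = SA ∧ P.SB = SB ∧ P.L0 = Fintype.card X + Fintype.card Y ∧
      P.L1 = Fintype.card Y ∧ Good P pos tim := by
  classical
  obtain ⟨P, rfl, rfl, hL0, hL1⟩ : ∃ P : Par Z X Y, P.SA = SA ∧ P.SB = SB ∧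
      P.L0 = Fintype.card X + Fintype.card Y ∧ P.L1 = Fintype.card Y :=
    ⟨⟨_, _, SA, SB⟩, rfl, rfl, rfl, rfl⟩
  have hLX : P.L0 = Fintype.card (X ⊕ Y) := by rw [hL0, Fintype.card_sum]
  have hY : 0 < Fintype.card Y := Fintype.card_pos
  obtain ⟨pos, hpos⟩ := Pd6ff58.J.exists_sort
    (fun a : Ix P => 4 * (a.1 : ℕ) + cls P.SA P.SB a.1 a.2)
  obtain ⟨tim, htim⟩ := Pd6ff58.J.exists_sort
    (fun a : Ix P => kap P a * (Fintype.card (Ix P) + 1) + (Fintype.card (Ix P) - (pos a : ℕ)))
  have hp4 : ∀ (c : Fin (P.L0 + P.L1)) (i j : Z ⊕ X ⊕ Y),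
      cls P.SA P.SB c i < cls P.SA P.SB c j → pos (c, i) < pos (c, j) := by
    intro c i j h2
    apply hpos
    simp only
    omega
  refine ⟨P, pos, tim, rfl, rfl, hL0, hL1, ?_⟩
  refine ⟨by omega, by omega, ?_, ?_, ?_, ?_, ?_, ?_, ?_, ?_, ?_⟩
  · intro a b h
    apply hpos
    have h1 := cls_le P.SA P.SB a.1 a.2
    omega
  · intro a b h
    apply htim
    have h1 : (kap P a + 1) * (Fintype.card (Ix P) + 1) ≤
        kap P b * (Fintype.card (Ix P) + 1) := Nat.mul_le_mul_right _ h
    have h2 : Fintype.card (Ix P) - (pos a : ℕ) ≤ Fintype.card (Ix P) := Nat.sub_le _ _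
    rw [add_mul] at h1
    omega
  · intro a b h1 h2
    apply htim
    rw [h1]
    have h3 : (pos b : ℕ) < pos a := h2
    have h4 := (pos a).2
    omega
  · intro c z x hc hzx
    -- al0
    apply hp4
    have hc' : (c : ℕ) < Fintype.card (X ⊕ Y) := by omega
    simp only [cls, if_pos hc']
    by_cases h : a0 X Y c = some (Sum.inl x)
    · rw [if_pos ⟨x, h, hzx⟩, if_pos h]
      omega
    · rw [if_neg h]
      split_ifs <;> omega
  · intro c x y hc hxy
    apply hp4
    have hc' : ¬ (c : ℕ) < Fintype.card (X ⊕ Y) := by omega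
    simp only [cls, if_neg hc']
    by_cases h : a1 X Y c = some y
    · rw [if_pos ⟨y, h, hxy⟩, if_pos h]
      omega
    · rw [if_neg h]
      split_ifs <;> omega
  · intro z x hzx
    have hlt := (Fintype.equivFin (X ⊕ Y) (Sum.inl x)).2
    refine ⟨⟨Fintype.equivFin (X ⊕ Y) (Sum.inl x), by omega⟩, ?_, ?_⟩
    · change (Fintype.equivFin (X ⊕ Y) (Sum.inl x) : ℕ) < P.L0
      omega
    · apply hp4
      have ha : a0 X Y (Fintype.equivFin (X ⊕ Y) (Sum.inl x)) = some (Sum.inl x) := by
        rw [a0, dif_pos hlt]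
        simp
      have hn : ¬ ∃ x', a0 X Y (Fintype.equivFin (X ⊕ Y) (Sum.inl x)) = some (Sum.inl x') ∧
          P.SA z x' := by
        rintro ⟨x', h1, h2⟩
        rw [ha] at h1
        have h3 : x = x' := by simpa using h1
        exact hzx (h3 ▸ h2)
      simp only [cls, if_pos hlt, if_pos ha, if_neg hn]
      omega
  · intro z y
    have hlt := (Fintype.equivFin (X ⊕ Y) (Sum.inr y)).2
    refine ⟨⟨Fintype.equivFin (X ⊕ Y) (Sum.inr y), by omega⟩, ?_, ?_⟩
    · change (Fintype.equivFin (X ⊕ Y) (Sum.inr y) : ℕ) < P.L0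
      omega
    · apply hp4
      have ha : a0 X Y (Fintype.equivFin (X ⊕ Y) (Sum.inr y)) = some (Sum.inr y) := by
        rw [a0, dif_pos hlt]
        simp
      have hn : ¬ ∃ x', a0 X Y (Fintype.equivFin (X ⊕ Y) (Sum.inr y)) = some (Sum.inl x') ∧
          P.SA z x' := by
        rintro ⟨x', h1, h2⟩
        rw [ha] at h1
        simp at h1
      simp only [cls, if_pos hlt, if_pos ha, if_neg hn]
      omega
  · intro x y hxy
    have hlt := (Fintype.equivFin Y y).2
    refine ⟨⟨Fintype.card (X ⊕ Y) + Fintype.equivFin Y y, by omega⟩, ?_, ?_⟩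
    · change P.L0 ≤ Fintype.card (X ⊕ Y) + (Fintype.equivFin Y y : ℕ)
      omega
    · apply hp4
      have ha : a1 X Y (Fintype.card (X ⊕ Y) + Fintype.equivFin Y y) = some y := by
        simp [a1]
      have hc' : ¬ Fintype.card (X ⊕ Y) + (Fintype.equivFin Y y : ℕ) <
          Fintype.card (X ⊕ Y) := by omega
      have hn : ¬ ∃ y', a1 X Y (Fintype.card (X ⊕ Y) + Fintype.equivFin Y y) = some y' ∧
          P.SB x y' := by
        rintro ⟨y', h1, h2⟩
        rw [ha] at h1
        have h3 : y = y' := by simpa using h1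
        exact hxy (h3 ▸ h2)
      simp only [cls, if_neg hc', if_pos ha, if_neg hn]
      omega
  · intro z y
    have hlt := (Fintype.equivFin Y y).2
    refine ⟨⟨Fintype.card (X ⊕ Y) + Fintype.equivFin Y y, by omega⟩, ?_, ?_⟩
    · change P.L0 ≤ Fintype.card (X ⊕ Y) + (Fintype.equivFin Y y : ℕ)
      omega
    · apply hp4
      have ha : a1 X Y (Fintype.card (X ⊕ Y) + Fintype.equivFin Y y) = some y := by
        simp [a1]
      have hc' : ¬ Fintype.card (X ⊕ Y) + (Fintype.equivFin Y y : ℕ) <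
          Fintype.card (X ⊕ Y) := by omega
      simp only [cls, if_neg hc', if_pos ha]
      omega

end Pd6ff58.U
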