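import Pool.Agent.Lib.Pd6U.Def
import Pool.Agent.Lib.Pd6J.Pos

/-!
# Module Ord2: existence of the two orders with few layers

`colA : X → ℕ` colours `X` so that two different `x` of the same colour have no common `z` in their
supports (columns of `SA`), `colB : Y → ℕ` similarly for `SB`. Two layers for every colour are enough: in the
first one the elements `x` of the colour are in increasing order, each of them preceded by the `z` of
its support, in the second one the order is reversed. Layer `c < 2 KA`: colour `c / 2`, direction `c % 2`;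
layer `c ≥ 2 KA`: colour `(c - 2 KA) / 2`, direction `(c - 2 KA) % 2`.
-/

noncomputable section

namespace Pd6ff58.U

namespace Ord2Aux

/-- the rank of an element in one of the two directions -/
def rk (T : Type) [Fintype T] (ε : ℕ) (t : T) : ℕ :=
  if ε = 0 then (Fintype.equivFin T t : ℕ) else Fintype.card T - 1 - (Fintype.equivFin T t : ℕ)

theorem rk_lt {T : Type} [Fintype T] (ε : ℕ) (t : T) : rk T ε t < Fintype.card T := by
  have := (Fintype.equivFin T t).2
  unfold rk
  split_ifs <;> omega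

theorem exists_dir {T : Type} [Fintype T] {t t' : T} (h : t ≠ t') :
    ∃ ε, ε < 2 ∧ rk T ε t < rk T ε t' := by
  have h1 := (Fintype.equivFin T t).2
  have h2 := (Fintype.equivFin T t').2
  have h3 : (Fintype.equivFin T t : ℕ) ≠ (Fintype.equivFin T t' : ℕ) := by
    intro hh
    exact h ((Fintype.equivFin T).injective (Fin.ext hh))
  rcases lt_or_gt_of_ne h3 with h4 | h4
  · exact ⟨0, by norm_num, by simpa [rk] using h4⟩
  · refine ⟨1, by norm_num, ?_⟩
    simp only [rk, one_ne_zero, if_false]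
    omega

open Classical in
/-- the position of a row `s` for the colour class `a` of columns -/
def rowKey {S T : Type} [Fintype T] (R : S → T → Prop) (col : T → ℕ) (a ε : ℕ) (s : S) : ℕ :=
  if h : ∃ t, col t = a ∧ R s t then 2 * rk T ε h.choose + 1 else 2 * Fintype.card T + 1

open Classical in
/-- the position of a column -/
def colKey {T : Type} [Fintype T] (col : T → ℕ) (a ε : ℕ) (t : T) : ℕ :=
  if col t = a then 2 * rk T ε t + 2 else 2 * Fintype.card T + 2

section

variable {S T : Type} [Fintype T] {R : S → T → Prop} {col : T → ℕ}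
  (hcol : ∀ t t', t ≠ t' → col t = col t' → ∀ s, ¬ (R s t ∧ R s t'))

theorem rowKey_le (a ε : ℕ) (s : S) : rowKey R col a ε s ≤ 2 * Fintype.card T + 1 := by
  unfold rowKey
  split_ifs with h
  · have := rk_lt ε h.choose
    omega
  · exact le_rfl

theorem rowKey_pos (a ε : ℕ) (s : S) : 0 < rowKey R col a ε s := by
  unfold rowKey
  split_ifs <;> omega

theorem colKey_le (a ε : ℕ) (t : T) : colKey col a ε t ≤ 2 * Fintype.card T + 2 := by
  unfold colKey
  split_ifs with h
  · have := rk_lt ε t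
    omega
  · exact le_rfl

include hcol in
theorem key_allowed (a ε : ℕ) {s : S} {t : T} (h : R s t) :
    rowKey R col a ε s < colKey col a ε t := by
  by_cases ha : col t = a
  · have hex : ∃ t, col t = a ∧ R s t := ⟨t, ha, h⟩
    have e : hex.choose = t := by
      by_contra hne
      exact hcol _ _ hne (hex.choose_spec.1.trans ha.symm) s ⟨hex.choose_spec.2, h⟩
    rw [rowKey, dif_pos hex, e, colKey, if_pos ha]
    omega
  · have h1 := rowKey_le (R := R) (col := col) a ε s
    rw [colKey, if_neg ha]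
    omega

include hcol in
theorem key_forbidden {s : S} {t : T} (h : ¬ R s t) :
    ∃ ε, ε < 2 ∧ colKey col (col t) ε t < rowKey R col (col t) ε s := by
  by_cases hex : ∃ t', col t' = col t ∧ R s t'
  · have hne : t ≠ hex.choose := by
      intro hh
      apply h
      rw [hh]
      exact hex.choose_spec.2
    obtain ⟨ε, hε, hlt⟩ := exists_dir hne
    refine ⟨ε, hε, ?_⟩
    rw [colKey, if_pos rfl, rowKey, dif_pos hex]
    omega
  · refine ⟨0, by norm_num, ?_⟩
    have := rk_lt 0 t
    rw [colKey, if_pos rfl, rowKey, dif_neg hex]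
    omega

theorem colKey_class (ε : ℕ) (t : T) : colKey col (col t) ε t < 2 * Fintype.card T + 1 := by
  have := rk_lt ε t
  rw [colKey, if_pos rfl]
  omega

end

/-- the position inside a layer -/
def lk {Z X Y : Type} [Fintype X] [Fintype Y] (SA : Z → X → Prop) (SB : X → Y → Prop) (KA : ℕ)
    (colA : X → ℕ) (colB : Y → ℕ) (c : ℕ) : Z ⊕ X ⊕ Y → ℕ
  | Sum.inl z => if c < 2 * KA then rowKey SA colA (c / 2) (c % 2) z else 2 * Fintype.card Y + 1
  | Sum.inr (Sum.inl x) => if c < 2 * KA then colKey colA (c / 2) (c % 2) x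
      else rowKey SB colB ((c - 2 * KA) / 2) ((c - 2 * KA) % 2) x
  | Sum.inr (Sum.inr y) => if c < 2 * KA then 0
      else colKey colB ((c - 2 * KA) / 2) ((c - 2 * KA) % 2) y

theorem lk_le {Z X Y : Type} [Fintype X] [Fintype Y] (SA : Z → X → Prop) (SB : X → Y → Prop)
    (KA : ℕ) (colA : X → ℕ) (colB : Y → ℕ) (c : ℕ) (i : Z ⊕ X ⊕ Y) :
    lk SA SB KA colA colB c i ≤ 2 * Fintype.card X + 2 * Fintype.card Y + 2 := by
  rcases i with z | x | y
  · simp only [lk]
    split_ifs with h
    · have := rowKey_le (R := SA) (col := colA) (c / 2) (c % 2) z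
      omega
    · omega
  · simp only [lk]
    split_ifs with h
    · have := colKey_le (col := colA) (c / 2) (c % 2) x
      omega
    · have := rowKey_le (R := SB) (col := colB) ((c - 2 * KA) / 2) ((c - 2 * KA) % 2) x
      omega
  · simp only [lk]
    split_ifs with h
    · omega
    · have := colKey_le (col := colB) ((c - 2 * KA) / 2) ((c - 2 * KA) % 2) y
      omega

end Ord2Aux

open Ord2Aux

theorem exists_good2 {Z X Y : Type} [Fintype Z] [Fintype X] [Fintype Y]
    (SA : Z → X → Prop) (SB : X → Y → Prop) {KA KB : ℕ} (hKA : 0 < KA) (hKB : 0 < KB)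
    (colA : X → Fin KA) (colB : Y → Fin KB)
    (hA : ∀ x x', x ≠ x' → colA x = colA x' → ∀ z, ¬ (SA z x ∧ SA z x'))
    (hB : ∀ y y', y ≠ y' → colB y = colB y' → ∀ x, ¬ (SB x y ∧ SB x y')) :
    ∃ (P : Par Z X Y) (pos tim : Ix P ≃ Fin (Fintype.card (Ix P))),
      P.SA = SA ∧ P.SB = SB ∧ P.L0 = 2 * KA ∧ P.L1 = 2 * KB ∧ Good P pos tim := by
  classical
  obtain ⟨P, rfl, rfl, hL0, hL1⟩ : ∃ P : Par Z X Y, P.SA = SA ∧ P.SB = SB ∧
      P.L0 = 2 * KA ∧ P.L1 = 2 * KB :=
    ⟨⟨_, _, SA, SB⟩, rfl, rfl, rfl, rfl⟩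
  let cA : X → ℕ := fun x => colA x
  let cB : Y → ℕ := fun y => colB y
  have hA' : ∀ x x', x ≠ x' → cA x = cA x' → ∀ z, ¬ (P.SA z x ∧ P.SA z x') :=
    fun x x' h h' => hA x x' h (Fin.ext h')
  have hB' : ∀ y y', y ≠ y' → cB y = cB y' → ∀ x, ¬ (P.SB x y ∧ P.SB x y') :=
    fun y y' h h' => hB y y' h (Fin.ext h')
  let D : ℕ := 2 * Fintype.card X + 2 * Fintype.card Y + 3
  obtain ⟨pos, hpos⟩ := Pd6ff58.J.exists_sort
    (fun a : Ix P => D * (a.1 : ℕ) + lk P.SA P.SB KA cA cB a.1 a.2)
  obtain ⟨tim, htim⟩ := Pd6ff58.J.exists_sort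
    (fun a : Ix P => kap P a * (Fintype.card (Ix P) + 1) + (Fintype.card (Ix P) - (pos a : ℕ)))
  have hp4 : ∀ (c : Fin (P.L0 + P.L1)) (i j : Z ⊕ X ⊕ Y),
      lk P.SA P.SB KA cA cB c i < lk P.SA P.SB KA cA cB c j → pos (c, i) < pos (c, j) := by
    intro c i j h2
    apply hpos
    simp only
    omega
  refine ⟨P, pos, tim, rfl, rfl, hL0, hL1, ?_⟩
  refine ⟨by omega, by omega, ?_, ?_, ?_, ?_, ?_, ?_, ?_, ?_, ?_⟩
  · intro a b h
    apply hpos
    have h1 := lk_le P.SA P.SB KA cA cB a.1 a.2
    have h2 : D * ((a.1 : ℕ) + 1) ≤ D * (b.1 : ℕ) := Nat.mul_le_mul_left _ h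
    rw [mul_add, mul_one] at h2
    have h3 : D = 2 * Fintype.card X + 2 * Fintype.card Y + 3 := rfl
    omega
  · intro a b h
    apply htim
    have h1 : (kap P a + 1) * (Fintype.card (Ix P) + 1) ≤
        kap P b * (Fintype.card (Ix P) + 1) := Nat.mul_le_mul_right _ h
    have h2 : Fintype.card (Ix P) - (pos a : ℕ) ≤ Fintype.card (Ix P) := Nat.sub_le _ _
    rw [add_mul] at h1
    omega
  · intro a b h1 h2
    apply htim
    rw [h1]
    have h3 : (pos b : ℕ) < pos a := h2
    have h4 := (pos a).2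
    omega
  · intro c z x hc hzx
    apply hp4
    have hc' : (c : ℕ) < 2 * KA := by omega
    simp only [lk, if_pos hc']
    exact key_allowed hA' _ _ hzx
  · intro c x y hc hxy
    apply hp4
    have hc' : ¬ (c : ℕ) < 2 * KA := by omega
    simp only [lk, if_neg hc']
    exact key_allowed hB' _ _ hxy
  · intro z x hzx
    obtain ⟨ε, hε, hlt⟩ := key_forbidden hA' hzx
    have hca := (colA x).2
    refine ⟨⟨2 * cA x + ε, ?_⟩, ?_, ?_⟩
    · change 2 * (colA x : ℕ) + ε < _
      omega
    · change 2 * (colA x : ℕ) + ε < P.L0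
      omega
    · apply hp4
      have e1 : (2 * cA x + ε) / 2 = cA x := by omega
      have e2 : (2 * cA x + ε) % 2 = ε := by omega
      have hc' : 2 * cA x + ε < 2 * KA := by
        change 2 * (colA x : ℕ) + ε < _
        omega
      simp only [lk, if_pos hc', e1, e2]
      exact hlt
  · intro z y
    refine ⟨⟨0, by omega⟩, ?_, ?_⟩
    · change 0 < P.L0
      omega
    · apply hp4
      have hc' : 0 < 2 * KA := by omega
      simp only [lk, if_pos hc']
      exact rowKey_pos _ _ _
  · intro x y hxy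
    obtain ⟨ε, hε, hlt⟩ := key_forbidden hB' hxy
    have hca := (colB y).2
    refine ⟨⟨2 * KA + (2 * cB y + ε), ?_⟩, ?_, ?_⟩
    · change 2 * KA + (2 * (colB y : ℕ) + ε) < _
      omega
    · change P.L0 ≤ 2 * KA + (2 * (colB y : ℕ) + ε)
      omega
    · apply hp4
      have e0 : 2 * KA + (2 * cB y + ε) - 2 * KA = 2 * cB y + ε := by omega
      have e1 : (2 * cB y + ε) / 2 = cB y := by omega
      have e2 : (2 * cB y + ε) % 2 = ε := by omega
      have hc' : ¬ 2 * KA + (2 * cB y + ε) < 2 * KA := by omega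
      simp only [lk, if_neg hc', e0, e1, e2]
      exact hlt
  · intro z y
    have hca := (colB y).2
    refine ⟨⟨2 * KA + (2 * cB y + 0), ?_⟩, ?_, ?_⟩
    · change 2 * KA + (2 * (colB y : ℕ) + 0) < _
      omega
    · change P.L0 ≤ 2 * KA + (2 * (colB y : ℕ) + 0)
      omega
    · apply hp4
      have e0 : 2 * KA + (2 * cB y + 0) - 2 * KA = 2 * cB y + 0 := by omega
      have e1 : (2 * cB y + 0) / 2 = cB y := by omega
      have e2 : (2 * cB y + 0) % 2 = 0 := by omega
      have hc' : ¬ 2 * KA + (2 * cB y + 0) < 2 * KA := by omega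
      simp only [lk, if_neg hc', e0, e1, e2]
      exact colKey_class _ _

end Pd6ff58.U
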