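import Pool.Agent.Lib.Pd6U.Sp

/-!
# Module So: the solutions of the equations of the Springer condition

`R` is constant on the layers `< L0` and on the layers `≥ L0`; forbidden entries vanish because each
of them is forbidden in some layer; the equation between the layers `L0 - 1` and `L0` is `A B = 0`.
-/

open MvPolynomial

noncomputable section

namespace Pd6ff58.U

variable {Z X Y : Type} {P : Par Z X Y} {n : ℕ} {pos tim : Ix P ≃ Fin n}
  [Fintype Z] [Fintype X] [Fintype Y]

/-- the entries of `A` (layer `c0`) and `B` (layer `c1`) -/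
def sOf (P : Par Z X Y) (c0 c1 : Fin (P.L0 + P.L1)) (R : Matrix (Ix P) (Ix P) ℂ) :
    (Z × X) ⊕ (X × Y) → ℂ :=
  Sum.elim (fun q => R (c0, Sum.inl q.1) (c0, Sum.inr (Sum.inl q.2)))
    (fun q => R (c1, Sum.inr (Sum.inl q.1)) (c1, Sum.inr (Sum.inr q.2)))

theorem solve' (hg : Good P pos tim) {s : (Z × X) ⊕ (X × Y) → ℂ} (hs : s ∈ ABset P.SA P.SB) :
    Nil pos (Rm P s) ∧ REqs P (Rm P s) := by
  constructor
  · rintro ⟨c, i⟩ ⟨c', j⟩ h
    by_cases hc : c = c'
    · subst hc
      rcases i with z | x | y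
      · rcases j with z' | x' | y'
        · exact absurd (by simp [Rm]) h
        · have h' : (if (c : ℕ) < P.L0 then s (Sum.inl (z, x')) else 0) ≠ 0 := by
            simpa [Rm] using h
          have hL : (c : ℕ) < P.L0 := by
            by_contra hL
            exact h' (if_neg hL)
          rw [if_pos hL] at h'
          have hSA : P.SA z x' := by
            by_contra hSA
            exact h' (hs.1 z x' hSA)
          exact ⟨rfl, fun hp => hp, hL, hg.al0 c z x' hL hSA⟩
        · exact absurd (by simp [Rm]) h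
      · rcases j with z' | x' | y'
        · exact absurd (by simp [Rm]) h
        · exact absurd (by simp [Rm]) h
        · have h' : (if (c : ℕ) < P.L0 then 0 else s (Sum.inr (x, y'))) ≠ 0 := by
            simpa [Rm] using h
          have hL : ¬ (c : ℕ) < P.L0 := by
            intro hL
            exact h' (if_pos hL)
          rw [if_neg hL] at h'
          have hSB : P.SB x y' := by
            by_contra hSB
            exact h' (hs.2.1 x y' hSB)
          exact ⟨rfl, hL, trivial, hg.al1 c x y' (not_lt.1 hL) hSB⟩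
      · rcases j with z' | x' | y'
        · exact absurd (by simp [Rm]) h
        · exact absurd (by simp [Rm]) h
        · exact absurd (by simp [Rm]) h
    · exact absurd (by simp [Rm, hc]) h
  · rintro ⟨c, i⟩ ⟨c', j⟩ ha hb hab
    simp only at hab
    rw [Fintype.sum_sum_type, Fintype.sum_sum_type]
    rcases i with z | x | y
    · rcases j with z' | x' | y'
      · exact absurd hb (fun hp => hp)
      · have h1 : (c' : ℕ) < P.L0 := hb
        have h2 : (c : ℕ) < P.L0 := by omega
        simp [Rm, h1, h2]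
      · by_cases h2 : (c : ℕ) < P.L0
        · by_cases h1 : (c' : ℕ) < P.L0
          · simp [Rm, h1, h2]
          · simp [Rm, h1, h2, hs.2.2 z y']
        · simp [Rm, h2]
    · have h2 : ¬ (c : ℕ) < P.L0 := ha
      have h1 : ¬ (c' : ℕ) < P.L0 := by omega
      rcases j with z' | x' | y'
      · exact absurd hb (fun hp => hp)
      · exact absurd hb h1
      · simp [Rm, h1, h2]
    · exact absurd trivial ha

namespace SoAux

omit [Fintype Z] [Fintype X] [Fintype Y] in
theorem zero_of {R : Matrix (Ix P) (Ix P) ℂ} (hR : Nil pos R) {a b : Ix P}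
    (h : pos b < pos a) : R a b = 0 := by
  by_contra hc
  exact lt_asymm h (hR a b hc).2.2.2

theorem const0 {R : Matrix (Ix P) (Ix P) ℂ} (hR : Nil pos R) (he : REqs P R) (z : Z) (j : X ⊕ Y)
    (k : ℕ) (hk : k < P.L0) :
    R (⟨k, by omega⟩, Sum.inl z) (⟨k, by omega⟩, Sum.inr j) =
      R (⟨0, by omega⟩, Sum.inl z) (⟨0, by omega⟩, Sum.inr j) := by
  induction k with
  | zero => rfl
  | succ k ih =>
    rw [← ih (by omega)]
    have hb : piv P ((⟨k + 1, by omega⟩, Sum.inr j) : Ix P) := by
      rcases j with x | y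
      · exact hk
      · trivial
    have h := he (⟨k, by omega⟩, Sum.inl z) (⟨k + 1, by omega⟩, Sum.inr j) (fun hp => hp) hb rfl
    rw [h, add_eq_left]
    refine Finset.sum_eq_zero fun i _ => ?_
    by_contra hc
    have h1 := (hR _ _ (left_ne_zero_of_mul hc)).2.2.1
    have h2 := (hR _ _ (right_ne_zero_of_mul hc)).2.1
    rcases i with z' | x | y
    · exact h1
    · exact h2 hk
    · exact h2 trivial

theorem const1 {R : Matrix (Ix P) (Ix P) ℂ} (hR : Nil pos R) (he : REqs P R) (i : Z ⊕ X) (y : Y)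
    (k : ℕ) (hk : P.L0 + k < P.L0 + P.L1) :
    R (⟨P.L0 + k, hk⟩, Sum.elim Sum.inl (fun x => Sum.inr (Sum.inl x)) i)
      (⟨P.L0 + k, hk⟩, Sum.inr (Sum.inr y)) =
      R (⟨P.L0, by omega⟩, Sum.elim Sum.inl (fun x => Sum.inr (Sum.inl x)) i)
      (⟨P.L0, by omega⟩, Sum.inr (Sum.inr y)) := by
  induction k with
  | zero => rfl
  | succ k ih =>
    rw [← ih (by omega)]
    have ha : ¬ piv P ((⟨P.L0 + k, by omega⟩,
        Sum.elim Sum.inl (fun x => Sum.inr (Sum.inl x)) i) : Ix P) := by
      rcases i with z | x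
      · exact fun hp => hp
      · change ¬ (P.L0 + k < P.L0)
        omega
    have h := he (⟨P.L0 + k, by omega⟩, Sum.elim Sum.inl (fun x => Sum.inr (Sum.inl x)) i)
      (⟨P.L0 + (k + 1), hk⟩, Sum.inr (Sum.inr y)) ha trivial rfl
    rw [h, add_eq_left]
    refine Finset.sum_eq_zero fun i' _ => ?_
    by_contra hc
    have h1 := (hR _ _ (left_ne_zero_of_mul hc)).2.2.1
    have h2 := (hR _ _ (right_ne_zero_of_mul hc)).2.1
    rcases i' with z' | x | y
    · exact h1
    · change P.L0 + k < P.L0 at h1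
      omega
    · exact h2 trivial

end SoAux

open SoAux

theorem solve (hg : Good P pos tim) {R : Matrix (Ix P) (Ix P) ℂ} (hR : Nil pos R)
    (he : REqs P R) {c0 c1 : Fin (P.L0 + P.L1)} (h0 : (c0 : ℕ) < P.L0) (h1 : P.L0 ≤ (c1 : ℕ)) :
    sOf P c0 c1 R ∈ ABset P.SA P.SB ∧ R = Rm P (sOf P c0 c1 R) := by
  have hp0 := hg.p0
  have hp1 := hg.p1
  -- constancy
  have k0 : ∀ (c c' : Fin (P.L0 + P.L1)) (z : Z) (j : X ⊕ Y), (c : ℕ) < P.L0 →
      (c' : ℕ) < P.L0 → R (c, Sum.inl z) (c, Sum.inr j) = R (c', Sum.inl z) (c', Sum.inr j) := by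
    intro c c' z j hc hc'
    exact (const0 hR he z j c hc).trans (const0 hR he z j c' hc').symm
  have k1 : ∀ (c c' : Fin (P.L0 + P.L1)) (i : Z ⊕ X) (y : Y), P.L0 ≤ (c : ℕ) →
      P.L0 ≤ (c' : ℕ) → R (c, Sum.elim Sum.inl (fun x => Sum.inr (Sum.inl x)) i)
        (c, Sum.inr (Sum.inr y)) =
        R (c', Sum.elim Sum.inl (fun x => Sum.inr (Sum.inl x)) i) (c', Sum.inr (Sum.inr y)) := by
    intro c c' i y hc hc'
    have e : ∀ d : Fin (P.L0 + P.L1), P.L0 ≤ (d : ℕ) →
        R (d, Sum.elim Sum.inl (fun x => Sum.inr (Sum.inl x)) i) (d, Sum.inr (Sum.inr y)) =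
        R (⟨P.L0, by omega⟩, Sum.elim Sum.inl (fun x => Sum.inr (Sum.inl x)) i)
          (⟨P.L0, by omega⟩, Sum.inr (Sum.inr y)) := by
      intro d hd
      obtain ⟨k, hk⟩ := Nat.exists_eq_add_of_le hd
      have hkk : P.L0 + k < P.L0 + P.L1 := by
        rw [← hk]
        exact d.2
      have ed : d = ⟨P.L0 + k, hkk⟩ := Fin.ext hk
      rw [ed]
      exact const1 hR he i y k hkk
    exact (e c hc).trans (e c' hc').symm
  have z0 : ∀ (c : Fin (P.L0 + P.L1)) (z : Z) (y : Y), (c : ℕ) < P.L0 →
      R (c, Sum.inl z) (c, Sum.inr (Sum.inr y)) = 0 := by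
    intro c z y hc
    obtain ⟨d, hd, hd'⟩ := hg.fb0' z y
    rw [k0 c d z (Sum.inr y) hc hd]
    exact zero_of hR hd'
  have z1 : ∀ (c : Fin (P.L0 + P.L1)) (z : Z) (y : Y), P.L0 ≤ (c : ℕ) →
      R (c, Sum.inl z) (c, Sum.inr (Sum.inr y)) = 0 := by
    intro c z y hc
    obtain ⟨d, hd, hd'⟩ := hg.fb1' z y
    have := k1 c d (Sum.inl z) y hc hd
    simp only [Sum.elim_inl] at this
    rw [this]
    exact zero_of hR hd'
  have kB : ∀ (c c' : Fin (P.L0 + P.L1)) (x : X) (y : Y), P.L0 ≤ (c : ℕ) →
      P.L0 ≤ (c' : ℕ) → R (c, Sum.inr (Sum.inl x)) (c, Sum.inr (Sum.inr y)) =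
        R (c', Sum.inr (Sum.inl x)) (c', Sum.inr (Sum.inr y)) := by
    intro c c' x y hc hc'
    have := k1 c c' (Sum.inr x) y hc hc'
    simpa only [Sum.elim_inr] using this
  refine ⟨⟨?_, ?_, ?_⟩, ?_⟩
  · intro z x hzx
    obtain ⟨d, hd, hd'⟩ := hg.fb0 z x hzx
    change R (c0, Sum.inl z) (c0, Sum.inr (Sum.inl x)) = 0
    rw [k0 c0 d z (Sum.inl x) h0 hd]
    exact zero_of hR hd'
  · intro x y hxy
    obtain ⟨d, hd, hd'⟩ := hg.fb1 x y hxy
    change R (c1, Sum.inr (Sum.inl x)) (c1, Sum.inr (Sum.inr y)) = 0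
    rw [kB c1 d x y h1 hd]
    exact zero_of hR hd'
  · intro z y
    change ∑ x, R (c0, Sum.inl z) (c0, Sum.inr (Sum.inl x)) *
      R (c1, Sum.inr (Sum.inl x)) (c1, Sum.inr (Sum.inr y)) = 0
    let c : Fin (P.L0 + P.L1) := ⟨P.L0 - 1, by omega⟩
    let c' : Fin (P.L0 + P.L1) := ⟨P.L0, by omega⟩
    have hc : (c : ℕ) < P.L0 := by
      change P.L0 - 1 < P.L0
      omega
    have hc' : P.L0 ≤ (c' : ℕ) := le_rfl
    have h := he (c, Sum.inl z) (c', Sum.inr (Sum.inr y)) (fun hp => hp) trivial (by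
      change P.L0 = P.L0 - 1 + 1
      omega)
    simp only at h
    rw [z0 c z y hc, z1 c' z y hc', zero_add, Fintype.sum_sum_type, Fintype.sum_sum_type] at h
    have e1 : ∑ i : Z, R (c, Sum.inl z) (c, Sum.inl i) *
        R (c', Sum.inl i) (c', Sum.inr (Sum.inr y)) = 0 := by
      refine Finset.sum_eq_zero fun i _ => ?_
      by_contra hcc
      exact (hR _ _ (left_ne_zero_of_mul hcc)).2.2.1
    have e2 : ∑ i : Y, R (c, Sum.inl z) (c, Sum.inr (Sum.inr i)) *
        R (c', Sum.inr (Sum.inr i)) (c', Sum.inr (Sum.inr y)) = 0 := by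
      refine Finset.sum_eq_zero fun i _ => ?_
      by_contra hcc
      exact (hR _ _ (right_ne_zero_of_mul hcc)).2.1 trivial
    rw [e1, e2, zero_add, add_zero] at h
    rw [h]
    refine Finset.sum_congr rfl fun x _ => ?_
    rw [k0 c0 c z (Sum.inl x) h0 hc, kB c1 c' x y h1 hc']
  · ext a b
    obtain ⟨c, i⟩ := a
    obtain ⟨c', j⟩ := b
    by_cases hcc : c = c'
    · subst hcc
      rcases i with z | x | y
      · rcases j with z' | x' | y'
        · have h2 : R (c, Sum.inl z) (c, Sum.inl z') = 0 := by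
            by_contra hc
            exact (hR _ _ hc).2.2.1
          rw [h2]
          simp [Rm]
        · by_cases hL : (c : ℕ) < P.L0
          · have e : Rm P (sOf P c0 c1 R) (c, Sum.inl z) (c, Sum.inr (Sum.inl x')) =
                R (c0, Sum.inl z) (c0, Sum.inr (Sum.inl x')) := by
              simp [Rm, hL, sOf]
            rw [e]
            exact k0 c c0 z (Sum.inl x') hL h0
          · have h2 : R (c, Sum.inl z) (c, Sum.inr (Sum.inl x')) = 0 := by
              by_contra hc
              exact hL (hR _ _ hc).2.2.1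
            rw [h2]
            simp [Rm, hL]
        · have h2 : R (c, Sum.inl z) (c, Sum.inr (Sum.inr y')) = 0 := by
            by_cases hL : (c : ℕ) < P.L0
            · exact z0 c z y' hL
            · exact z1 c z y' (not_lt.1 hL)
          rw [h2]
          simp [Rm]
      · rcases j with z' | x' | y'
        · have h2 : R (c, Sum.inr (Sum.inl x)) (c, Sum.inl z') = 0 := by
            by_contra hc
            exact (hR _ _ hc).2.2.1
          rw [h2]
          simp [Rm]
        · have h2 : R (c, Sum.inr (Sum.inl x)) (c, Sum.inr (Sum.inl x')) = 0 := by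
            by_contra hc
            exact (hR _ _ hc).2.1 (hR _ _ hc).2.2.1
          rw [h2]
          simp [Rm]
        · by_cases hL : (c : ℕ) < P.L0
          · have h2 : R (c, Sum.inr (Sum.inl x)) (c, Sum.inr (Sum.inr y')) = 0 := by
              by_contra hc
              exact (hR _ _ hc).2.1 hL
            rw [h2]
            simp [Rm, hL]
          · have e : Rm P (sOf P c0 c1 R) (c, Sum.inr (Sum.inl x)) (c, Sum.inr (Sum.inr y')) =
                R (c1, Sum.inr (Sum.inl x)) (c1, Sum.inr (Sum.inr y')) := by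
              simp [Rm, hL, sOf]
            rw [e]
            exact kB c c1 x y' (not_lt.1 hL) h1
      · have h2 : R (c, Sum.inr (Sum.inr y)) (c, j) = 0 := by
          by_contra hc
          exact (hR _ _ hc).2.1 trivial
        rw [h2]
        rcases j with z' | x' | y'
        · simp [Rm]
        · simp [Rm]
        · simp [Rm]
    · have h2 : R (c, i) (c', j) = 0 := by
        by_contra hc
        exact hcc (hR _ _ hc).1
      rw [h2]
      simp [Rm, hcc]

end Pd6ff58.U
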