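import Pool.Agent.Lib.Pd6U.Def

/-!
# Module Sp: the Springer condition in the coordinates `T = (1 + R) 𝒜`

PROOFS. Facts on positions (`Good`): (1) if `pos a < pos b` and `tim b < tim a` then either
`kap a = kap b`, or `a.1 = b.1`, `¬ piv a`, `piv b` (because `a.1 ≤ b.1` by `lay`, `kap b ≤ kap a` by
`tim_kap`, `kap b ≥ b.1`, `kap a ≤ a.1 + 1`). (2) If `a.1 = b.1`, `¬ piv a`, `piv b` then `kap b < kap a`, so
`tim b < tim a`. (3) if `kap a = kap b` and `a.1 < b.1` then `¬ piv a`, `piv b`, `b.1 = a.1 + 1`.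
-/

open MvPolynomial

noncomputable section

namespace Pd6ff58.U

variable {Z X Y : Type} {P : Par Z X Y} {n : ℕ} {pos tim : Ix P ≃ Fin n}

namespace SpAux

theorem kap_piv {a : Ix P} (h : piv P a) : kap P a = (a.1 : ℕ) := by
  simp [kap, h]

theorem kap_npiv {a : Ix P} (h : ¬ piv P a) : kap P a = (a.1 : ℕ) + 1 := by
  simp [kap, h]

theorem le_kap (a : Ix P) : (a.1 : ℕ) ≤ kap P a := by
  unfold kap
  omega

theorem kap_le (a : Ix P) : kap P a ≤ (a.1 : ℕ) + 1 := by
  unfold kap
  split_ifs <;> omega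

theorem lay_le (hg : Good P pos tim) {a b : Ix P} (h : pos a ≤ pos b) : (a.1 : ℕ) ≤ b.1 := by
  by_contra hc
  rw [not_le] at hc
  exact absurd (hg.lay b a hc) (not_lt.2 h)

theorem kap_le_of_tim (hg : Good P pos tim) {a b : Ix P} (h : tim a ≤ tim b) :
    kap P a ≤ kap P b := by
  by_contra hc
  rw [not_le] at hc
  exact absurd (hg.tim_kap b a hc) (not_lt.2 h)

theorem cases_off (hg : Good P pos tim) {a b : Ix P} (h1 : pos a < pos b) (h2 : tim b < tim a) :
    kap P a = kap P b ∨ (a.1 = b.1 ∧ ¬ piv P a ∧ piv P b) := by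
  have e1 := lay_le hg h1.le
  have e2 := kap_le_of_tim hg h2.le
  have e3 := le_kap b
  have e4 := kap_le a
  rcases Nat.lt_or_ge (kap P b) (kap P a) with h | h
  · right
    have e5 : (a.1 : ℕ) = b.1 := by omega
    have e6 : kap P b = (b.1 : ℕ) := by omega
    have e7 : kap P a = (a.1 : ℕ) + 1 := by omega
    refine ⟨Fin.ext e5, fun hp => ?_, ?_⟩
    · rw [kap_piv hp] at e7
      omega
    · by_contra hp
      rw [kap_npiv hp] at e6
      omega
  · left
    omega

theorem kap_lt {a b : Ix P} (h : a.1 = b.1) (ha : ¬ piv P a) (hb : piv P b) :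
    kap P b < kap P a := by
  rw [kap_piv hb, kap_npiv ha, h]
  omega

theorem mul_ne {I : Type} [Fintype I] {A B : Matrix I I ℂ} {a b : I} (h : (A * B) a b ≠ 0) :
    ∃ c, A a c ≠ 0 ∧ B c b ≠ 0 := by
  rw [Matrix.mul_apply] at h
  obtain ⟨c, _, hc⟩ := Finset.exists_ne_zero_of_sum_ne_zero h
  exact ⟨c, left_ne_zero_of_mul hc, right_ne_zero_of_mul hc⟩

theorem add_ne {I : Type} {A B : Matrix I I ℂ} {a b : I} (h : (A + B) a b ≠ 0) :
    A a b ≠ 0 ∨ B a b ≠ 0 := by
  by_contra hc
  push Not at hc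
  apply h
  rw [Matrix.add_apply, hc.1, hc.2, add_zero]

theorem sub_ne {I : Type} {A B : Matrix I I ℂ} {a b : I} (h : (A - B) a b ≠ 0) :
    A a b ≠ 0 ∨ B a b ≠ 0 := by
  by_contra hc
  push Not at hc
  apply h
  rw [Matrix.sub_apply, hc.1, hc.2, sub_zero]

theorem one_ne {I : Type} [DecidableEq I] {a b : I} (h : (1 : Matrix I I ℂ) a b ≠ 0) : a = b := by
  by_contra hc
  exact h (Matrix.one_apply_ne hc)

/-- pivots of a layer are pivots of the layer before -/
theorem piv_down {a b : Ix P} (h : (b.1 : ℕ) = (a.1 : ℕ) + 1) (h2 : a.2 = b.2) (hb : piv P b) :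
    piv P a := by
  obtain ⟨c, i⟩ := a
  obtain ⟨c', i'⟩ := b
  simp only at h h2
  subst h2
  rcases i with z | x | y
  · exact hb
  · change (c' : ℕ) < P.L0 at hb
    change (c : ℕ) < P.L0
    omega
  · trivial

end SpAux

open SpAux

variable [Fintype Z] [Fintype X] [Fintype Y] [DecidableEq Z] [DecidableEq X] [DecidableEq Y]

omit [DecidableEq Z] [DecidableEq X] [DecidableEq Y] in
theorem Nil.mul_nil {R S : Matrix (Ix P) (Ix P) ℂ} (hR : Nil pos R) (hS : Nil pos S) :
    R * S = 0 := by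
  ext a b
  by_contra h
  obtain ⟨c, h1, h2⟩ := mul_ne h
  exact (hS c b h2).2.1 (hR a c h1).2.2.1

omit [Fintype Z] [Fintype X] [Fintype Y] [DecidableEq Z] [DecidableEq X] [DecidableEq Y] in
theorem Nil.add {R S : Matrix (Ix P) (Ix P) ℂ} (hR : Nil pos R) (hS : Nil pos S) :
    Nil pos (R + S) := fun a b h => (add_ne h).elim (hR a b) (hS a b)

omit [Fintype Z] [Fintype X] [Fintype Y] [DecidableEq Z] [DecidableEq X] [DecidableEq Y] in
theorem Nil.sub {R S : Matrix (Ix P) (Ix P) ℂ} (hR : Nil pos R) (hS : Nil pos S) :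
    Nil pos (R - S) := fun a b h => (sub_ne h).elim (hR a b) (hS a b)

omit [DecidableEq Z] [DecidableEq X] [DecidableEq Y] in
theorem Nil.mul_same (hg : Good P pos tim) {R A : Matrix (Ix P) (Ix P) ℂ} (hR : Nil pos R)
    (hA : Same pos A) : Nil pos (R * A) := by
  intro a b h
  obtain ⟨c, h1, h2⟩ := mul_ne h
  obtain ⟨e1, e2, e3, e4⟩ := hR a c h1
  rcases hA.off c b h2 with rfl | ⟨e5, e6⟩
  · exact ⟨e1, e2, e3, e4⟩
  · have e7 := lay_le hg e5.le
    have e8 := le_kap b
    rw [kap_piv e3] at e6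
    have e9 : (c.1 : ℕ) = b.1 := by omega
    refine ⟨e1.trans (Fin.ext e9), e2, ?_, e4.trans e5⟩
    by_contra hb
    rw [kap_npiv hb] at e6
    omega

theorem Same.blockTriangular {A : Matrix (Ix P) (Ix P) ℂ} (hA : Same pos A) :
    A.BlockTriangular pos := by
  intro a b hab
  by_contra h
  rcases hA.off a b h with rfl | ⟨h1, _⟩
  · exact lt_irrefl _ hab
  · exact lt_asymm hab h1

theorem Same.det {A : Matrix (Ix P) (Ix P) ℂ} (hA : Same pos A) : A.det = 1 := by
  have h : (A.submatrix pos.symm pos.symm).BlockTriangular id := by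
    intro i j hij
    apply hA.blockTriangular
    rw [Equiv.apply_symm_apply, Equiv.apply_symm_apply]
    exact hij
  rw [← Matrix.det_submatrix_equiv_self pos.symm, Matrix.det_of_upperTriangular h]
  refine Finset.prod_eq_one fun i _ => ?_
  exact hA.diag _

theorem Same.inv {A : Matrix (Ix P) (Ix P) ℂ} (hA : Same pos A) : Same pos A⁻¹ := by
  have hu : IsUnit A.det := by
    rw [hA.det]
    exact isUnit_one
  have : Invertible A := A.invertibleOfIsUnitDet hu
  have h1 : A⁻¹.BlockTriangular pos :=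
    Matrix.blockTriangular_inv_of_blockTriangular hA.blockTriangular
  have h2 : A⁻¹.BlockTriangular (kap P) := by
    apply Matrix.blockTriangular_inv_of_blockTriangular
    intro a b hab
    by_contra h
    rcases hA.off a b h with rfl | ⟨_, h3⟩
    · exact lt_irrefl _ hab
    · omega
  have h3 : A⁻¹.BlockTriangular (fun a => OrderDual.toDual (kap P a)) := by
    apply Matrix.blockTriangular_inv_of_blockTriangular
    intro a b hab
    by_contra h
    rcases hA.off a b h with rfl | ⟨_, h3⟩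
    · exact lt_irrefl _ hab
    · rw [OrderDual.toDual_lt_toDual] at hab
      omega
  have hoff : ∀ a b, A⁻¹ a b ≠ 0 → a = b ∨ (pos a < pos b ∧ kap P a = kap P b) := by
    intro a b h
    rcases lt_trichotomy (pos a) (pos b) with h4 | h4 | h4
    · right
      refine ⟨h4, ?_⟩
      rcases lt_trichotomy (kap P a) (kap P b) with h5 | h5 | h5
      · exact absurd (h3 (OrderDual.toDual_lt_toDual.2 h5)) h
      · exact h5
      · exact absurd (h2 h5) h
    · exact Or.inl (pos.injective h4)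
    · exact absurd (h1 h4) h
  refine ⟨fun a => ?_, hoff⟩
  have e : (A * A⁻¹) a a = 1 := by
    rw [Matrix.mul_nonsing_inv _ hu, Matrix.one_apply_eq]
  rw [Matrix.mul_apply, Finset.sum_eq_single a] at e
  · rwa [hA.diag, one_mul] at e
  · intro c _ hca
    by_contra h
    have e1 := left_ne_zero_of_mul h
    have e2 := right_ne_zero_of_mul h
    rcases hA.off _ _ e1 with h4 | ⟨h4, _⟩
    · exact hca h4.symm
    · rcases hoff _ _ e2 with h5 | ⟨h5, _⟩
      · exact hca h5
      · exact lt_asymm h4 h5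
  · intro h
    exact absurd (Finset.mem_univ a) h

theorem Same.mul_inv {A : Matrix (Ix P) (Ix P) ℂ} (hA : Same pos A) : A * A⁻¹ = 1 := by
  apply Matrix.mul_nonsing_inv
  rw [hA.det]
  exact isUnit_one

theorem Same.inv_mul {A : Matrix (Ix P) (Ix P) ℂ} (hA : Same pos A) : A⁻¹ * A = 1 := by
  apply Matrix.nonsing_inv_mul
  rw [hA.det]
  exact isUnit_one

omit [Fintype Z] [Fintype X] [Fintype Y] [DecidableEq Z] [DecidableEq X] [DecidableEq Y] in
theorem Uw.same {T : Matrix (Ix P) (Ix P) ℂ} (hT : Uw pos tim T) :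
    Same pos (Pd6ff58.U.same P T) := by
  refine ⟨fun a => ?_, fun a b h => ?_⟩
  · simp [Pd6ff58.U.same, hT.diag]
  · simp only [Pd6ff58.U.same, Matrix.of_apply, ne_eq, ite_eq_right_iff, Classical.not_imp] at h
    rcases hT.off a b h.2 with h1 | h1
    · exact Or.inl h1
    · exact Or.inr ⟨h1.1, h.1⟩

omit [Fintype Z] [Fintype X] [Fintype Y] [DecidableEq Z] [DecidableEq X] [DecidableEq Y] in
theorem Uw.nil (hg : Good P pos tim) {T : Matrix (Ix P) (Ix P) ℂ} (hT : Uw pos tim T) :
    Nil pos (T - Pd6ff58.U.same P T) := by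
  intro a b h
  have h1 : kap P a ≠ kap P b := by
    intro hk
    apply h
    simp [Pd6ff58.U.same, hk]
  have h2 : T a b ≠ 0 := by
    intro hk
    apply h
    simp [Pd6ff58.U.same, hk]
  rcases hT.off a b h2 with rfl | ⟨h3, h4⟩
  · exact absurd rfl h1
  · rcases cases_off hg h3 h4 with h5 | h5
    · exact absurd h5 h1
    · exact ⟨h5.1, h5.2.1, h5.2.2, h3⟩

/-- the part of `T` in the direction of `R` -/
def nilp (P : Par Z X Y) (T : Matrix (Ix P) (Ix P) ℂ) : Matrix (Ix P) (Ix P) ℂ :=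
  (T - same P T) * (same P T)⁻¹

theorem Uw.nilp_nil (hg : Good P pos tim) {T : Matrix (Ix P) (Ix P) ℂ} (hT : Uw pos tim T) :
    Nil pos (nilp P T) := (hT.nil hg).mul_same hg hT.same.inv

theorem Uw.eq {T : Matrix (Ix P) (Ix P) ℂ} (hT : Uw pos tim T) :
    T = (1 + nilp P T) * Pd6ff58.U.same P T := by
  rw [nilp, add_mul, one_mul, mul_assoc, hT.same.inv_mul, mul_one]
  abel

omit [DecidableEq Z] [DecidableEq X] [DecidableEq Y] in
theorem Nil.apply_same {R A : Matrix (Ix P) (Ix P) ℂ} (hg : Good P pos tim) (hR : Nil pos R)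
    (hA : Same pos A) {a b : Ix P} (h : kap P a = kap P b) : (R * A) a b = 0 := by
  by_contra hc
  obtain ⟨e1, e2, e3, _⟩ := hR.mul_same hg hA a b hc
  have := kap_lt e1 e2 e3
  omega

theorem uw_of (hg : Good P pos tim) {R A : Matrix (Ix P) (Ix P) ℂ} (hR : Nil pos R)
    (hA : Same pos A) : Uw pos tim ((1 + R) * A) := by
  have hRA := hR.mul_same hg hA
  rw [add_mul, one_mul]
  refine ⟨fun a => ?_, fun a b h => ?_⟩
  · rw [Matrix.add_apply, hA.diag, hR.apply_same hg hA rfl, add_zero]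
  · rcases add_ne h with h1 | h1
    · rcases hA.off a b h1 with h2 | h2
      · exact Or.inl h2
      · exact Or.inr ⟨h2.1, hg.tim_pos b a h2.2.symm h2.1⟩
    · obtain ⟨e1, e2, e3, e4⟩ := hRA a b h1
      exact Or.inr ⟨e4, hg.tim_kap b a (kap_lt e1 e2 e3)⟩

theorem same_of (hg : Good P pos tim) {R A : Matrix (Ix P) (Ix P) ℂ} (hR : Nil pos R)
    (hA : Same pos A) : Pd6ff58.U.same P ((1 + R) * A) = A := by
  ext a b
  rw [add_mul, one_mul]
  simp only [Pd6ff58.U.same, Matrix.of_apply, Matrix.add_apply]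
  split_ifs with h
  · rw [hR.apply_same hg hA h, add_zero]
  · by_contra hc
    rcases hA.off a b (Ne.symm hc) with rfl | h1
    · exact h rfl
    · exact h h1.2

theorem nilp_of (hg : Good P pos tim) {R A : Matrix (Ix P) (Ix P) ℂ} (hR : Nil pos R)
    (hA : Same pos A) : nilp P ((1 + R) * A) = R := by
  rw [nilp, same_of hg hR hA, add_mul, one_mul, add_sub_cancel_left, mul_assoc, hA.mul_inv,
    mul_one]

/-! ## The Springer condition -/

namespace SpAux

theorem supp_Y {R : Matrix (Ix P) (Ix P) ℂ} (hR : Nil pos R) {a b : Ix P}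
    (h : ((1 - R) * Xm P * (1 + R)) a b ≠ 0) : (b.1 : ℕ) = (a.1 : ℕ) + 1 := by
  obtain ⟨d, h1, h2⟩ := mul_ne h
  obtain ⟨c, h3, h4⟩ := mul_ne h1
  have e1 : a.1 = c.1 := by
    rcases sub_ne h3 with h5 | h5
    · rw [one_ne h5]
    · exact (hR _ _ h5).1
  have e2 : d.1 = b.1 := by
    rcases add_ne h2 with h5 | h5
    · rw [one_ne h5]
    · exact (hR _ _ h5).1
  have e3 : (d.1 : ℕ) = (c.1 : ℕ) + 1 := by
    by_contra hc
    apply h4
    simp [Xm, hc]
  rw [← e2, e3, e1]

theorem Xm_mul (M : Matrix (Ix P) (Ix P) ℂ) {a b : Ix P} (h : (b.1 : ℕ) = (a.1 : ℕ) + 1) :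
    (Xm P * M) a b = M (b.1, a.2) b := by
  rw [Matrix.mul_apply, Finset.sum_eq_single (b.1, a.2)]
  · simp [Xm, h]
  · intro c _ hc
    have : ¬ ((c.1 : ℕ) = (a.1 : ℕ) + 1 ∧ a.2 = c.2) := by
      rintro ⟨h1, h2⟩
      exact hc (Prod.ext (Fin.ext (show (c.1 : ℕ) = b.1 by omega)) h2.symm)
    simp [Xm, this]
  · intro hh
    exact absurd (Finset.mem_univ _) hh

theorem Y_apply {R : Matrix (Ix P) (Ix P) ℂ} (hR : Nil pos R) {a b : Ix P}
    (h : (b.1 : ℕ) = (a.1 : ℕ) + 1) :
    ((1 - R) * Xm P * (1 + R)) a b = (if a.2 = b.2 then 1 else 0) + R (b.1, a.2) b -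
      R a (a.1, b.2) - ∑ i, R a (a.1, i) * R (b.1, i) b := by
  have hlay : ∀ c : Ix P, c.1 ≠ a.1 → R a c = 0 := by
    intro c hc
    by_contra h1
    exact hc (hR a c h1).1.symm
  rw [mul_assoc, sub_mul, one_mul, Matrix.sub_apply, Xm_mul _ h, Matrix.add_apply, Matrix.mul_apply]
  have e1 : ∑ c, R a c * (Xm P * (1 + R)) c b =
      ∑ i, R a (a.1, i) * (Xm P * (1 + R)) (a.1, i) b := by
    rw [Fintype.sum_prod_type, Finset.sum_eq_single a.1]
    · intro c _ hc
      refine Finset.sum_eq_zero fun i _ => ?_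
      rw [hlay (c, i) hc, zero_mul]
    · intro hh
      exact absurd (Finset.mem_univ _) hh
  have e2 : ∀ i, (Xm P * (1 + R)) (a.1, i) b = (if i = b.2 then 1 else 0) + R (b.1, i) b := by
    intro i
    rw [Xm_mul (a := (a.1, i)) _ h, Matrix.add_apply, Matrix.one_apply]
    congr 1
    by_cases hi : i = b.2
    · subst hi
      simp
    · rw [if_neg hi, if_neg]
      intro hh
      exact hi (congrArg Prod.snd hh)
  have e3 : ∑ i, R a (a.1, i) * (Xm P * (1 + R)) (a.1, i) b =
      R a (a.1, b.2) + ∑ i, R a (a.1, i) * R (b.1, i) b := by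
    simp only [e2, mul_add, Finset.sum_add_distrib, mul_ite, mul_one, mul_zero,
      Finset.sum_ite_eq', Finset.mem_univ, if_true]
  rw [e1, e3, Matrix.one_apply]
  have e4 : ((b.1, a.2) = b) ↔ a.2 = b.2 := by
    constructor
    · intro hh
      have h2 := congrArg (fun q : Ix P => q.2) hh
      exact h2
    · intro hh
      rw [hh]
  simp only [e4]
  ring

end SpAux

theorem spr_iff (hg : Good P pos tim) {R A : Matrix (Ix P) (Ix P) ℂ} (hR : Nil pos R)
    (hA : Same pos A) (g : GL (Fin n) ℂ)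
    (hgv : g.val = ((1 + R) * A).submatrix pos.symm tim.symm) :
    pt g ∈ springerFiber (Xn pos) ↔ REqs P R := by
  have hRR : R * R = 0 := hR.mul_nil hR
  have h1 : (1 - R) * (1 + R) = 1 := by
    rw [sub_mul, one_mul, mul_add, mul_one, hRR]
    abel
  have hgi : (g⁻¹ : GL (Fin n) ℂ).val = (A⁻¹ * (1 - R)).submatrix tim.symm pos.symm := by
    have e : (A⁻¹ * (1 - R)).submatrix tim.symm pos.symm * g.val = 1 := by
      rw [hgv, Matrix.submatrix_mul_equiv]
      have : A⁻¹ * (1 - R) * ((1 + R) * A) = 1 := by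
        rw [mul_assoc, ← mul_assoc (1 - R), h1, one_mul, hA.inv_mul]
      rw [this, Matrix.submatrix_one_equiv]
    calc (g⁻¹ : GL (Fin n) ℂ).val
        = (A⁻¹ * (1 - R)).submatrix tim.symm pos.symm * g.val * (g⁻¹ : GL (Fin n) ℂ).val := by
          rw [e, one_mul]
      _ = _ := by
          rw [mul_assoc, Units.mul_inv, mul_one]
  have hC : (g⁻¹ : GL (Fin n) ℂ).val * Xn pos * g.val =
      (A⁻¹ * ((1 - R) * Xm P * (1 + R)) * A).submatrix tim.symm tim.symm := by
    rw [hgi, hgv, Xn, Matrix.submatrix_mul_equiv, Matrix.submatrix_mul_equiv]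
    congr 1
    simp only [mul_assoc]
  have key : pt g ∈ springerFiber (Xn pos) ↔
      ∀ a b, tim b < tim a → (A⁻¹ * ((1 - R) * Xm P * (1 + R)) * A) a b = 0 := by
    rw [pt_mem_springerFiber, hC]
    constructor
    · intro h a b hab
      have := h (i := tim a) (j := tim b) hab
      simpa using this
    · intro h i j hij
      rw [Matrix.submatrix_apply]
      apply h
      rw [Equiv.apply_symm_apply, Equiv.apply_symm_apply]
      exact hij
  rw [key]
  constructor
  · intro h a b ha hb hab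
    have hY : ((1 - R) * Xm P * (1 + R)) a b = 0 := by
      have e : ∀ M : Matrix (Ix P) (Ix P) ℂ, M = A * (A⁻¹ * M * A) * A⁻¹ := by
        intro M
        rw [mul_assoc A, mul_assoc (A⁻¹ * M), hA.mul_inv, mul_one, ← mul_assoc, hA.mul_inv,
          one_mul]
      rw [e ((1 - R) * Xm P * (1 + R))]
      by_contra hc
      obtain ⟨d, h2, h3⟩ := mul_ne hc
      obtain ⟨c, h4, h5⟩ := mul_ne h2
      -- `kap a = kap c`, `kap d = kap b`
      have hkab : kap P a = kap P b := by
        rw [kap_npiv ha, kap_piv hb, hab]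
      have hac : pos a ≤ pos c ∧ kap P a = kap P c := by
        rcases hA.off a c h4 with rfl | h6
        · exact ⟨le_rfl, rfl⟩
        · exact ⟨h6.1.le, h6.2⟩
      have hdb : pos d ≤ pos b ∧ kap P d = kap P b := by
        rcases hA.inv.off d b h3 with rfl | h6
        · exact ⟨le_rfl, rfl⟩
        · exact ⟨h6.1.le, h6.2⟩
      obtain ⟨d', h6, h7⟩ := mul_ne h5
      obtain ⟨c', h8, h9⟩ := mul_ne h6
      have hlay := supp_Y hR h9
      have hcc : pos c ≤ pos c' ∧ kap P c = kap P c' := by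
        rcases hA.inv.off c c' h8 with rfl | h10
        · exact ⟨le_rfl, rfl⟩
        · exact ⟨h10.1.le, h10.2⟩
      have hdd : pos d' ≤ pos d ∧ kap P d' = kap P d := by
        rcases hA.off d' d h7 with rfl | h10
        · exact ⟨le_rfl, rfl⟩
        · exact ⟨h10.1.le, h10.2⟩
      have q1 := lay_le hg hcc.1
      have q2 := lay_le hg hdd.1
      have q3 : (c.1 : ℕ) < d.1 := by omega
      have q4 : pos c < pos d := hg.lay c d q3
      have q5 : tim d < tim c := hg.tim_pos d c (by rw [hdb.2, ← hkab, hac.2]) q4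
      exact h5 (h c d q5)
    rw [Y_apply hR hab] at hY
    have hne : a.2 ≠ b.2 := fun hh => ha (piv_down hab hh hb)
    rw [if_neg hne] at hY
    linear_combination hY
  · intro h a b hab
    by_contra hc
    obtain ⟨d, h2, h3⟩ := mul_ne hc
    obtain ⟨c, h4, h5⟩ := mul_ne h2
    have hlay := supp_Y hR h5
    have hac : kap P a = kap P c := by
      rcases hA.inv.off a c h4 with rfl | h6
      · rfl
      · exact h6.2
    have hdb : kap P d = kap P b := by
      rcases hA.off d b h3 with rfl | h6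
      · rfl
      · exact h6.2
    have hk : kap P b ≤ kap P a := kap_le_of_tim hg hab.le
    have q1 := kap_le c
    have q2 := le_kap d
    have q3 : kap P c = (c.1 : ℕ) + 1 := by omega
    have q4 : kap P d = (d.1 : ℕ) := by omega
    have hc' : ¬ piv P c := by
      intro hp
      rw [kap_piv hp] at q3
      omega
    have hd' : piv P d := by
      by_contra hp
      rw [kap_npiv hp] at q4
      omega
    apply h5
    rw [Y_apply hR hlay]
    have hne : c.2 ≠ d.2 := fun hh => hc' (piv_down hlay hh hd')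
    rw [if_neg hne, h c d hc' hd' hlay]
    ring

end Pd6ff58.U
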